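import Pool.Agent.H692R2.FinGraph
import Pool.Agent.H673R2.HardOn
import Pool.Agent.H642R2.TMSim

/-!
# Adjacency of an input graph, and a base problem: independent sets with a known upper bound
-/

set_option autoImplicit false

namespace Pool.Agent.NPC.R542

open Pool.Agent.H692R2 Pool.Agent.H673R2

/-- The adjacency bit of an input graph, for arbitrary natural numbers as indices. -/
noncomputable def adjB (G : FinGraph) (i j : ℕ) : Bool := (G.matrix.getD i []).getD j false

theorem matrix_length (G : FinGraph) : G.matrix.length = G.n := by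
  simp [FinGraph.matrix]

theorem adjB_iff (G : FinGraph) (i j : Fin G.n) : adjB G i j = true ↔ G.graph.Adj i j := by
  classical
  unfold adjB FinGraph.matrix
  simp

theorem adjB_symm (G : FinGraph) (i j : ℕ) (hi : i < G.n) (hj : j < G.n) :
    adjB G i j = adjB G j i := by
  have h1 := adjB_iff G ⟨i, hi⟩ ⟨j, hj⟩
  have h2 := adjB_iff G ⟨j, hj⟩ ⟨i, hi⟩
  rw [G.graph.adj_comm] at h1
  have := h1.trans h2.symm
  simp only at this
  cases h : adjB G i j <;> cases h' : adjB G j i <;> simp_all

theorem adjB_self (G : FinGraph) (i : ℕ) (hi : i < G.n) : adjB G i i = false := by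
  have h1 := adjB_iff G ⟨i, hi⟩ ⟨i, hi⟩
  simpa using h1

theorem poly_matrix : Poly (fun G : FinGraph => G.matrix) := PC.id

theorem poly_adjB {α : Type} [TEnc α] {G : α → FinGraph} {i j : α → ℕ} (hG : Poly G)
    (hi : Poly i) (hj : Poly j) : Poly (fun a => adjB (G a) (i a) (j a)) :=
  Poly.getD (Poly.getD (Poly.comp poly_matrix hG) hi (Poly.const [])) hj (Poly.const false)

theorem upoly_n {α : Type} [TEnc α] {G : α → FinGraph} (hG : Poly G) :
    UPoly (fun a => (G a).n) := by
  have h := UPoly.length (Poly.comp poly_matrix hG)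
  refine Poly.congr h fun a => ?_
  simp [matrix_length]

theorem poly_n {α : Type} [TEnc α] {G : α → FinGraph} (hG : Poly G) :
    Poly (fun a => (G a).n) := (upoly_n hG).toPoly

/-! ### The graph of a formula -/

/-- formulas with three literals in each clause -/
abbrev F3 : Type := List (Lit ℕ × Lit ℕ × Lit ℕ)

/-- the literal number `x` of a formula -/
def lit (φ : F3) (x : ℕ) : Lit ℕ :=
  let c := φ.getD (x / 3) ((true, 0), (true, 0), (true, 0))
  if x % 3 = 0 then c.1 else if x % 3 = 1 then c.2.1 else c.2.2

/-- conflicts: the same clause, or contradicting literals -/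
def conf (φ : F3) (x y : ℕ) : Bool :=
  decide (x / 3 = y / 3) || (decide ((lit φ x).2 = (lit φ y).2) && ((lit φ x).1 ^^ (lit φ y).1))

theorem conf_symm (φ : F3) (x y : ℕ) : conf φ x y = conf φ y x := by
  unfold conf
  rw [Bool.xor_comm, decide_eq_decide.2 (eq_comm : x / 3 = y / 3 ↔ _),
    decide_eq_decide.2 (eq_comm : (lit φ x).2 = (lit φ y).2 ↔ _)]

theorem poly_lit {α : Type} [TEnc α] {φ : α → F3} {x : α → ℕ} (hφ : Poly φ) (hx : Poly x) :
    Poly (fun a => lit (φ a) (x a)) := by
  have hc := Poly.getD hφ (Poly.div hx (Poly.const 3))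
    (Poly.const (((true, 0), (true, 0), (true, 0)) : Lit ℕ × Lit ℕ × Lit ℕ))
  exact Poly.ite (Poly.decide_eq (Poly.mod hx (Poly.const 3)) (Poly.const 0)) (Poly.fst hc)
    (Poly.ite (Poly.decide_eq (Poly.mod hx (Poly.const 3)) (Poly.const 1)) (Poly.fst (Poly.snd hc))
      (Poly.snd (Poly.snd hc)))

theorem poly_conf {α : Type} [TEnc α] {φ : α → F3} {x y : α → ℕ} (hφ : Poly φ) (hx : Poly x)
    (hy : Poly y) : Poly (fun a => conf (φ a) (x a) (y a)) :=
  Poly.or (Poly.decide_eq (Poly.div hx (Poly.const 3)) (Poly.div hy (Poly.const 3)))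
    (Poly.and (Poly.decide_eq (Poly.snd (poly_lit hφ hx)) (Poly.snd (poly_lit hφ hy)))
      (Poly.xor (Poly.fst (poly_lit hφ hx)) (Poly.fst (poly_lit hφ hy))))

/-- the conflict graph of a formula -/
def fgraph (φ : F3) : SimpleGraph (Fin (3 * φ.length)) where
  Adj x y := x ≠ y ∧ conf φ x y = true
  symm := ⟨fun x y h => ⟨h.1.symm, by rw [conf_symm]; exact h.2⟩⟩
  loopless := ⟨fun x h => h.1 rfl⟩

theorem poly_fgraph : Poly (fun φ : F3 => (⟨3 * φ.length, fgraph φ⟩ : FinGraph)) := by
  refine poly_finGraph (b := fun φ x y => !(decide (x = y)) && conf φ x y)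
    (UPoly.mul (UPoly.const 3) (UPoly.length Poly.id)) ?_ ?_
  · have h1 : Poly (fun p : (F3 × ℕ) × ℕ => p.1.2) := Poly.snd (Poly.fst Poly.id)
    have h2 : Poly (fun p : (F3 × ℕ) × ℕ => p.2) := Poly.snd Poly.id
    have h3 : Poly (fun p : (F3 × ℕ) × ℕ => p.1.1) := Poly.fst (Poly.fst Poly.id)
    exact Poly.and (Poly.not (Poly.decide_eq h1 h2)) (poly_conf h3 h1 h2)
  · intro φ i j
    simp only [fgraph, Bool.and_eq_true, Bool.not_eq_true', decide_eq_false_iff_not]
    rw [ne_eq, Fin.ext_iff]

theorem fgraph_card_le (φ : F3) (S : Finset (Fin (3 * φ.length))) (hS : (fgraph φ).IsIndepSet S) :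
    S.card ≤ φ.length := by
  classical
  have hmaps : ∀ x ∈ S, (x : ℕ) / 3 ∈ Finset.range φ.length := by
    intro x _
    have := x.2
    rw [Finset.mem_range]
    omega
  have hinj : Set.InjOn (fun x : Fin (3 * φ.length) => (x : ℕ) / 3) S := by
    intro x hx y hy hxy
    by_contra hne
    refine hS hx hy hne ⟨hne, ?_⟩
    simp only at hxy
    unfold conf
    simp [hxy]
  have := Finset.card_le_card_of_injOn _ hmaps hinj
  simpa using this

theorem fgraph_sat (φ : F3) : SAT3 φ ↔ ∃ S : Finset (Fin (3 * φ.length)),
    (fgraph φ).IsIndepSet S ∧ S.card = φ.length := by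
  classical
  constructor
  · rintro ⟨τ, hτ⟩
    have hex : ∀ i : Fin φ.length, ∃ p : ℕ, p < 3 ∧ τ (lit φ (3 * i + p)).2 =
        (lit φ (3 * i + p)).1 := by
      intro i
      have h := hτ φ[i] (List.getElem_mem i.2)
      have e : ∀ p < 3, (3 * (i : ℕ) + p) / 3 = i := by intro p hp; omega
      have e' : ∀ p < 3, (3 * (i : ℕ) + p) % 3 = p := by intro p hp; omega
      have hg : φ.getD i ((true, 0), (true, 0), (true, 0)) = φ[i] := by simp
      rcases h with h | h | h
      · refine ⟨0, by norm_num, ?_⟩
        unfold lit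
        simp only [e 0 (by norm_num), e' 0 (by norm_num), hg]
        simpa using h
      · refine ⟨1, by norm_num, ?_⟩
        unfold lit
        simp only [e 1 (by norm_num), e' 1 (by norm_num), hg]
        simpa using h
      · refine ⟨2, by norm_num, ?_⟩
        unfold lit
        simp only [e 2 (by norm_num), e' 2 (by norm_num), hg]
        simpa using h
    choose p hp hpt using hex
    let f : Fin φ.length → Fin (3 * φ.length) := fun i => ⟨3 * i + p i, by
      have := hp i; have := i.2; omega⟩
    have hf : Function.Injective f := by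
      intro i j hij
      have := hp i
      have := hp j
      simp only [f, Fin.mk.injEq] at hij
      exact Fin.ext (by omega)
    refine ⟨Finset.univ.image f, ?_, ?_⟩
    · intro x hx y hy hne hadj
      simp only [Finset.coe_image, Finset.coe_univ, Set.image_univ, Set.mem_range] at hx hy
      obtain ⟨i, rfl⟩ := hx
      obtain ⟨j, rfl⟩ := hy
      have h2 := hadj.2
      unfold conf at h2
      simp only [Bool.or_eq_true, decide_eq_true_eq, Bool.and_eq_true] at h2
      rcases h2 with h2 | ⟨h2, h3⟩
      · have := hp i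
        have := hp j
        simp only [f] at h2
        exact hne (congrArg f (Fin.ext (by omega)))
      · have h4 := hpt i
        have h5 := hpt j
        simp only [f] at h2 h3
        rw [h2] at h4
        rw [h4] at h5
        rw [h5] at h3
        simp at h3
    · rw [Finset.card_image_of_injective _ hf]
      simp
  · rintro ⟨S, hS, hcard⟩
    have himage : S.image (fun x : Fin (3 * φ.length) => (x : ℕ) / 3) = Finset.range φ.length := by
      apply Finset.eq_of_subset_of_card_le
      · intro x hx
        rw [Finset.mem_image] at hx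
        obtain ⟨y, _, rfl⟩ := hx
        have := y.2
        rw [Finset.mem_range]
        omega
      · rw [Finset.card_image_of_injOn, Finset.card_range, hcard]
        intro x hx y hy hxy
        by_contra hne
        refine hS hx hy hne ⟨hne, ?_⟩
        simp only at hxy
        unfold conf
        simp [hxy]
    refine ⟨fun v => decide (∃ x ∈ S, lit φ x = (true, v)), ?_⟩
    intro c hc
    obtain ⟨j, hj, hjc⟩ := List.mem_iff_getElem.1 hc
    have hjm : j ∈ S.image (fun x : Fin (3 * φ.length) => (x : ℕ) / 3) := by
      rw [himage, Finset.mem_range]; exact hj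
    rw [Finset.mem_image] at hjm
    obtain ⟨x, hx, hxj⟩ := hjm
    have hg : φ.getD ((x : ℕ) / 3) ((true, 0), (true, 0), (true, 0)) = c := by
      rw [hxj, List.getD_eq_getElem _ _ hj, hjc]
    have key : ∀ l : Lit ℕ, lit φ x = l →
        (fun v => decide (∃ x ∈ S, lit φ x = (true, v))) l.2 = l.1 := by
      rintro ⟨b, v⟩ hl
      simp only
      cases b with
      | true => simp only [decide_eq_true_eq]; exact ⟨x, hx, hl⟩
      | false =>
        rw [decide_eq_false_iff_not]
        rintro ⟨y, hy, hl'⟩
        by_cases hne : x = y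
        · subst hne
          rw [hl] at hl'
          simp at hl'
        · refine hS hx hy hne ⟨hne, ?_⟩
          unfold conf
          simp [hl, hl']
    have h3 : (x : ℕ) % 3 = 0 ∨ (x : ℕ) % 3 = 1 ∨ (x : ℕ) % 3 = 2 := by omega
    rcases h3 with h | h | h
    · left
      refine key _ ?_
      unfold lit
      simp only [hg, h]
      simp
    · right; left
      refine key _ ?_
      unfold lit
      simp only [hg, h]
      simp
    · right; right
      refine key _ ?_
      unfold lit
      simp only [hg, h]
      simp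

/-- The instance `(G, k)` has no independent set with more than `k` vertices. -/
def Bounded (I : FinGraph × ℕ) : Prop :=
  ∀ S : Finset (Fin I.1.n), I.1.graph.IsIndepSet S → S.card ≤ I.2

/-- The instance `(G, k)` has an independent set with `k` vertices. -/
def HasIndep (I : FinGraph × ℕ) : Prop :=
  ∃ S : Finset (Fin I.1.n), I.1.graph.IsIndepSet S ∧ S.card = I.2

/-- The independent set problem is hard for instances with independence number at most `k`; here `3 k` is
the number of vertices. -/
theorem hardPr_indep : HardPr (fun I : FinGraph × ℕ => Bounded I ∧ I.1.n = 3 * I.2) HasIndep := by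
  refine HardPr.trans hardI_SAT3.toHardPr (f := fun φ : F3 =>
    ((⟨3 * φ.length, fgraph φ⟩ : FinGraph), φ.length)) ?_ ?_ ?_
  · exact Poly.pair poly_fgraph (Poly.length Poly.id)
  · intro φ _
    exact ⟨fun S hS => fgraph_card_le φ S hS, rfl⟩
  · intro φ _
    exact fgraph_sat φ

end Pool.Agent.NPC.R542
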