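import Pool.Agent.R542.CayMath

/-!
# Colourings of Cayley graphs of powers of a group that encode colourings of a graph
-/

set_option autoImplicit false

namespace Pool.Agent.NPC.R542.Cay

open Finset

section
variable {r a b : ℕ}

/-- first block of coordinates -/
def prY (w : Fin (a + 2 + b) → ZMod r) : Fin a → ZMod r :=
  fun i => w (Fin.castAdd b (Fin.castAdd 2 i))

/-- second block of coordinates -/
def prV (w : Fin (a + 2 + b) → ZMod r) : Fin 2 → ZMod r :=
  fun i => w (Fin.castAdd b (Fin.natAdd a i))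

/-- third block of coordinates -/
def prM (w : Fin (a + 2 + b) → ZMod r) : Fin b → ZMod r :=
  fun i => w (Fin.natAdd (a + 2) i)

theorem eq_zero_of_pr {w : Fin (a + 2 + b) → ZMod r} (h1 : prY w = 0) (h2 : prV w = 0)
    (h3 : prM w = 0) : w = 0 := by
  funext i
  refine Fin.addCases (fun j => ?_) (fun j => ?_) i
  · refine Fin.addCases (fun k => ?_) (fun k => ?_) j
    · exact congrFun h1 k
    · exact congrFun h2 k
  · exact congrFun h3 j

theorem prY_sub (w w' : Fin (a + 2 + b) → ZMod r) : prY (w' - w) = prY w' - prY w := rfl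
theorem prV_sub (w w' : Fin (a + 2 + b) → ZMod r) : prV (w' - w) = prV w' - prV w := rfl
theorem prM_sub (w w' : Fin (a + 2 + b) → ZMod r) : prM (w' - w) = prM w' - prM w := rfl

variable {P : Type} [Fintype P] [DecidableEq P]

/-- the vectors that are not in the connection set -/
def inD (x : P → Fin a → ZMod r) (e : P → P → Prop) (w : Fin (a + 2 + b) → ZMod r) : Prop :=
  prM w ≠ 0 ∧ ∃ p q, p ≠ q ∧ prY w = x q - x p ∧ (prV w ≠ 0 ∨ ¬ e p q)

/-- the connection set -/
def inC (x : P → Fin a → ZMod r) (e : P → P → Prop) (w : Fin (a + 2 + b) → ZMod r) : Prop :=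
  w ≠ 0 ∧ ¬ inD x e w

omit [Fintype P] [DecidableEq P] in
theorem inC_neg {x : P → Fin a → ZMod r} {e : P → P → Prop} (he : ∀ p q, e p q → e q p)
    {w : Fin (a + 2 + b) → ZMod r} (h : inC x e w) : inC x e (-w) := by
  refine ⟨neg_ne_zero.2 h.1, fun hD => h.2 ?_⟩
  obtain ⟨hM, p, q, hpq, hY, hV⟩ := hD
  refine ⟨fun h0 => hM ?_, q, p, hpq.symm, ?_, ?_⟩
  · funext i
    have := congrFun h0 i
    simp only [prM, Pi.neg_apply, Pi.zero_apply, neg_eq_zero] at this ⊢
    exact this
  · funext i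
    have := congrFun hY i
    simp only [prY, Pi.neg_apply, Pi.sub_apply] at this ⊢
    rw [← neg_sub, ← this, neg_neg]
  · rcases hV with hV | hV
    · left
      intro h0
      apply hV
      funext i
      have := congrFun h0 i
      simp only [prV, Pi.neg_apply, Pi.zero_apply, neg_eq_zero] at this ⊢
      exact this
    · right
      intro h'
      exact hV (he _ _ h')

theorem col_iff [Fact r.Prime] (x : P → Fin a → ZMod r) (e : P → P → Prop)
    (he : ∀ p q, e p q → e q p) (hcard : Fintype.card P = r ^ b) (hb : 8 ≤ r ^ b)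
    (hx : ∀ c : P → ZMod r, (univ.filter (fun p => c p ≠ 0)).card ≤ 6 → ∑ p, c p • x p = 0 → c = 0) :
    (∃ κ : (Fin (a + 2 + b) → ZMod r) → Fin (r ^ (a + 2)), ∀ w w', inC x e (w' - w) → κ w ≠ κ w') ↔
      ∃ u : P → Fin 2 → ZMod r, ∀ p q, p ≠ q → e p q → u p ≠ u q := by
  classical
  have hr0 : 0 < r := (Fact.out : r.Prime).pos
  haveI : NeZero r := ⟨hr0.ne'⟩
  constructor
  · rintro ⟨κ, hκ⟩
    obtain ⟨t, _, ht⟩ := Finset.exists_le_card_fiber_of_mul_le_card_of_maps_to
      (s := (univ : Finset (Fin (a + 2 + b) → ZMod r))) (t := (univ : Finset (Fin (r ^ (a + 2)))))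
      (f := κ) (n := r ^ b) (fun _ _ => Finset.mem_univ _)
      (by
        haveI : NeZero (r ^ (a + 2)) := ⟨by positivity⟩
        exact ⟨0, Finset.mem_univ _⟩)
      (by
        rw [Finset.card_univ, Finset.card_univ, Fintype.card_fin, Fintype.card_fun, ZMod.card,
          Fintype.card_fin, ← pow_add])
    let I := {w : Fin (a + 2 + b) → ZMod r // κ w = t}
    have hI : r ^ b ≤ Fintype.card I := by
      rw [Fintype.card_subtype]
      exact ht
    have hD : ∀ w w' : I, w ≠ w' → inD x e (w'.1 - w.1) := by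
      intro w w' hne
      by_contra hcon
      refine hκ w.1 w'.1 ⟨?_, hcon⟩ (w.2.trans w'.2.symm)
      rw [ne_eq, sub_eq_zero]
      exact fun h => hne (Subtype.ext h.symm)
    obtain ⟨σ, hσ, hσ'⟩ := clique (r := r) (I := I) x hx (fun w => prY w.1) (by
      intro w w' hne
      obtain ⟨_, p, q, hpq, hY, _⟩ := hD w w' hne
      exact ⟨p, q, hpq, hY⟩) (hb.trans hI)
    have hbij : Function.Bijective σ := by
      rw [Fintype.bijective_iff_injective_and_card]
      refine ⟨hσ, le_antisymm (Fintype.card_le_of_injective σ hσ) ?_⟩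
      rw [hcard]
      exact hI
    let E := Equiv.ofBijective σ hbij
    refine ⟨fun p => prV (E.symm p).1, ?_⟩
    intro p q hpq hepq heq
    have hne : E.symm p ≠ E.symm q := fun h => hpq (E.symm.injective h)
    obtain ⟨_, p', q', hpq', hY, hV⟩ := hD _ _ hne
    have hh := hσ' _ _ hne p' q' hpq' hY
    have e1 : σ (E.symm p) = p := E.apply_symm_apply p
    have e2 : σ (E.symm q) = q := E.apply_symm_apply q
    rw [e1, e2] at hh
    have hV0 : prV ((E.symm q).1 - (E.symm p).1) = 0 := by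
      rw [prV_sub, sub_eq_zero]
      exact heq.symm
    rcases hV with hV | hV
    · exact hV hV0
    · rcases hh with ⟨rfl, rfl⟩ | ⟨rfl, rfl⟩
      · exact hV hepq
      · exact hV (he _ _ hepq)
  · rintro ⟨u, hu⟩
    have hcB : Fintype.card (Fin b → ZMod r) = Fintype.card P := by
      rw [Fintype.card_fun, ZMod.card, Fintype.card_fin, hcard]
    let φ : (Fin b → ZMod r) ≃ P := Fintype.equivOfCardEq hcB
    have hcA : Fintype.card ((Fin a → ZMod r) × (Fin 2 → ZMod r)) = Fintype.card (Fin (r ^ (a + 2))) := by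
      rw [Fintype.card_prod, Fintype.card_fun, Fintype.card_fun, ZMod.card, Fintype.card_fin,
        Fintype.card_fin, Fintype.card_fin, pow_add]
    let ψ := Fintype.equivOfCardEq hcA
    refine ⟨fun w => ψ (prY w - x (φ (prM w)), prV w - u (φ (prM w))), ?_⟩
    rintro w w' ⟨hne, hnD⟩ heq
    have h1 := ψ.injective heq
    rw [Prod.mk.injEq] at h1
    obtain ⟨hY, hV⟩ := h1
    have hY' : prY (w' - w) = x (φ (prM w')) - x (φ (prM w)) := by
      rw [prY_sub, sub_eq_sub_iff_add_eq_add]
      have := sub_eq_sub_iff_add_eq_add.1 hY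
      rw [← this, add_comm]
    have hV' : prV (w' - w) = u (φ (prM w')) - u (φ (prM w)) := by
      rw [prV_sub, sub_eq_sub_iff_add_eq_add]
      have := sub_eq_sub_iff_add_eq_add.1 hV
      rw [← this, add_comm]
    by_cases hM : prM w = prM w'
    · apply hne
      apply eq_zero_of_pr
      · rw [hY', hM, sub_self]
      · rw [hV', hM, sub_self]
      · rw [prM_sub, hM, sub_self]
    · have hφ : φ (prM w) ≠ φ (prM w') := fun h => hM (φ.injective h)
      refine hnD ⟨?_, φ (prM w), φ (prM w'), hφ, hY', ?_⟩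
      · rw [prM_sub, ne_eq, sub_eq_zero]
        exact fun h => hM h.symm
      · by_cases hee : e (φ (prM w)) (φ (prM w'))
        · left
          rw [hV', ne_eq, sub_eq_zero]
          exact (hu _ _ hφ hee).symm
        · exact Or.inr hee

end

section
variable {G : Type} [Group G] {r n : ℕ}

theorem exists_zeta (ι : ZMod r → G) (hadd : ∀ z z', ι (z + z') = ι z * ι z')
    (hinj : Function.Injective ι) : ∃ ζ : G → ZMod r, ∀ g z, ζ (g * ι z) = ζ g + z := by
  classical
  have h0 : ι 0 = 1 := by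
    have := hadd 0 0
    rw [add_zero] at this
    exact (mul_eq_left.1 this.symm)
  let S : Subgroup G :=
    { carrier := Set.range ι
      mul_mem' := by
        rintro _ _ ⟨z, rfl⟩ ⟨z', rfl⟩
        exact ⟨z + z', hadd z z'⟩
      one_mem' := ⟨0, h0⟩
      inv_mem' := by
        rintro _ ⟨z, rfl⟩
        refine ⟨-z, ?_⟩
        rw [eq_inv_iff_mul_eq_one, ← hadd, neg_add_cancel, h0] }
  have hex : ∀ g : G, ∃ z : ZMod r, g = (QuotientGroup.mk g : G ⧸ S).out * ι z := by
    intro g
    obtain ⟨h, hh⟩ := QuotientGroup.mk_out_eq_mul S g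
    obtain ⟨z, hz⟩ := h.2
    refine ⟨-z, ?_⟩
    rw [hh, ← hz, mul_assoc, ← hadd, add_neg_cancel, h0, mul_one]
  choose ζ hζ using hex
  refine ⟨ζ, fun g z => hinj ?_⟩
  have hq : (QuotientGroup.mk (g * ι z) : G ⧸ S) = QuotientGroup.mk g := by
    rw [QuotientGroup.eq]
    refine ⟨-z, ?_⟩
    have hinv : ι (-z) = (ι z)⁻¹ := by
      rw [eq_inv_iff_mul_eq_one, ← hadd, neg_add_cancel, h0]
    rw [hinv, mul_inv_rev, mul_assoc, inv_mul_cancel, mul_one]
  have h1 := hζ (g * ι z)
  have h2 := hζ g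
  rw [hq] at h1
  rw [hadd]
  have h3 : (QuotientGroup.mk g : G ⧸ S).out * ι (ζ (g * ι z)) =
      (QuotientGroup.mk g : G ⧸ S).out * (ι (ζ g) * ι z) := by
    rw [← h1, ← mul_assoc, ← h2]
  exact mul_left_cancel h3

theorem lift_iff {T : Type} (ι : ZMod r → G) (hadd : ∀ z z', ι (z + z') = ι z * ι z')
    (hinj : Function.Injective ι) (C : (Fin n → ZMod r) → Prop) :
    (∃ κ : (Fin n → G) → T, ∀ h h', (∃ w, C w ∧ h⁻¹ * h' = fun i => ι (w i)) → κ h ≠ κ h') ↔
      ∃ κ : (Fin n → ZMod r) → T, ∀ w w', C (w' - w) → κ w ≠ κ w' := by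
  have h0 : ι 0 = 1 := by
    have := hadd 0 0
    rw [add_zero] at this
    exact (mul_eq_left.1 this.symm)
  constructor
  · rintro ⟨κ, hκ⟩
    refine ⟨fun w => κ (fun i => ι (w i)), fun w w' hC => hκ _ _ ⟨w' - w, hC, ?_⟩⟩
    funext i
    rw [Pi.mul_apply, Pi.inv_apply, inv_mul_eq_iff_eq_mul, ← hadd, Pi.sub_apply, add_sub_cancel]
  · rintro ⟨κ, hκ⟩
    obtain ⟨ζ, hζ⟩ := exists_zeta ι hadd hinj
    refine ⟨fun h => κ (fun i => ζ (h i)), ?_⟩
    rintro h h' ⟨w, hw, hh⟩
    apply hκ
    have : (fun i => ζ (h' i)) - (fun i => ζ (h i)) = w := by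
      funext i
      have h1 : h' i = h i * ι (w i) := by
        have := congrFun hh i
        simp only [Pi.mul_apply, Pi.inv_apply] at this
        rw [← this, mul_inv_cancel_left]
      rw [Pi.sub_apply, h1, hζ, add_sub_cancel_left]
    rw [this]
    exact hw

end

end Pool.Agent.NPC.R542.Cay
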