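import Pool.Agent.R542.CayMain

/-!
# Chromatic numbers of Cayley graphs of powers of a fixed group are hard to compute
-/

set_option autoImplicit false
set_option maxHeartbeats 1000000

namespace Pool.Agent.NPC.R542.Cay

open Pool.Agent.H692R2 Pool.Agent.H673R2

/-- The graph is a Cayley graph `X(G ^ n, C)`, `n ≥ 1`, of a direct power of the group `G`: the set
`C` does not contain the identity, it is closed under inverses, and for some numbering `e` of the
elements of `G ^ n` by the vertices, `i` and `j` are adjacent if and only if `(e i)⁻¹ * e j` is in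
`C`. -/
def IsCayleyPower (G : Type) [Group G] (X : FinGraph) : Prop :=
  ∃ (n : ℕ) (C : Set (Fin n → G)), 1 ≤ n ∧ 1 ∉ C ∧ (∀ c ∈ C, c⁻¹ ∈ C) ∧
    ∃ e : Fin X.n ≃ (Fin n → G), ∀ i j, X.graph.Adj i j ↔ (e i)⁻¹ * e j ∈ C

section
variable {G : Type} [Group G] {r : ℕ} (ι : ZMod r → G)

open Classical in
/-- exponent of an element of the cyclic group -/
noncomputable def code (g : G) : ℕ := if h : ∃ z, ι z = g then h.choose.val else r

theorem code_iota (hinj : Function.Injective ι) (z : ZMod r) : code ι (ι z) = z.val := by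
  have h : ∃ z', ι z' = ι z := ⟨z, rfl⟩
  rw [code, dif_pos h, hinj h.choose_spec]

theorem code_none {g : G} (h : ¬ ∃ z, ι z = g) : code ι g = r := by
  rw [code, dif_neg h]

variable {q : ℕ} (eG : Fin q ≃ G)

open Classical in
/-- exponents of the quotients of two elements -/
noncomputable def code2 (i j : ℕ) : ℕ :=
  if h : i < q ∧ j < q then code ι ((eG ⟨i, h.1⟩)⁻¹ * eG ⟨j, h.2⟩) else r

/-- the table of the exponents -/
noncomputable def tab : List ℕ := (List.range (q * q)).map fun k => code2 ι eG (k / q) (k % q)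

theorem tab_getD {i j : ℕ} (hi : i < q) (hj : j < q) :
    (tab ι eG).getD (i * q + j) r = code ι ((eG ⟨i, hi⟩)⁻¹ * eG ⟨j, hj⟩) := by
  have h1 : i * q + j < q * q := by
    have : i * q + q ≤ q * q := by
      rw [← Nat.succ_mul]
      exact Nat.mul_le_mul_right _ hi
    omega
  have h2 : i * q + j < (tab ι eG).length := by simpa [tab] using h1
  rw [List.getD_eq_getElem _ _ h2]
  simp only [tab, List.getElem_map, List.getElem_range]
  have h3 : (i * q + j) / q = i := by
    rw [mul_comm, Nat.mul_add_div (by omega), Nat.div_eq_of_lt hj, add_zero]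
  have h4 : (i * q + j) % q = j := by
    rw [mul_comm, Nat.mul_add_mod, Nat.mod_eq_of_lt hj]
  rw [h3, h4, code2, dif_pos ⟨hi, hj⟩]

/-- number of coordinates -/
def nn (E : List (ℕ × ℕ)) : ℕ := aa E + 2 + bb E

/-- exponents of the coordinates of a quotient -/
noncomputable def wl (E : List (ℕ × ℕ)) (s t : ℕ) : List ℕ :=
  (List.range (nn E)).map fun i => (tab ι eG).getD
    ((s / q ^ (min i (nn E)) % q) * q + (t / q ^ (min i (nn E)) % q)) r

/-- numbering of the elements of the power -/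
noncomputable def eN (E : List (ℕ × ℕ)) : Fin (q ^ nn E) ≃ (Fin (nn E) → G) :=
  finFunctionFinEquiv.symm.trans (Equiv.arrowCongr (Equiv.refl _) eG)

theorem eN_apply (E : List (ℕ × ℕ)) (s : Fin (q ^ nn E)) (i : Fin (nn E))
    (h : (s : ℕ) / q ^ (i : ℕ) % q < q) : eN eG E s i = eG ⟨(s : ℕ) / q ^ (i : ℕ) % q, h⟩ := rfl

theorem wl_getElem (hq : 0 < q) (E : List (ℕ × ℕ)) (s t : Fin (q ^ nn E)) (i : Fin (nn E))
    (h : (i : ℕ) < (wl ι eG E s t).length) :
    (wl ι eG E s t)[(i : ℕ)] = code ι ((eN eG E s i)⁻¹ * eN eG E t i) := by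
  simp only [wl, List.getElem_map, List.getElem_range, Nat.min_eq_left i.2.le]
  rw [tab_getD ι eG (Nat.mod_lt _ hq) (Nat.mod_lt _ hq)]
  rfl

theorem wl_length (E : List (ℕ × ℕ)) (s t : ℕ) : (wl ι eG E s t).length = nn E := by
  simp [wl]

/-- the connection set -/
def CS (E : List (ℕ × ℕ)) : Set (Fin (nn E) → G) :=
  {h | ∃ W : Fin (aa E + 2 + bb E) → ZMod r, inC (xv r E) (ev r E) W ∧ h = fun i => ι (W i)}

theorem wl_test [Fact r.Prime] (hinj : Function.Injective ι) (hq : 0 < q)
    (E : List (ℕ × ℕ)) (s t : Fin (q ^ nn E)) :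
    (eN eG E s)⁻¹ * eN eG E t ∈ CS ι E ↔ ctest r E (wl ι eG E s t) = true := by
  have hr : 0 < r := (Fact.out : r.Prime).pos
  haveI : NeZero r := ⟨hr.ne'⟩
  by_cases hex : ∀ i, ∃ z, ι z = (eN eG E s i)⁻¹ * eN eG E t i
  · choose W hW using hex
    have hwl : wl ι eG E s t = ofVec (a := nn E) W := by
      apply List.ext_getElem
      · rw [wl_length]; simp [ofVec]
      · intro i h1 h2
        have hi : i < nn E := by rw [wl_length] at h1; exact h1
        rw [wl_getElem ι eG hq E s t ⟨i, hi⟩ h1, ← hW, code_iota ι hinj]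
        simp [ofVec]
    rw [hwl]
    change _ ↔ ctest r E (ofVec (a := aa E + 2 + bb E) W) = true
    rw [ctest_iff]
    constructor
    · rintro ⟨W', hC, heq⟩
      have : W' = W := by
        funext i
        apply hinj
        rw [hW]
        exact (congrFun heq i).symm
      exact this ▸ hC
    · intro hC
      refine ⟨W, hC, ?_⟩
      funext i
      exact (hW i).symm
  · push Not at hex
    obtain ⟨i, hi⟩ := hex
    constructor
    · rintro ⟨W', _, heq⟩
      exact absurd (congrFun heq i).symm (hi (W' i))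
    · intro h
      exfalso
      unfold ctest at h
      rw [Bool.and_eq_true, List.all_eq_true] at h
      have h1 : (i : ℕ) < (wl ι eG E s t).length := by rw [wl_length]; exact i.2
      have h2 := h.1 _ (List.getElem_mem h1)
      rw [wl_getElem ι eG hq E s t i h1, code_none ι (by
        rintro ⟨z, hz⟩
        exact hi z hz)] at h2
      simp at h2

/-- the graph -/
def cgraph [Fact r.Prime] (hadd : ∀ z z', ι (z + z') = ι z * ι z')
    (hinj : Function.Injective ι) (E : List (ℕ × ℕ)) : SimpleGraph (Fin (q ^ nn E)) where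
  Adj s t := (eN eG E s)⁻¹ * eN eG E t ∈ CS ι E
  symm := ⟨by
    rintro s t ⟨W, hC, heq⟩
    refine ⟨-W, inC_neg (ev_symm r E) hC, ?_⟩
    have h0 : ι 0 = 1 := by
      have := hadd 0 0
      rw [add_zero] at this
      exact (mul_eq_left.1 this.symm)
    funext i
    have h1 := congrFun heq i
    simp only [Pi.mul_apply, Pi.inv_apply] at h1 ⊢
    have h2 : ι (-W i) = (ι (W i))⁻¹ := by
      rw [eq_inv_iff_mul_eq_one, ← hadd, neg_add_cancel, h0]
    rw [Pi.neg_apply, h2, ← h1, mul_inv_rev, inv_inv]⟩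
  loopless := ⟨by
    rintro s ⟨W, hC, heq⟩
    have h0 : ι 0 = 1 := by
      have := hadd 0 0
      rw [add_zero] at this
      exact (mul_eq_left.1 this.symm)
    apply hC.1
    funext i
    apply hinj
    have h1 := congrFun heq i
    simp only [Pi.mul_apply, Pi.inv_apply, inv_mul_cancel] at h1
    rw [← h1, Pi.zero_apply, h0]⟩

theorem isCayley [Fact r.Prime] (hadd : ∀ z z', ι (z + z') = ι z * ι z')
    (hinj : Function.Injective ι) (E : List (ℕ × ℕ)) :
    IsCayleyPower G ⟨q ^ nn E, cgraph ι eG hadd hinj E⟩ := by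
  have h0 : ι 0 = 1 := by
    have := hadd 0 0
    rw [add_zero] at this
    exact (mul_eq_left.1 this.symm)
  refine ⟨nn E, CS ι E, ?_, ?_, ?_, eN eG E, fun i j => Iff.rfl⟩
  · unfold nn; omega
  · rintro ⟨W, hC, heq⟩
    apply hC.1
    funext i
    apply hinj
    rw [← congrFun heq i, Pi.zero_apply, h0]
    rfl
  · rintro c ⟨W, hC, rfl⟩
    refine ⟨-W, inC_neg (ev_symm r E) hC, ?_⟩
    funext i
    have h2 : ι (-W i) = (ι (W i))⁻¹ := by
      rw [eq_inv_iff_mul_eq_one, ← hadd, neg_add_cancel, h0]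
    rw [Pi.neg_apply, h2]
    rfl

omit [Group G] in
theorem upoly_nn : UPoly nn := UPoly.add (UPoly.add (upoly_lin 5 11) (UPoly.const 2)) upoly_bb

theorem poly_wl {α : Type} [TEnc α] {E : α → List (ℕ × ℕ)} {s t : α → ℕ} (hE : Poly E)
    (hs : Poly s) (ht : Poly t) : Poly (fun x => wl ι eG (E x) (s x) (t x)) := by
  have hn' : UPoly (fun x => nn (E x)) := UPoly.comp upoly_nn hE
  have e1 : Poly (fun z : α × ℕ => s z.1) := hs.comp (Poly.fst Poly.id)
  have e2 : Poly (fun z : α × ℕ => t z.1) := ht.comp (Poly.fst Poly.id)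
  have e3 : UPoly (fun z : α × ℕ => nn (E z.1)) := hn'.comp (Poly.fst Poly.id)
  have e4 : Poly (fun z : α × ℕ => q ^ (min z.2 (nn (E z.1)))) :=
    poly_pow q (upoly_min (Poly.snd Poly.id) e3)
  have e5 : Poly (fun z : α × ℕ => (s z.1 / q ^ (min z.2 (nn (E z.1))) % q) * q +
      (t z.1 / q ^ (min z.2 (nn (E z.1))) % q)) :=
    Poly.add (Poly.mul (Poly.mod (Poly.div e1 e4) (Poly.const q)) (Poly.const q))
      (Poly.mod (Poly.div e2 e4) (Poly.const q))
  have e6 : Poly (fun z : α × ℕ => (tab ι eG).getD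
      ((s z.1 / q ^ (min z.2 (nn (E z.1))) % q) * q +
        (t z.1 / q ^ (min z.2 (nn (E z.1))) % q)) r) :=
    Poly.getD (Poly.const (tab ι eG)) e5 (Poly.const r)
  have e7 := Poly.map (F := fun x i => (tab ι eG).getD
      ((s x / q ^ (min i (nn (E x))) % q) * q + (t x / q ^ (min i (nn (E x))) % q)) r) hn'.range e6
  unfold wl
  exact e7

theorem poly_cgraph [Fact r.Prime] (hadd : ∀ z z', ι (z + z') = ι z * ι z')
    (hinj : Function.Injective ι) (hq : 0 < q) :
    Poly (fun E : List (ℕ × ℕ) => (⟨q ^ nn E, cgraph ι eG hadd hinj E⟩ : FinGraph)) := by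
  have hr : 0 < r := (Fact.out : r.Prime).pos
  have hN : UPoly (fun E => q ^ nn E) := by
    have h1 : (fun E => q ^ nn E) = fun E => q ^ (6 * bb E + 13) := by
      funext E
      congr 1
      unfold nn aa
      ring
    rw [h1]
    exact upoly_pow q 6 13
  refine poly_finGraph (b := fun E s t => ctest r E (wl ι eG E s t)) hN ?_ ?_
  · have hE : Poly (fun p : (List (ℕ × ℕ) × ℕ) × ℕ => p.1.1) := Poly.fst (Poly.fst Poly.id)
    have e1 : Poly (fun p : (List (ℕ × ℕ) × ℕ) × ℕ => p.1.2) := Poly.snd (Poly.fst Poly.id)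
    have e2 : Poly (fun p : (List (ℕ × ℕ) × ℕ) × ℕ => p.2) := Poly.snd Poly.id
    have e3 : Poly (fun p : (List (ℕ × ℕ) × ℕ) × ℕ => wl ι eG p.1.1 p.1.2 p.2) :=
      poly_wl ι eG hE e1 e2
    exact poly_ctest r hr hE e3
  · intro E s t
    exact wl_test ι eG hinj hq E s t

theorem colorable_iff [Fact r.Prime] (hadd : ∀ z z', ι (z + z') = ι z * ι z')
    (hinj : Function.Injective ι) (E : List (ℕ × ℕ)) (k : ℕ) :
    (cgraph ι eG hadd hinj E).Colorable k ↔ ∃ κ : (Fin (nn E) → G) → Fin k, ∀ h h',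
      (∃ W, inC (xv r E) (ev r E) W ∧ h⁻¹ * h' = fun i => ι (W i)) → κ h ≠ κ h' := by
  constructor
  · rintro ⟨c⟩
    refine ⟨fun h => c ((eN eG E).symm h), fun h h' hh => c.valid ?_⟩
    change (eN eG E _)⁻¹ * eN eG E _ ∈ CS ι E
    rw [Equiv.apply_symm_apply, Equiv.apply_symm_apply]
    exact hh
  · rintro ⟨κ, hκ⟩
    exact ⟨SimpleGraph.Coloring.mk (fun s => κ (eN eG E s)) fun {s t} hst => hκ _ _ hst⟩

end

/-- **Hardness for every group.** -/
theorem final (G : Type) [Group G] [Fintype G] (hG : 2 ≤ Fintype.card G) :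
    NPHardOn (fun I : FinGraph × ℕ => IsCayleyPower G I.1)
      (fun I => I.1.graph.Colorable I.2) := by
  classical
  set r := (Fintype.card G).minFac with hrdef
  have hrp : r.Prime := Nat.minFac_prime (by omega)
  haveI : Fact r.Prime := ⟨hrp⟩
  haveI : NeZero r := ⟨hrp.pos.ne'⟩
  obtain ⟨g, hg⟩ := exists_prime_orderOf_dvd_card r (Nat.minFac_dvd (Fintype.card G))
  let ι : ZMod r → G := fun z => g ^ z.val
  have hadd : ∀ z z', ι (z + z') = ι z * ι z' := by
    intro z z'
    simp only [ι]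
    rw [ZMod.val_add, ← pow_add]
    have hmod : ∀ m : ℕ, g ^ (m % r) = g ^ m := by
      intro m
      have := pow_mod_orderOf g m
      rwa [hg] at this
    exact hmod _
  have hinj : Function.Injective ι := by
    intro z z' h
    apply ZMod.val_injective r
    refine pow_injOn_Iio_orderOf ?_ ?_ h
    · rw [Set.mem_Iio, hg]; exact ZMod.val_lt _
    · rw [Set.mem_Iio, hg]; exact ZMod.val_lt _
  let eG : Fin (Fintype.card G) ≃ G := (Fintype.equivFin G).symm
  have hk : 3 ≤ r ^ 2 := by
    have := hrp.two_le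
    nlinarith
  refine npHardOn_of (hardPr_small (r ^ 2) hk)
    (f := fun E => ((⟨Fintype.card G ^ nn E, cgraph ι eG hadd hinj E⟩ : FinGraph),
      r ^ (aa E + 2))) ?_ ?_ ?_
  · refine Poly.pair (poly_cgraph ι eG hadd hinj (by omega)) ?_
    exact poly_pow r (UPoly.add (upoly_lin 5 11) (UPoly.const 2))
  · intro E _
    exact isCayley ι eG hadd hinj E
  · intro E hE
    rw [main_iff r E hE]
    simp only
    rw [colorable_iff ι eG hadd hinj E]
    exact (lift_iff ι hadd hinj _).symm

end Pool.Agent.NPC.R542.Cay
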