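import Pool.Agent.R542.Base

/-!
# A greedy choice of vectors over a prime field, any six of which are independent
-/

set_option autoImplicit false

namespace Pool.Agent.NPC.R542.Cay

open Finset

/-! ### Vectors as lists -/

/-- a vector, as a function -/
def toVec (r a : ℕ) (l : List ℕ) : Fin a → ZMod r := fun i => ((l.getD i 0 : ℕ) : ZMod r)

/-- well-formed lists -/
def WF (r a : ℕ) (l : List ℕ) : Prop := l.length = a ∧ ∀ x ∈ l, x < r

theorem toVec_inj {r a : ℕ} {l l' : List ℕ} (h : WF r a l) (h' : WF r a l')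
    (he : toVec r a l = toVec r a l') : l = l' := by
  apply List.ext_getElem (h.1.trans h'.1.symm)
  intro i hi hi'
  have hi2 : i < a := h.1 ▸ hi
  have := congrFun he ⟨i, hi2⟩
  simp only [toVec, List.getD_eq_getElem _ _ hi, List.getD_eq_getElem _ _ hi'] at this
  rw [ZMod.natCast_eq_natCast_iff, Nat.ModEq, Nat.mod_eq_of_lt (h.2 _ (List.getElem_mem hi)),
    Nat.mod_eq_of_lt (h'.2 _ (List.getElem_mem hi'))] at this
  exact this

/-- the list of a vector -/
def ofVec {r a : ℕ} (v : Fin a → ZMod r) : List ℕ := List.ofFn fun i => (v i).val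

theorem ofVec_wf {r a : ℕ} [NeZero r] (v : Fin a → ZMod r) : WF r a (ofVec v) := by
  refine ⟨by simp [ofVec], ?_⟩
  intro x hx
  simp only [ofVec, List.mem_ofFn] at hx
  obtain ⟨i, rfl⟩ := hx
  exact ZMod.val_lt _

theorem toVec_ofVec {r a : ℕ} [NeZero r] (v : Fin a → ZMod r) : toVec r a (ofVec v) = v := by
  funext i
  simp [toVec, ofVec]

/-- addition -/
def vadd (r : ℕ) (u v : List ℕ) : List ℕ := (u.zip v).map fun p => (p.1 + p.2) % r

/-- multiplication by a scalar -/
def vsmul (r c : ℕ) (u : List ℕ) : List ℕ := u.map fun x => c * x % r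

theorem vadd_wf {r a : ℕ} (hr : 0 < r) {u v : List ℕ} (hu : WF r a u) (hv : WF r a v) :
    WF r a (vadd r u v) := by
  refine ⟨by simp [vadd, hu.1, hv.1], ?_⟩
  intro x hx
  simp only [vadd, List.mem_map] at hx
  obtain ⟨p, _, rfl⟩ := hx
  exact Nat.mod_lt _ hr

theorem vsmul_wf {r a : ℕ} (hr : 0 < r) (c : ℕ) {u : List ℕ} (hu : WF r a u) :
    WF r a (vsmul r c u) := by
  refine ⟨by simp [vsmul, hu.1], ?_⟩
  intro x hx
  simp only [vsmul, List.mem_map] at hx
  obtain ⟨p, _, rfl⟩ := hx
  exact Nat.mod_lt _ hr

theorem toVec_vadd {r a : ℕ} {u v : List ℕ} (hu : WF r a u) (hv : WF r a v) :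
    toVec r a (vadd r u v) = toVec r a u + toVec r a v := by
  funext i
  have h1 : (i : ℕ) < u.length := hu.1 ▸ i.2
  have h2 : (i : ℕ) < v.length := hv.1 ▸ i.2
  have h3 : (i : ℕ) < (vadd r u v).length := by simp [vadd, h1, h2]
  simp only [toVec, Pi.add_apply, List.getD_eq_getElem _ _ h1, List.getD_eq_getElem _ _ h2,
    List.getD_eq_getElem _ _ h3]
  simp [vadd]

theorem toVec_vsmul {r a : ℕ} (c : ℕ) {u : List ℕ} (hu : WF r a u) :
    toVec r a (vsmul r c u) = (c : ZMod r) • toVec r a u := by
  funext i
  have h1 : (i : ℕ) < u.length := hu.1 ▸ i.2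
  have h3 : (i : ℕ) < (vsmul r c u).length := by simp [vsmul, h1]
  simp only [toVec, Pi.smul_apply, List.getD_eq_getElem _ _ h1, List.getD_eq_getElem _ _ h3]
  simp [vsmul]

/-- the zero vector -/
def vzero (a : ℕ) : List ℕ := (List.range a).map fun _ => 0

theorem vzero_wf {r : ℕ} (hr : 0 < r) (a : ℕ) : WF r a (vzero a) := by
  refine ⟨by simp [vzero], ?_⟩
  intro x hx
  simp only [vzero, List.mem_map] at hx
  obtain ⟨p, _, rfl⟩ := hx
  exact hr

theorem toVec_vzero (r a : ℕ) : toVec r a (vzero a) = 0 := by
  funext i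
  have h3 : (i : ℕ) < (vzero a).length := by simp [vzero]
  simp only [toVec, List.getD_eq_getElem _ _ h3]
  simp [vzero]

/-- digits -/
def dig (q n t : ℕ) : List ℕ := (List.range n).map fun i => t / q ^ (min i n) % q

theorem dig_length (q n t : ℕ) : (dig q n t).length = n := by simp [dig]

theorem dig_getElem (q n t i : ℕ) (hi : i < (dig q n t).length) :
    (dig q n t)[i] = t / q ^ i % q := by
  have : i < n := by simpa [dig] using hi
  simp [dig, Nat.min_eq_left this.le]

/-- all vectors -/
def allv (r a : ℕ) : List (List ℕ) := (List.range (r ^ a)).map fun t => dig r a t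

theorem allv_wf {r a : ℕ} (hr : 0 < r) {l : List ℕ} (h : l ∈ allv r a) : WF r a l := by
  simp only [allv, List.mem_map] at h
  obtain ⟨t, _, rfl⟩ := h
  refine ⟨dig_length _ _ _, ?_⟩
  intro x hx
  simp only [dig, List.mem_map] at hx
  obtain ⟨i, _, rfl⟩ := hx
  exact Nat.mod_lt _ hr

theorem mem_allv {r a : ℕ} {l : List ℕ} (h : WF r a l) : l ∈ allv r a := by
  have hr : ∀ x ∈ l, x < r := h.2
  let f : Fin a → Fin r := fun i => ⟨l[i]'(by rw [h.1]; exact i.2), hr _ (List.getElem_mem _)⟩
  refine List.mem_map.2 ⟨(finFunctionFinEquiv f : ℕ), List.mem_range.2 (Fin.is_lt _), ?_⟩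
  apply List.ext_getElem ((dig_length _ _ _).trans h.1.symm)
  intro i hi hi'
  rw [dig_getElem]
  have hia : i < a := h.1 ▸ hi'
  have h1 : (finFunctionFinEquiv.symm (finFunctionFinEquiv f)) ⟨i, hia⟩ = f ⟨i, hia⟩ := by
    rw [Equiv.symm_apply_apply]
  have h2 := congrArg Fin.val h1
  exact h2

/-- sums of lists of vectors -/
def ssum (r : ℕ) (s t : List (List ℕ)) : List (List ℕ) :=
  s.flatMap fun u => t.map fun v => vadd r u v

/-- zero and the multiples of the given vectors -/
def scal (r a : ℕ) (L : List (List ℕ)) : List (List ℕ) :=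
  vzero a :: L.flatMap fun l => (List.range r).map fun c => vsmul r c l

/-- `k`-fold sums -/
def badk (r a : ℕ) (L : List (List ℕ)) : ℕ → List (List ℕ)
  | 0 => [vzero a]
  | k + 1 => ssum r (scal r a L) (badk r a L k)

/-- a vector is not in the list -/
def notIn (l : List (List ℕ)) (z : List ℕ) : Bool := l.all fun u => !decide (u = z)

theorem notIn_iff (l : List (List ℕ)) (z : List ℕ) : notIn l z = true ↔ z ∉ l := by
  simp only [notIn, List.all_eq_true, Bool.not_eq_true', decide_eq_false_iff_not]
  constructor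
  · intro h hz
    exact h z hz rfl
  · rintro h u hu rfl
    exact h hu

/-- the next vector -/
def pick (r a : ℕ) (L : List (List ℕ)) : List ℕ :=
  (((allv r a).filter fun z => notIn (badk r a L 5) z).head?).getD (vzero a)

/-- the chosen vectors -/
def greedy (r a k : ℕ) : List (List ℕ) := (fun L => L ++ [pick r a L])^[k] []

theorem scal_wf {r a : ℕ} (hr : 0 < r) {L : List (List ℕ)} (hL : ∀ l ∈ L, WF r a l) :
    ∀ l ∈ scal r a L, WF r a l := by
  intro l hl
  simp only [scal, List.mem_cons, List.mem_flatMap, List.mem_map] at hl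
  rcases hl with rfl | ⟨u, hu, c, _, rfl⟩
  · exact vzero_wf hr a
  · exact vsmul_wf hr c (hL u hu)

theorem badk_wf {r a : ℕ} (hr : 0 < r) {L : List (List ℕ)} (hL : ∀ l ∈ L, WF r a l) (k : ℕ) :
    ∀ l ∈ badk r a L k, WF r a l := by
  induction k with
  | zero =>
    intro l hl
    simp only [badk, List.mem_singleton] at hl
    exact hl ▸ vzero_wf hr a
  | succ k ih =>
    intro l hl
    simp only [badk, ssum, List.mem_flatMap, List.mem_map] at hl
    obtain ⟨u, hu, v, hv, rfl⟩ := hl
    exact vadd_wf hr (scal_wf hr hL u hu) (ih v hv)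

theorem scal_length {r a : ℕ} (L : List (List ℕ)) : (scal r a L).length = 1 + r * L.length := by
  simp [scal, List.length_flatMap]
  ring

theorem badk_length {r a : ℕ} (L : List (List ℕ)) (k : ℕ) :
    (badk r a L k).length = (1 + r * L.length) ^ k := by
  induction k with
  | zero => simp [badk]
  | succ k ih =>
    simp only [badk, ssum, List.length_flatMap, List.length_map, ih, List.map_const',
      List.sum_replicate, scal_length, smul_eq_mul]
    ring

theorem pick_wf {r a : ℕ} (hr : 0 < r) (L : List (List ℕ)) : WF r a (pick r a L) := by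
  unfold pick
  cases h : ((allv r a).filter fun z => notIn (badk r a L 5) z).head? with
  | none => exact vzero_wf hr a
  | some z =>
    have := List.mem_of_mem_head? (Option.mem_def.2 h)
    rw [List.mem_filter] at this
    exact allv_wf hr this.1

theorem pick_notMem {r a : ℕ} (hr : 0 < r) (L : List (List ℕ))
    (hlen : (1 + r * L.length) ^ 5 < r ^ a) : pick r a L ∉ badk r a L 5 := by
  unfold pick
  cases h : ((allv r a).filter fun z => notIn (badk r a L 5) z).head? with
  | some z =>
    have := List.mem_of_mem_head? (Option.mem_def.2 h)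
    rw [List.mem_filter] at this
    exact (notIn_iff _ _).1 this.2
  | none =>
    exfalso
    rw [List.head?_eq_none_iff, List.filter_eq_nil_iff] at h
    haveI : NeZero r := ⟨hr.ne'⟩
    have h1 : (Finset.univ.image (fun v : Fin a → ZMod r => ofVec v)) ⊆
        (badk r a L 5).toFinset := by
      intro l hl
      rw [Finset.mem_image] at hl
      obtain ⟨v, _, rfl⟩ := hl
      have := h _ (mem_allv (ofVec_wf v))
      rw [List.mem_toFinset]
      by_contra hcon
      exact this ((notIn_iff _ _).2 hcon)
    have h2 := Finset.card_le_card h1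
    rw [Finset.card_image_of_injective] at h2
    · have h3 := List.toFinset_card_le (badk r a L 5)
      rw [badk_length] at h3
      rw [Finset.card_univ, Fintype.card_fun, ZMod.card, Fintype.card_fin] at h2
      omega
    · intro v v' hv
      have hv' : ofVec v = ofVec v' := hv
      rw [← toVec_ofVec v, ← toVec_ofVec v', hv']

theorem greedy_succ (r a k : ℕ) : greedy r a (k + 1) = greedy r a k ++ [pick r a (greedy r a k)] := by
  unfold greedy
  rw [Function.iterate_succ_apply']

theorem greedy_length (r a k : ℕ) : (greedy r a k).length = k := by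
  induction k with
  | zero => rfl
  | succ k ih => rw [greedy_succ, List.length_append, ih]; rfl

theorem greedy_wf {r a : ℕ} (hr : 0 < r) (k : ℕ) : ∀ l ∈ greedy r a k, WF r a l := by
  induction k with
  | zero => intro l hl; simp [greedy] at hl
  | succ k ih =>
    intro l hl
    rw [greedy_succ, List.mem_append, List.mem_singleton] at hl
    rcases hl with hl | rfl
    · exact ih l hl
    · exact pick_wf hr _

theorem greedy_prefix (r a : ℕ) {k m : ℕ} (h : k ≤ m) : greedy r a k <+: greedy r a m := by
  induction m, h using Nat.le_induction with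
  | base => exact List.prefix_refl _
  | succ m _ ih =>
    rw [greedy_succ]
    exact ih.trans (List.prefix_append _ _)

theorem greedy_getElem {r a k m : ℕ} (h : k < m) (hk : k < (greedy r a m).length) :
    (greedy r a m)[k] = pick r a (greedy r a k) := by
  have h1 := greedy_prefix r a (k := k + 1) (m := m) h
  have hk' : k < (greedy r a (k + 1)).length := by rw [greedy_length]; omega
  rw [← h1.getElem hk']
  have : ∀ (l : List (List ℕ)) (z : List ℕ) (hl : l.length = k) (h : k < (l ++ [z]).length),
      (l ++ [z])[k] = z := by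
    intro l z hl h
    subst hl
    simp
  simp only [greedy_succ]
  exact this _ _ (greedy_length _ _ _) _

/-- The chosen vectors are independent, six at a time. -/
theorem greedy_indep {r a M : ℕ} [Fact r.Prime] (hM : (r * M) ^ 5 < r ^ a)
    (c : Fin M → ZMod r) (hc : (Finset.univ.filter (fun p => c p ≠ 0)).card ≤ 6)
    (hsum : ∑ p : Fin M, c p • toVec r a ((greedy r a M).getD p []) = 0) : c = 0 := by
  classical
  have hr : 0 < r := (Fact.out : r.Prime).pos
  haveI : NeZero r := ⟨hr.ne'⟩
  by_contra hne
  set x : Fin M → Fin a → ZMod r := fun p => toVec r a ((greedy r a M).getD p []) with hx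
  have hS : (Finset.univ.filter (fun p => c p ≠ 0)).Nonempty := by
    by_contra h
    rw [Finset.not_nonempty_iff_eq_empty, Finset.filter_eq_empty_iff] at h
    apply hne
    funext p
    have := h (Finset.mem_univ p)
    simpa using this
  set S := Finset.univ.filter (fun p => c p ≠ 0)
  let p := S.max' hS
  have hpS : p ∈ S := Finset.max'_mem _ _
  have hcp : c p ≠ 0 := (Finset.mem_filter.1 hpS).2
  -- elements of the list
  have hgetD : ∀ q : Fin M, (greedy r a M).getD q [] = pick r a (greedy r a q) := by
    intro q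
    have hq : (q : ℕ) < (greedy r a M).length := by rw [greedy_length]; exact q.2
    rw [List.getD_eq_getElem _ _ hq, greedy_getElem q.2]
  have hmem : ∀ q : Fin M, q < p → pick r a (greedy r a q) ∈ greedy r a p := by
    intro q hq
    have h1 : (q : ℕ) < (greedy r a p).length := by rw [greedy_length]; exact hq
    rw [← greedy_getElem (r := r) (a := a) (k := q) (m := p) hq h1]
    exact List.getElem_mem h1
  -- sums of few multiples
  have key : ∀ (k : ℕ) (T : Finset (Fin M)) (d : Fin M → ZMod r), T.card ≤ k → (∀ q ∈ T, q < p) →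
      ∃ l ∈ badk r a (greedy r a p) k, toVec r a l = ∑ q ∈ T, d q • x q := by
    intro k
    induction k with
    | zero =>
      intro T d hT _
      have : T = ∅ := Finset.card_eq_zero.1 (Nat.le_zero.1 hT)
      subst this
      exact ⟨vzero a, by simp [badk], by rw [toVec_vzero, Finset.sum_empty]⟩
    | succ k ih =>
      intro T d hT hlt
      rcases T.eq_empty_or_nonempty with rfl | ⟨q, hq⟩
      · obtain ⟨l, hl, hl'⟩ := ih ∅ d (by simp) (by simp)
        refine ⟨vadd r (vzero a) l, ?_, ?_⟩
        · simp only [badk, ssum, List.mem_flatMap, List.mem_map]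
          exact ⟨vzero a, by simp [scal], l, hl, rfl⟩
        · rw [toVec_vadd (vzero_wf hr a) (badk_wf hr (greedy_wf hr _) k l hl), toVec_vzero, zero_add,
            hl']
      · obtain ⟨l, hl, hl'⟩ := ih (T.erase q) d (by
          rw [Finset.card_erase_of_mem hq]; omega) (fun s hs => hlt s (Finset.mem_of_mem_erase hs))
        have hw : WF r a (pick r a (greedy r a q)) := pick_wf hr _
        refine ⟨vadd r (vsmul r (d q).val (pick r a (greedy r a q))) l, ?_, ?_⟩
        · simp only [badk, ssum, List.mem_flatMap, List.mem_map]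
          refine ⟨_, ?_, l, hl, rfl⟩
          simp only [scal, List.mem_cons, List.mem_flatMap, List.mem_map]
          exact Or.inr ⟨_, hmem q (hlt q hq), (d q).val, List.mem_range.2 (ZMod.val_lt _), rfl⟩
        · rw [toVec_vadd (vsmul_wf hr _ hw) (badk_wf hr (greedy_wf hr _) k l hl), toVec_vsmul _ hw,
            hl', ZMod.natCast_val, ZMod.cast_id', id, ← Finset.add_sum_erase T _ hq]
          simp only [hx, hgetD]
  have hsumS : ∑ q ∈ S, c q • x q = 0 := by
    rw [← hsum]
    refine Finset.sum_subset (Finset.subset_univ _) ?_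
    intro q _ hq
    have : c q = 0 := by
      by_contra h
      exact hq (Finset.mem_filter.2 ⟨Finset.mem_univ _, h⟩)
    rw [this, zero_smul]
  rw [← Finset.add_sum_erase S _ hpS] at hsumS
  obtain ⟨l, hl, hl'⟩ := key 5 (S.erase p) (fun q => -(c p)⁻¹ * c q) (by
    rw [Finset.card_erase_of_mem hpS]; omega) (by
    intro q hq
    exact lt_of_le_of_ne (Finset.le_max' _ _ (Finset.mem_of_mem_erase hq))
      (Finset.ne_of_mem_erase hq))
  have hxp : x p = ∑ q ∈ S.erase p, (-(c p)⁻¹ * c q) • x q := by
    have h1 : ∑ q ∈ S.erase p, (-(c p)⁻¹ * c q) • x q =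
        -(c p)⁻¹ • ∑ q ∈ S.erase p, c q • x q := by
      rw [Finset.smul_sum]
      exact Finset.sum_congr rfl fun q _ => by rw [mul_smul]
    have h2 : ∑ q ∈ S.erase p, c q • x q = -(c p • x p) := by
      rw [eq_neg_iff_add_eq_zero, add_comm]
      exact hsumS
    rw [h1, h2, neg_smul, smul_neg, neg_neg, smul_smul, inv_mul_cancel₀ hcp, one_smul]
  have hlt : (1 + r * (greedy r a p).length) ^ 5 < r ^ a := by
    rw [greedy_length]
    refine lt_of_le_of_lt (Nat.pow_le_pow_left ?_ 5) hM
    have := p.2
    have h2 : r * ((p : ℕ) + 1) ≤ r * M := Nat.mul_le_mul_left _ this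
    rw [mul_add, mul_one] at h2
    omega
  have hnot := pick_notMem (a := a) hr (greedy r a p) hlt
  apply hnot
  have : pick r a (greedy r a p) = l := by
    apply toVec_inj (pick_wf hr _) (badk_wf hr (greedy_wf hr _) 5 l hl)
    rw [hl', ← hxp]
    simp only [hx, hgetD]
  rw [this]
  exact hl

end Pool.Agent.NPC.R542.Cay
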