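import Pool.Agent.R542.CayPoly
import Pool.Agent.R542.CayCol
import Pool.Agent.H692R2.Col

/-!
# Chromatic numbers of Cayley graphs of powers of a fixed group: the reduction
-/

set_option autoImplicit false
set_option maxHeartbeats 1000000

namespace Pool.Agent.NPC.R542.Cay

open Pool.Agent.H692R2 Pool.Agent.H673R2

/-! ### Relabelling the vertices of the input -/

/-- all endpoints -/
def ends (E : List (ℕ × ℕ)) : List ℕ := E.flatMap fun e => [e.1, e.2]

/-- number of smaller elements -/
def rank (L : List ℕ) (v : ℕ) : ℕ := (L.filter fun u => decide (u < v)).length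

/-- relabelled edges -/
def relab (E : List (ℕ × ℕ)) : List (ℕ × ℕ) := E.map fun e => (rank (ends E) e.1, rank (ends E) e.2)

theorem ends_length (E : List (ℕ × ℕ)) : (ends E).length = 2 * E.length := by
  simp [ends, List.length_flatMap]
  ring

theorem rank_le_length (L : List ℕ) (v : ℕ) : rank L v ≤ L.length := List.length_filter_le _ _

theorem rank_lt_length {L : List ℕ} {v : ℕ} (h : v ∈ L) : rank L v < L.length := by
  unfold rank
  rw [List.length_filter_lt_length_iff_exists]
  exact ⟨v, h, by simp⟩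

theorem rank_mono {v w : ℕ} (h : v ≤ w) (L : List ℕ) : rank L v ≤ rank L w := by
  unfold rank
  apply List.Sublist.length_le
  apply List.monotone_filter_right
  intro u hu
  simp only [decide_eq_true_eq] at hu ⊢
  omega

theorem rank_strict {v w : ℕ} (h : v < w) : ∀ L : List ℕ, v ∈ L → rank L v < rank L w := by
  intro L
  induction L with
  | nil => intro hv; simp at hv
  | cons u L ih =>
    intro hv
    have hm := rank_mono h.le L
    have e1 : ∀ x, rank (u :: L) x = (if u < x then 1 else 0) + rank L x := by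
      intro x
      unfold rank
      by_cases hx : u < x
      · simp [hx]; omega
      · simp [hx]
    rw [e1, e1]
    rcases List.mem_cons.1 hv with rfl | hv
    · simp [h]
      omega
    · have := ih hv
      split_ifs <;> omega

theorem rank_inj {L : List ℕ} {v w : ℕ} (hv : v ∈ L) (hw : w ∈ L) (h : rank L v = rank L w) :
    v = w := by
  rcases lt_trichotomy v w with h1 | h1 | h1
  · have := rank_strict h1 L hv; omega
  · exact h1
  · have := rank_strict h1 L hw; omega

theorem mem_ends {E : List (ℕ × ℕ)} {e : ℕ × ℕ} (he : e ∈ E) : e.1 ∈ ends E ∧ e.2 ∈ ends E := by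
  simp only [ends, List.mem_flatMap, List.mem_cons, List.not_mem_nil, or_false]
  exact ⟨⟨e, he, Or.inl rfl⟩, ⟨e, he, Or.inr rfl⟩⟩

/-- edge lists without loops and with small labels -/
def Small (E : List (ℕ × ℕ)) : Prop :=
  Loopless E ∧ ∀ e ∈ E, e.1 < 2 * E.length ∧ e.2 < 2 * E.length

theorem relab_small {E : List (ℕ × ℕ)} (h : Loopless E) : Small (relab E) := by
  constructor
  · intro e he
    obtain ⟨e', he', rfl⟩ := List.mem_map.1 he
    intro hr
    exact h e' he' (rank_inj (mem_ends he').1 (mem_ends he').2 hr)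
  · intro e he
    obtain ⟨e', he', rfl⟩ := List.mem_map.1 he
    have hl : (relab E).length = E.length := by simp [relab]
    rw [hl, ← ends_length]
    exact ⟨rank_lt_length (mem_ends he').1, rank_lt_length (mem_ends he').2⟩

theorem relab_col {k : ℕ} (E : List (ℕ × ℕ)) : Col k E ↔ Col k (relab E) := by
  classical
  constructor
  · rintro ⟨c, hc⟩
    refine ⟨fun i => if h : ∃ v ∈ ends E, rank (ends E) v = i then c h.choose else c 0, ?_⟩
    intro e he
    obtain ⟨e', he', rfl⟩ := List.mem_map.1 he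
    have key : ∀ v, v ∈ ends E → (if h : ∃ v' ∈ ends E, rank (ends E) v' = rank (ends E) v then
        c h.choose else c 0) = c v := by
      intro v hv
      have hex : ∃ v' ∈ ends E, rank (ends E) v' = rank (ends E) v := ⟨v, hv, rfl⟩
      rw [dif_pos hex]
      exact congrArg c (rank_inj hex.choose_spec.1 hv hex.choose_spec.2)
    simp only
    rw [key _ (mem_ends he').1, key _ (mem_ends he').2]
    exact hc e' he'
  · rintro ⟨c, hc⟩
    refine ⟨fun v => c (rank (ends E) v), ?_⟩
    intro e he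
    exact hc (rank (ends E) e.1, rank (ends E) e.2) (List.mem_map.2 ⟨e, he, rfl⟩)

theorem poly_relab : Poly relab := by
  have h1 : Poly ends := by
    refine Poly.flatMap Poly.id ?_
    exact Poly.cons (Poly.fst (Poly.snd Poly.id)) (Poly.cons (Poly.snd (Poly.snd Poly.id))
      (Poly.const []))
  have h2 : ∀ {α : Type} [TEnc α] {L : α → List ℕ} {v : α → ℕ}, Poly L → Poly v →
      Poly (fun a => rank (L a) (v a)) := by
    intro α _ L v hL hv
    refine Poly.length (Poly.filter (p := fun a u => decide (u < v a)) hL ?_)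
    exact Poly.decide_lt (Poly.snd Poly.id) (hv.comp (Poly.fst Poly.id))
  refine Poly.map Poly.id ?_
  exact Poly.pair (h2 (h1.comp (Poly.fst Poly.id)) (Poly.fst (Poly.snd Poly.id)))
    (h2 (h1.comp (Poly.fst Poly.id)) (Poly.snd (Poly.snd Poly.id)))

theorem hardPr_small (k : ℕ) (hk : 3 ≤ k) : HardPr Small (Col k) :=
  (hardPr_col k hk).trans poly_relab (fun _ h => relab_small h) (fun E _ => relab_col E)

/-! ### Parameters -/

/-- the number of digits of the third block -/
def bb (E : List (ℕ × ℕ)) : ℕ := (2 * E.length + 8).bits.length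

theorem bb_eq (E : List (ℕ × ℕ)) : bb E = (2 * E.length + 8).size := by
  rw [bb, Nat.size_eq_bits_len]

theorem upoly_bb : UPoly bb :=
  UPoly.length (Poly.natBits (Poly.add (Poly.mul (Poly.const 2) (Poly.length Poly.id))
    (Poly.const 8)))

theorem lt_two_pow_bb (E : List (ℕ × ℕ)) : 2 * E.length + 8 < 2 ^ bb E := by
  rw [bb_eq]
  exact Nat.lt_size_self _

theorem two_pow_bb_le (E : List (ℕ × ℕ)) : 2 ^ bb E ≤ 2 * (2 * E.length + 8) := by
  rw [bb_eq]
  have h : ¬ (2 * E.length + 8).size ≤ (2 * E.length + 8).size - 1 := by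
    have : 0 < (2 * E.length + 8).size := Nat.size_pos.2 (by omega)
    omega
  rw [Nat.size_le] at h
  have h2 : 2 ^ ((2 * E.length + 8).size) = 2 * 2 ^ ((2 * E.length + 8).size - 1) := by
    rw [← pow_succ']
    congr 1
    have : 0 < (2 * E.length + 8).size := Nat.size_pos.2 (by omega)
    omega
  omega

theorem upoly_lin (s t : ℕ) : UPoly (fun E : List (ℕ × ℕ) => s * bb E + t) :=
  UPoly.add (UPoly.mul (UPoly.const s) upoly_bb) (UPoly.const t)

theorem upoly_pow (c s t : ℕ) : UPoly (fun E : List (ℕ × ℕ) => c ^ (s * bb E + t)) := by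
  have h1 : UPoly (fun E : List (ℕ × ℕ) => 2 * (2 * E.length + 8)) :=
    UPoly.mul (UPoly.const 2) (UPoly.add (UPoly.mul (UPoly.const 2) (UPoly.length Poly.id))
      (UPoly.const 8))
  have h2 := UPoly.eval h1 (Polynomial.X ^ (c * s) * Polynomial.C (2 ^ (c * t)))
  refine UPoly.of_le (poly_pow c (upoly_lin s t)) h2 fun E => ?_
  simp only [Polynomial.eval_mul, Polynomial.eval_pow, Polynomial.eval_X, Polynomial.eval_C]
  calc c ^ (s * bb E + t) ≤ (2 ^ c) ^ (s * bb E + t) := Nat.pow_le_pow_left Nat.lt_two_pow_self.le _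
    _ = (2 ^ bb E) ^ (c * s) * 2 ^ (c * t) := by
      rw [← pow_mul, ← pow_mul, ← pow_add]
      congr 1
      ring
    _ ≤ (2 * (2 * E.length + 8)) ^ (c * s) * 2 ^ (c * t) :=
      Nat.mul_le_mul_right _ (Nat.pow_le_pow_left (two_pow_bb_le E) _)

/-- the number of digits of the first block -/
def aa (E : List (ℕ × ℕ)) : ℕ := 5 * bb E + 11

/-- the chosen vectors -/
def XX (r : ℕ) (E : List (ℕ × ℕ)) : List (List ℕ) := greedy r (aa E) (r ^ bb E)

theorem poly_XX (r : ℕ) (hr : 0 < r) : Poly (XX r) := by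
  have h1 : UPoly (fun E : List (ℕ × ℕ) => r ^ bb E) := by
    have := upoly_pow r 1 0
    simpa only [one_mul, add_zero] using this
  exact poly_greedy r hr (upoly_lin 5 11) (upoly_pow r 5 11) h1

/-- adjacency in the input -/
def edge (E : List (ℕ × ℕ)) (p q : ℕ) : Bool :=
  E.any fun e => (decide (e.1 = p) && decide (e.2 = q)) || (decide (e.1 = q) && decide (e.2 = p))

theorem edge_iff (E : List (ℕ × ℕ)) (p q : ℕ) : edge E p q = true ↔ (p, q) ∈ E ∨ (q, p) ∈ E := by
  simp only [edge, List.any_eq_true, Bool.or_eq_true, Bool.and_eq_true, decide_eq_true_eq]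
  constructor
  · rintro ⟨e, he, ⟨rfl, rfl⟩ | ⟨rfl, rfl⟩⟩
    · exact Or.inl he
    · exact Or.inr he
  · rintro (h | h)
    · exact ⟨_, h, Or.inl ⟨rfl, rfl⟩⟩
    · exact ⟨_, h, Or.inr ⟨rfl, rfl⟩⟩

/-- the vectors of the construction -/
def xv (r : ℕ) (E : List (ℕ × ℕ)) (p : Fin (r ^ bb E)) : Fin (aa E) → ZMod r :=
  toVec r (aa E) ((XX r E).getD p [])

/-- the edges of the construction -/
def ev (r : ℕ) (E : List (ℕ × ℕ)) (p q : Fin (r ^ bb E)) : Prop := edge E p q = true

theorem ev_symm (r : ℕ) (E : List (ℕ × ℕ)) (p q : Fin (r ^ bb E)) (h : ev r E p q) :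
    ev r E q p := by
  unfold ev at h ⊢
  rw [edge_iff] at h ⊢
  exact h.symm

theorem eight_le (r : ℕ) (hr : 2 ≤ r) (E : List (ℕ × ℕ)) : 2 * E.length + 8 ≤ r ^ bb E :=
  (lt_two_pow_bb E).le.trans (Nat.pow_le_pow_left hr _)

theorem col_small (r : ℕ) [Fact r.Prime] (E : List (ℕ × ℕ)) (hE : Small E) :
    Col (r ^ 2) E ↔ ∃ u : Fin (r ^ bb E) → Fin 2 → ZMod r, ∀ p q, p ≠ q → ev r E p q →
      u p ≠ u q := by
  have hr : 2 ≤ r := (Fact.out : r.Prime).two_le
  haveI : NeZero r := ⟨by omega⟩
  have hcard : Fintype.card (Fin 2 → ZMod r) = Fintype.card (Fin (r ^ 2)) := by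
    rw [Fintype.card_fun, ZMod.card, Fintype.card_fin, Fintype.card_fin]
  let ψ := Fintype.equivOfCardEq hcard
  have hM := eight_le r hr E
  constructor
  · rintro ⟨c, hc⟩
    refine ⟨fun p => ψ.symm (c p), ?_⟩
    intro p q _ hpq heq
    have h1 := ψ.symm.injective heq
    unfold ev at hpq
    rw [edge_iff] at hpq
    rcases hpq with h | h
    · exact hc _ h h1
    · exact hc _ h h1.symm
  · rintro ⟨u, hu⟩
    refine ⟨fun v => if h : v < r ^ bb E then ψ (u ⟨v, h⟩) else ψ 0, ?_⟩
    intro e he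
    obtain ⟨h1, h2⟩ := hE.2 e he
    have h1' : e.1 < r ^ bb E := by omega
    have h2' : e.2 < r ^ bb E := by omega
    simp only [dif_pos h1', dif_pos h2']
    intro heq
    refine hu ⟨e.1, h1'⟩ ⟨e.2, h2'⟩ ?_ ?_ (ψ.injective heq)
    · intro h
      exact hE.1 e he (congrArg Fin.val h)
    · unfold ev
      rw [edge_iff]
      exact Or.inl he

/-- The colouring problem of the input and that of the Cayley graph. -/
theorem main_iff (r : ℕ) [Fact r.Prime] (E : List (ℕ × ℕ)) (hE : Small E) :
    Col (r ^ 2) E ↔ ∃ κ : (Fin (aa E + 2 + bb E) → ZMod r) → Fin (r ^ (aa E + 2)),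
      ∀ w w', inC (xv r E) (ev r E) (w' - w) → κ w ≠ κ w' := by
  have hr : 2 ≤ r := (Fact.out : r.Prime).two_le
  rw [col_small r E hE]
  refine (col_iff (xv r E) (ev r E) (ev_symm r E) (by simp) ?_ ?_).symm
  · have := eight_le r hr E
    omega
  · intro c hc hsum
    refine greedy_indep (a := aa E) ?_ c hc hsum
    have : (r * r ^ bb E) ^ 5 = r ^ (5 * bb E + 5) := by
      rw [← pow_succ', ← pow_mul]
      congr 1
      ring
    rw [this, aa]
    exact Nat.pow_lt_pow_right (by omega) (by omega)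

/-! ### The adjacency test -/

/-- first block -/
def ylist (a : ℕ) (w : List ℕ) : List ℕ := (List.range a).map fun i => w.getD i 0
/-- a later block -/
def blist (s b : ℕ) (w : List ℕ) : List ℕ := (List.range b).map fun i => w.getD (s + i) 0
/-- some entry is not zero -/
def nz (w : List ℕ) : Bool := w.any fun z => !decide (z = 0)

/-- the test for membership in the complement of the connection set -/
def dtest (r : ℕ) (E : List (ℕ × ℕ)) (w : List ℕ) : Bool :=
  nz (blist (aa E + 2) (bb E) w) && (List.range (r ^ bb E)).any fun p =>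
    (List.range (r ^ bb E)).any fun q => !decide (p = q) &&
      (decide (ylist (aa E) w = vadd r ((XX r E).getD q []) (vsmul r (r - 1) ((XX r E).getD p []))) &&
        (nz (blist (aa E) 2 w) || !edge E p q))

/-- the test for membership in the connection set -/
def ctest (r : ℕ) (E : List (ℕ × ℕ)) (w : List ℕ) : Bool :=
  (w.all fun z => decide (z < r)) && (nz w && !dtest r E w)

theorem nz_ofVec {r a : ℕ} [NeZero r] (v : Fin a → ZMod r) : nz (ofVec v) = true ↔ v ≠ 0 := by
  simp only [nz, List.any_eq_true, Bool.not_eq_true', decide_eq_false_iff_not]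
  constructor
  · rintro ⟨z, hz, hz0⟩ h
    simp only [ofVec, List.mem_ofFn] at hz
    obtain ⟨i, rfl⟩ := hz
    rw [h] at hz0
    simp at hz0
  · intro h
    obtain ⟨i, hi⟩ := Function.ne_iff.1 h
    refine ⟨(v i).val, ?_, ?_⟩
    · simp only [ofVec, List.mem_ofFn]
      exact ⟨i, rfl⟩
    · rw [ZMod.val_eq_zero]
      exact hi

theorem ylist_ofVec {r a b : ℕ} (W : Fin (a + 2 + b) → ZMod r) :
    ylist a (ofVec W) = ofVec (prY W) := by
  apply List.ext_getElem
  · simp [ylist, ofVec]
  · intro i h1 h2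
    have hi : i < a := by simpa [ylist] using h1
    have h3 : i < (ofVec W).length := by simp [ofVec]; omega
    simp only [ylist, List.getElem_map, List.getElem_range, List.getD_eq_getElem _ _ h3]
    simp only [ofVec, List.getElem_ofFn, prY]
    rfl

theorem blist_ofVec1 {r a b : ℕ} (W : Fin (a + 2 + b) → ZMod r) :
    blist a 2 (ofVec W) = ofVec (prV W) := by
  apply List.ext_getElem
  · simp [blist, ofVec]
  · intro i h1 h2
    have hi : i < 2 := by simpa [blist] using h1
    have h3 : a + i < (ofVec W).length := by simp [ofVec]; omega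
    simp only [blist, List.getElem_map, List.getElem_range, List.getD_eq_getElem _ _ h3]
    simp only [ofVec, List.getElem_ofFn, prV]
    rfl

theorem blist_ofVec2 {r a b : ℕ} (W : Fin (a + 2 + b) → ZMod r) :
    blist (a + 2) b (ofVec W) = ofVec (prM W) := by
  apply List.ext_getElem
  · simp [blist, ofVec]
  · intro i h1 h2
    have hi : i < b := by simpa [blist] using h1
    have h3 : a + 2 + i < (ofVec W).length := by simp [ofVec]; omega
    simp only [blist, List.getElem_map, List.getElem_range, List.getD_eq_getElem _ _ h3]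
    simp only [ofVec, List.getElem_ofFn, prM]
    rfl

theorem XX_wf (r : ℕ) (hr : 0 < r) (E : List (ℕ × ℕ)) (p : ℕ) (hp : p < r ^ bb E) :
    WF r (aa E) ((XX r E).getD p []) := by
  have h1 : p < (XX r E).length := by rw [XX, greedy_length]; exact hp
  rw [List.getD_eq_getElem _ _ h1]
  exact greedy_wf hr _ _ (List.getElem_mem h1)

theorem dtest_iff (r : ℕ) [Fact r.Prime] (E : List (ℕ × ℕ)) (W : Fin (aa E + 2 + bb E) → ZMod r) :
    dtest r E (ofVec W) = true ↔ inD (xv r E) (ev r E) W := by
  have hr : 0 < r := (Fact.out : r.Prime).pos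
  haveI : NeZero r := ⟨hr.ne'⟩
  have hY : ∀ p q : Fin (r ^ bb E), ylist (aa E) (ofVec W) =
      vadd r ((XX r E).getD q []) (vsmul r (r - 1) ((XX r E).getD p [])) ↔
        prY W = xv r E q - xv r E p := by
    intro p q
    have w1 := XX_wf r hr E p p.2
    have w2 := XX_wf r hr E q q.2
    have w3 := vadd_wf hr w2 (vsmul_wf hr (r - 1) w1)
    have hval : toVec r (aa E) (vadd r ((XX r E).getD q []) (vsmul r (r - 1) ((XX r E).getD p []))) =
        xv r E q - xv r E p := by
      rw [toVec_vadd w2 (vsmul_wf hr _ w1), toVec_vsmul _ w1]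
      have : ((r - 1 : ℕ) : ZMod r) = -1 := by
        rw [Nat.cast_sub hr]
        simp
      rw [this, neg_smul, one_smul, ← sub_eq_add_neg]
      rfl
    rw [ylist_ofVec, ← hval]
    constructor
    · intro h
      rw [← h, toVec_ofVec]
    · intro h
      apply toVec_inj (ofVec_wf _) w3
      rw [toVec_ofVec, h]
  unfold dtest inD
  rw [Bool.and_eq_true, blist_ofVec2, nz_ofVec, blist_ofVec1]
  refine and_congr Iff.rfl ?_
  simp only [List.any_eq_true, List.mem_range, Bool.and_eq_true, Bool.not_eq_true',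
    decide_eq_false_iff_not, decide_eq_true_eq, Bool.or_eq_true, nz_ofVec]
  constructor
  · rintro ⟨p, hp, q, hq, hpq, h1, h2⟩
    refine ⟨⟨p, hp⟩, ⟨q, hq⟩, fun h => hpq (congrArg Fin.val h), (hY ⟨p, hp⟩ ⟨q, hq⟩).1 h1, ?_⟩
    rcases h2 with h2 | h2
    · exact Or.inl h2
    · right
      unfold ev
      simp [h2]
  · rintro ⟨p, q, hpq, h1, h2⟩
    refine ⟨p, p.2, q, q.2, fun h => hpq (Fin.ext h), (hY p q).2 h1, ?_⟩
    rcases h2 with h2 | h2
    · exact Or.inl h2
    · right
      unfold ev at h2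
      simpa using h2

theorem ctest_iff (r : ℕ) [Fact r.Prime] (E : List (ℕ × ℕ)) (W : Fin (aa E + 2 + bb E) → ZMod r) :
    ctest r E (ofVec W) = true ↔ inC (xv r E) (ev r E) W := by
  have hr : 0 < r := (Fact.out : r.Prime).pos
  haveI : NeZero r := ⟨hr.ne'⟩
  unfold ctest inC
  rw [Bool.and_eq_true, Bool.and_eq_true, nz_ofVec, Bool.not_eq_true', ← Bool.not_eq_true,
    dtest_iff]
  have : ((ofVec W).all fun z => decide (z < r)) = true := by
    rw [List.all_eq_true]
    intro z hz
    rw [decide_eq_true_eq]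
    exact (ofVec_wf W).2 z hz
  rw [this]
  simp

theorem poly_nz {α : Type} [TEnc α] {w : α → List ℕ} (hw : Poly w) : Poly (fun a => nz (w a)) :=
  Poly.any (p := fun _ z => !decide (z = 0)) hw
    (Poly.not (Poly.decide_eq (Poly.snd Poly.id) (Poly.const 0)))

theorem poly_edge {α : Type} [TEnc α] {E : α → List (ℕ × ℕ)} {p q : α → ℕ} (hE : Poly E)
    (hp : Poly p) (hq : Poly q) : Poly (fun a => edge (E a) (p a) (q a)) := by
  refine Poly.any (p := fun a e => (decide (e.1 = p a) && decide (e.2 = q a)) ||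
    (decide (e.1 = q a) && decide (e.2 = p a))) hE ?_
  have e1 : Poly (fun x : α × ℕ × ℕ => x.2.1) := Poly.fst (Poly.snd Poly.id)
  have e2 : Poly (fun x : α × ℕ × ℕ => x.2.2) := Poly.snd (Poly.snd Poly.id)
  have e3 : Poly (fun x : α × ℕ × ℕ => p x.1) := hp.comp (Poly.fst Poly.id)
  have e4 : Poly (fun x : α × ℕ × ℕ => q x.1) := hq.comp (Poly.fst Poly.id)
  exact Poly.or (Poly.and (Poly.decide_eq e1 e3) (Poly.decide_eq e2 e4))
    (Poly.and (Poly.decide_eq e1 e4) (Poly.decide_eq e2 e3))

theorem poly_dtest (r : ℕ) (hr : 0 < r) {α : Type} [TEnc α] {E : α → List (ℕ × ℕ)}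
    {w : α → List ℕ} (hE : Poly E) (hw : Poly w) : Poly (fun x => dtest r (E x) (w x)) := by
  have hb : UPoly (fun x => bb (E x)) := UPoly.comp upoly_bb hE
  have ha : UPoly (fun x => aa (E x)) := UPoly.comp (upoly_lin 5 11) hE
  have hM : UPoly (fun x => r ^ bb (E x)) := by
    have h1 : UPoly (fun E : List (ℕ × ℕ) => r ^ bb E) := by
      have := upoly_pow r 1 0
      simpa only [one_mul, add_zero] using this
    exact UPoly.comp (n := fun E : List (ℕ × ℕ) => r ^ bb E) h1 hE
  have hX : Poly (fun x => XX r (E x)) := Poly.comp (poly_XX r hr) hE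
  have hY : Poly (fun x => ylist (aa (E x)) (w x)) := by
    refine Poly.map (F := fun x i => (w x).getD i 0) ha.range ?_
    exact Poly.getD (hw.comp (Poly.fst Poly.id)) (Poly.snd Poly.id) (Poly.const 0)
  have hB : ∀ {s b : α → ℕ}, Poly s → UPoly b → Poly (fun x => blist (s x) (b x) (w x)) := by
    intro s b hs hb'
    refine Poly.map (F := fun x i => (w x).getD (s x + i) 0) hb'.range ?_
    exact Poly.getD (hw.comp (Poly.fst Poly.id)) (Poly.add (hs.comp (Poly.fst Poly.id))
      (Poly.snd Poly.id)) (Poly.const 0)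
  have h1 : Poly (fun x => nz (blist (aa (E x) + 2) (bb (E x)) (w x))) :=
    poly_nz (hB (Poly.add ha.toPoly (Poly.const 2)) hb)
  have h2 : Poly (fun x => nz (blist (aa (E x)) 2 (w x))) :=
    poly_nz (hB ha.toPoly (UPoly.const 2))
  refine Poly.and h1 ?_
  refine Poly.any (p := fun x p => (List.range (r ^ bb (E x))).any fun q => !decide (p = q) &&
      (decide (ylist (aa (E x)) (w x) = vadd r ((XX r (E x)).getD q [])
        (vsmul r (r - 1) ((XX r (E x)).getD p []))) &&
        (nz (blist (aa (E x)) 2 (w x)) || !edge (E x) p q))) hM.range ?_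
  have hMr : Poly (fun y : α × ℕ => List.range (r ^ bb (E y.1))) :=
    hM.range.comp (Poly.fst Poly.id)
  refine Poly.any (l := fun y : α × ℕ => List.range (r ^ bb (E y.1)))
    (p := fun y q => !decide (y.2 = q) &&
      (decide (ylist (aa (E y.1)) (w y.1) = vadd r ((XX r (E y.1)).getD q [])
        (vsmul r (r - 1) ((XX r (E y.1)).getD y.2 []))) &&
        (nz (blist (aa (E y.1)) 2 (w y.1)) || !edge (E y.1) y.2 q))) hMr ?_
  have p0 : Poly (fun z : (α × ℕ) × ℕ => z.1.1) := Poly.fst (Poly.fst Poly.id)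
  have pp : Poly (fun z : (α × ℕ) × ℕ => z.1.2) := Poly.snd (Poly.fst Poly.id)
  have pq : Poly (fun z : (α × ℕ) × ℕ => z.2) := Poly.snd Poly.id
  have pX : Poly (fun z : (α × ℕ) × ℕ => XX r (E z.1.1)) :=
    Poly.comp (g := fun x => XX r (E x)) hX p0
  have g1 : Poly (fun z : (α × ℕ) × ℕ => (XX r (E z.1.1)).getD z.2 []) :=
    Poly.getD pX pq (Poly.const [])
  have g2 : Poly (fun z : (α × ℕ) × ℕ => (XX r (E z.1.1)).getD z.1.2 []) :=
    Poly.getD pX pp (Poly.const [])
  have g3 : Poly (fun z : (α × ℕ) × ℕ => vadd r ((XX r (E z.1.1)).getD z.2 [])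
      (vsmul r (r - 1) ((XX r (E z.1.1)).getD z.1.2 []))) :=
    poly_vadd r g1 (poly_vsmul r (Poly.const (r - 1)) g2)
  have g4 : Poly (fun z : (α × ℕ) × ℕ => ylist (aa (E z.1.1)) (w z.1.1)) :=
    Poly.comp (g := fun x => ylist (aa (E x)) (w x)) hY p0
  have g5 : Poly (fun z : (α × ℕ) × ℕ => nz (blist (aa (E z.1.1)) 2 (w z.1.1))) :=
    Poly.comp (g := fun x => nz (blist (aa (E x)) 2 (w x))) h2 p0
  have g6 : Poly (fun z : (α × ℕ) × ℕ => edge (E z.1.1) z.1.2 z.2) :=
    poly_edge (Poly.comp (g := E) hE p0) pp pq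
  exact Poly.and (Poly.not (Poly.decide_eq pp pq)) (Poly.and (Poly.decide_eq g4 g3)
    (Poly.or g5 (Poly.not g6)))

theorem poly_ctest (r : ℕ) (hr : 0 < r) {α : Type} [TEnc α] {E : α → List (ℕ × ℕ)}
    {w : α → List ℕ} (hE : Poly E) (hw : Poly w) : Poly (fun x => ctest r (E x) (w x)) := by
  refine Poly.and ?_ (Poly.and (poly_nz hw) (Poly.not (poly_dtest r hr hE hw)))
  exact Poly.all (p := fun _ z => decide (z < r)) hw
    (Poly.decide_lt (Poly.snd Poly.id) (Poly.const r))

end Pool.Agent.NPC.R542.Cay
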