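import Mathlib

/-!
# Cliques in Cayley graphs whose connection set consists of generic differences
-/

set_option autoImplicit false

namespace Pool.Agent.NPC.R542.Cay

open Finset

variable {P I : Type} [DecidableEq P] {r : ℕ}

/-- unit vector -/
def dl (r : ℕ) (p : P) : P → ZMod r := Pi.single p 1

theorem dl_self (p : P) : dl r p p = 1 := by simp [dl]

theorem dl_ne {p q : P} (h : q ≠ p) : dl r p q = 0 := by simp [dl, h]

/-- A difference of two unit vectors determines the unordered pair. -/
theorem pair_of_eq [Fact r.Prime] {p q s t : P} (hpq : p ≠ q)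
    (h : dl r q - dl r p = dl r t - dl r s ∨ dl r q - dl r p = dl r s - dl r t) :
    (p = s ∧ q = t) ∨ (p = t ∧ q = s) := by
  have h10 : (1 : ZMod r) ≠ 0 := one_ne_zero
  have hq : q = s ∨ q = t := by
    by_contra hcon
    push Not at hcon
    rcases h with h | h
    · have := congrFun h q
      simp only [Pi.sub_apply, dl_self, dl_ne hpq.symm, dl_ne hcon.1, dl_ne hcon.2, sub_zero] at this
      exact h10 this
    · have := congrFun h q
      simp only [Pi.sub_apply, dl_self, dl_ne hpq.symm, dl_ne hcon.1, dl_ne hcon.2, sub_zero] at this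
      exact h10 this
  have hp : p = s ∨ p = t := by
    by_contra hcon
    push Not at hcon
    rcases h with h | h
    · have := congrFun h p
      simp only [Pi.sub_apply, dl_self, dl_ne hpq, dl_ne hcon.1, dl_ne hcon.2, sub_zero, zero_sub,
        neg_eq_zero] at this
      exact h10 this
    · have := congrFun h p
      simp only [Pi.sub_apply, dl_self, dl_ne hpq, dl_ne hcon.1, dl_ne hcon.2, sub_zero, zero_sub,
        neg_eq_zero] at this
      exact h10 this
  rcases hp with rfl | rfl <;> rcases hq with rfl | rfl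
  · exact absurd rfl hpq
  · exact Or.inl ⟨rfl, rfl⟩
  · exact Or.inr ⟨rfl, rfl⟩
  · exact absurd rfl hpq

/-- The support of a difference that is itself a difference. -/
theorem inter_of_eq [Fact r.Prime] {p q s t u v : P} (hpq : p ≠ q) (hst : s ≠ t)
    (h : dl r q - dl r p - (dl r t - dl r s) = dl r v - dl r u) :
    p = s ∨ p = t ∨ q = s ∨ q = t := by
  have h10 : (1 : ZMod r) ≠ 0 := one_ne_zero
  by_contra hcon
  push Not at hcon
  obtain ⟨h1, h2, h3, h4⟩ := hcon
  have hp : p = u ∨ p = v := by
    by_contra hc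
    push Not at hc
    have := congrFun h p
    simp only [Pi.sub_apply, dl_self, dl_ne hpq, dl_ne h1, dl_ne h2, dl_ne hc.1, dl_ne hc.2,
      sub_zero, zero_sub, neg_eq_zero] at this
    exact h10 this
  have hq : q = u ∨ q = v := by
    by_contra hc
    push Not at hc
    have := congrFun h q
    simp only [Pi.sub_apply, dl_self, dl_ne hpq.symm, dl_ne h3, dl_ne h4, dl_ne hc.1, dl_ne hc.2,
      sub_zero] at this
    exact h10 this
  have hs : s = u ∨ s = v := by
    by_contra hc
    push Not at hc
    have := congrFun h s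
    simp only [Pi.sub_apply, dl_self, dl_ne hst, dl_ne h1.symm, dl_ne h3.symm, dl_ne hc.1,
      dl_ne hc.2, sub_zero, zero_sub, neg_neg] at this
    exact h10 this
  rcases hp with rfl | rfl <;> rcases hq with rfl | rfl <;> rcases hs with rfl | rfl <;>
    simp_all

theorem swap4 {a b c d : Prop} (h : a ∨ b ∨ c ∨ d) : b ∨ a ∨ d ∨ c := by
  rcases h with h | h | h | h
  · exact Or.inr (Or.inl h)
  · exact Or.inl h
  · exact Or.inr (Or.inr (Or.inr h))
  · exact Or.inr (Or.inr (Or.inl h))

omit [DecidableEq P] in
theorem tri_mem {a b c x y : P} (hab : a ≠ b) (hca : c ≠ a) (hcb : c ≠ b)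
    (m1 : x = a ∨ x = b ∨ y = a ∨ y = b) (m2 : x = b ∨ x = c ∨ y = b ∨ y = c)
    (m3 : x = a ∨ x = c ∨ y = a ∨ y = c) :
    (x = a ∨ x = b ∨ x = c) ∧ (y = a ∨ y = b ∨ y = c) := by
  classical
  have ex : x = a ∨ x = b ∨ x = c := by
    by_contra hn
    push Not at hn
    obtain ⟨n1, n2, n3⟩ := hn
    have e1 : y = a ∨ y = b := by
      rcases m1 with m | m | m | m
      · exact absurd m n1
      · exact absurd m n2
      · exact Or.inl m
      · exact Or.inr m
    have e2 : y = b ∨ y = c := by
      rcases m2 with m | m | m | m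
      · exact absurd m n2
      · exact absurd m n3
      · exact Or.inl m
      · exact Or.inr m
    have e3 : y = a ∨ y = c := by
      rcases m3 with m | m | m | m
      · exact absurd m n1
      · exact absurd m n3
      · exact Or.inl m
      · exact Or.inr m
    rcases e1 with h | h
    · rcases e2 with h' | h'
      · exact hab (h.symm.trans h')
      · exact hca (h'.symm.trans h)
    · rcases e3 with h' | h'
      · exact hab (h'.symm.trans h)
      · exact hcb (h'.symm.trans h)
  refine ⟨ex, ?_⟩
  by_contra hn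
  push Not at hn
  obtain ⟨n1, n2, n3⟩ := hn
  have e1 : x = a ∨ x = b := by
    rcases m1 with m | m | m | m
    · exact Or.inl m
    · exact Or.inr m
    · exact absurd m n1
    · exact absurd m n2
  have e2 : x = b ∨ x = c := by
    rcases m2 with m | m | m | m
    · exact Or.inl m
    · exact Or.inr m
    · exact absurd m n2
    · exact absurd m n3
  have e3 : x = a ∨ x = c := by
    rcases m3 with m | m | m | m
    · exact Or.inl m
    · exact Or.inr m
    · exact absurd m n1
    · exact absurd m n3
  rcases e1 with h | h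
  · rcases e2 with h' | h'
    · exact hab (h.symm.trans h')
    · exact hca (h'.symm.trans h)
  · rcases e3 with h' | h'
    · exact hab (h'.symm.trans h)
    · exact hcb (h'.symm.trans h)

/-- A large set of vectors all of whose differences are differences of two unit vectors, containing
zero, consists of vectors `dl (σ i) - dl c`, or of the negatives of such vectors. -/
theorem star [Fact r.Prime] [Fintype I] [DecidableEq I] (i₀ : I) (f : I → P → ZMod r)
    (h0 : f i₀ = 0) (hf : ∀ i j, i ≠ j → ∃ p q, p ≠ q ∧ f j - f i = dl r q - dl r p)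
    (hI : 8 ≤ Fintype.card I) :
    ∃ σ : I → P, Function.Injective σ ∧ ((∀ i j, f j - f i = dl r (σ j) - dl r (σ i)) ∨
      (∀ i j, f j - f i = dl r (σ i) - dl r (σ j))) := by
  classical
  have h10 : (1 : ZMod r) ≠ 0 := one_ne_zero
  have hinj : Function.Injective f := by
    intro i j hij
    by_contra hne
    obtain ⟨p, q, hpq, h⟩ := hf i j hne
    rw [hij, sub_self] at h
    have := congrFun h q
    simp [dl_self, dl_ne hpq.symm] at this
  have hex : ∀ i, ∃ p q : P, i ≠ i₀ → p ≠ q ∧ f i = dl r q - dl r p := by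
    intro i
    by_cases hi : i = i₀
    · obtain ⟨j, hj⟩ : ∃ j : I, j ≠ i₀ := by
        haveI : Nontrivial I := Fintype.one_lt_card_iff_nontrivial.1 (by omega)
        exact exists_ne i₀
      obtain ⟨p, q, _, _⟩ := hf i₀ j hj.symm
      exact ⟨p, q, fun h => absurd hi h⟩
    · obtain ⟨p, q, hpq, h⟩ := hf i₀ i (Ne.symm hi)
      rw [h0, sub_zero] at h
      exact ⟨p, q, fun _ => ⟨hpq, h⟩⟩
  choose p q hpq using hex
  have hmeet : ∀ i j, i ≠ i₀ → j ≠ i₀ → i ≠ j →
      p j = p i ∨ p j = q i ∨ q j = p i ∨ q j = q i := by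
    intro i j hi hj hij
    obtain ⟨u, v, _, h⟩ := hf i j hij
    rw [(hpq i hi).2, (hpq j hj).2] at h
    exact inter_of_eq (hpq j hj).1 (hpq i hi).1 h
  -- a common element
  have hcommon : ∃ c, ∀ i, i ≠ i₀ → p i = c ∨ q i = c := by
    by_contra hno
    push Not at hno
    obtain ⟨i₁, hi₁⟩ : ∃ j : I, j ≠ i₀ := by
      haveI : Nontrivial I := Fintype.one_lt_card_iff_nontrivial.1 (by omega)
      exact exists_ne i₀
    obtain ⟨i₂, hi₂, h2p, h2q⟩ := hno (p i₁)
    obtain ⟨i₃, hi₃, h3p, h3q⟩ := hno (q i₁)
    set a := p i₁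
    set b := q i₁
    have hab : a ≠ b := (hpq i₁ hi₁).1
    have h12 : i₂ ≠ i₁ := by rintro rfl; exact h2p rfl
    have h13 : i₃ ≠ i₁ := by rintro rfl; exact h3q rfl
    -- `i₂` contains `b` and `c`
    have e2 : p i₂ = b ∨ q i₂ = b := by
      rcases hmeet i₁ i₂ hi₁ hi₂ h12.symm with h | h | h | h
      · exact absurd h h2p
      · exact Or.inl h
      · exact absurd h h2q
      · exact Or.inr h
    have e3 : p i₃ = a ∨ q i₃ = a := by
      rcases hmeet i₁ i₃ hi₁ hi₃ h13.symm with h | h | h | h
      · exact Or.inl h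
      · exact absurd h h3p
      · exact Or.inr h
      · exact absurd h h3q
    obtain ⟨c, hc⟩ : ∃ c, (p i₂ = b ∧ q i₂ = c) ∨ (p i₂ = c ∧ q i₂ = b) := by
      rcases e2 with h | h
      · exact ⟨_, Or.inl ⟨h, rfl⟩⟩
      · exact ⟨_, Or.inr ⟨rfl, h⟩⟩
    have hca : c ≠ a := by
      rcases hc with ⟨_, h⟩ | ⟨h, _⟩
      · exact h ▸ h2q
      · exact h ▸ h2p
    have hcb : c ≠ b := by
      have := (hpq i₂ hi₂).1
      rcases hc with ⟨h, h'⟩ | ⟨h, h'⟩
      · rw [h, h'] at this; exact this.symm
      · rw [h, h'] at this; exact this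
    have h23 : i₃ ≠ i₂ := by
      rintro rfl
      rcases e3 with h | h
      · exact h2p h
      · exact h2q h
    have hc3 : (p i₃ = a ∧ q i₃ = c) ∨ (p i₃ = c ∧ q i₃ = a) := by
      have hm := hmeet i₂ i₃ hi₂ hi₃ h23.symm
      have hne := (hpq i₃ hi₃).1
      rcases e3 with h | h
      · left
        refine ⟨h, ?_⟩
        rcases hc with ⟨k1, k2⟩ | ⟨k1, k2⟩
        · rw [k1, k2, h] at hm
          rcases hm with m | m | m | m
          · exact absurd m hab
          · exact absurd m.symm hca
          · exact absurd m h3q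
          · exact m
        · rw [k1, k2, h] at hm
          rcases hm with m | m | m | m
          · exact absurd m.symm hca
          · exact absurd m hab
          · exact m
          · exact absurd m h3q
      · right
        refine ⟨?_, h⟩
        rcases hc with ⟨k1, k2⟩ | ⟨k1, k2⟩
        · rw [k1, k2, h] at hm
          rcases hm with m | m | m | m
          · exact absurd m h3p
          · exact m
          · exact absurd m hab
          · exact absurd m.symm hca
        · rw [k1, k2, h] at hm
          rcases hm with m | m | m | m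
          · exact m
          · exact absurd m h3p
          · exact absurd m.symm hca
          · exact absurd m hab
    -- all pairs lie in the triangle
    have htri : ∀ i, i ≠ i₀ → (p i = a ∨ p i = b ∨ p i = c) ∧ (q i = a ∨ q i = b ∨ q i = c) := by
      intro i hi
      by_cases g1 : i = i₁
      · subst g1; exact ⟨Or.inl rfl, Or.inr (Or.inl rfl)⟩
      by_cases g2 : i = i₂
      · subst g2
        rcases hc with ⟨k1, k2⟩ | ⟨k1, k2⟩
        · exact ⟨Or.inr (Or.inl k1), Or.inr (Or.inr k2)⟩
        · exact ⟨Or.inr (Or.inr k1), Or.inr (Or.inl k2)⟩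
      by_cases g3 : i = i₃
      · subst g3
        rcases hc3 with ⟨k1, k2⟩ | ⟨k1, k2⟩
        · exact ⟨Or.inl k1, Or.inr (Or.inr k2)⟩
        · exact ⟨Or.inr (Or.inr k1), Or.inl k2⟩
      have m1 : p i = a ∨ p i = b ∨ q i = a ∨ q i = b := hmeet i₁ i hi₁ hi (Ne.symm g1)
      have m2 : p i = b ∨ p i = c ∨ q i = b ∨ q i = c := by
        have := hmeet i₂ i hi₂ hi (Ne.symm g2)
        rcases hc with ⟨k1, k2⟩ | ⟨k1, k2⟩
        · rwa [k1, k2] at this
        · rw [k1, k2] at this; exact swap4 this
      have m3 : p i = a ∨ p i = c ∨ q i = a ∨ q i = c := by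
        have := hmeet i₃ i hi₃ hi (Ne.symm g3)
        rcases hc3 with ⟨k1, k2⟩ | ⟨k1, k2⟩
        · rwa [k1, k2] at this
        · rw [k1, k2] at this; exact swap4 this
      exact tri_mem hab hca hcb m1 m2 m3
    -- six vectors only
    let T : Finset (P → ZMod r) := {dl r b - dl r a, dl r c - dl r a, dl r a - dl r b,
      dl r c - dl r b, dl r a - dl r c, dl r b - dl r c}
    have hT : T.card ≤ 6 := Finset.card_le_six
    have hmaps : ∀ i ∈ (univ.erase i₀ : Finset I), f i ∈ T := by
      intro i hi
      have hi' := Finset.ne_of_mem_erase hi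
      obtain ⟨hne, he⟩ := hpq i hi'
      obtain ⟨t1, t2⟩ := htri i hi'
      rw [he]
      simp only [T, Finset.mem_insert, Finset.mem_singleton]
      rcases t1 with t1 | t1 | t1 <;> rcases t2 with t2 | t2 | t2 <;> rw [t1, t2] at hne ⊢ <;>
        first
          | exact absurd rfl hne
          | simp
    have hle := Finset.card_le_card_of_injOn f hmaps (hinj.injOn)
    rw [Finset.card_erase_of_mem (Finset.mem_univ _), Finset.card_univ] at hle
    omega
  obtain ⟨c, hc⟩ := hcommon
  have hs : ∀ i, ∃ s : P, i ≠ i₀ → s ≠ c ∧ (f i = dl r s - dl r c ∨ f i = dl r c - dl r s) := by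
    intro i
    by_cases hi : i = i₀
    · exact ⟨c, fun h => absurd hi h⟩
    obtain ⟨hne, he⟩ := hpq i hi
    rcases hc i hi with h | h
    · exact ⟨q i, fun _ => ⟨h ▸ hne.symm, Or.inl (h ▸ he)⟩⟩
    · exact ⟨p i, fun _ => ⟨h ▸ hne, Or.inr (h ▸ he)⟩⟩
  choose s hs using hs
  -- opposite signs
  have hopp : ∀ i j, i ≠ i₀ → j ≠ i₀ → s i ≠ s j → f i = dl r c - dl r (s i) →
      f j = dl r (s j) - dl r c → (-1 : ZMod r) = 1 := by
    intro i j hi hj hsij fi fj
    have hij : i ≠ j := by rintro rfl; exact hsij rfl
    obtain ⟨u, v, huv, h⟩ := hf i j hij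
    rw [fi, fj] at h
    have a1 := congrFun h (s i)
    have a2 := congrFun h (s j)
    simp only [Pi.sub_apply, dl_self, dl_ne hsij, dl_ne (hs i hi).1, dl_ne hsij.symm,
      dl_ne (hs j hj).1, sub_zero, zero_sub, neg_neg, sub_neg_eq_add, zero_add] at a1 a2
    by_cases hiv : s i = v
    · have hjv : s j ≠ v := fun h' => hsij (hiv.trans h'.symm)
      rw [dl_ne hjv] at a2
      by_cases hju : s j = u
      · rw [hju, dl_self, zero_sub] at a2
        exact a2.symm
      · rw [dl_ne hju, sub_zero] at a2
        exact absurd a2 h10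
    · rw [dl_ne hiv] at a1
      by_cases hiu : s i = u
      · rw [hiu, dl_self, zero_sub] at a1
        exact a1.symm
      · rw [dl_ne hiu, sub_zero] at a1
        exact absurd a1 h10
  have hswap : (-1 : ZMod r) = 1 → ∀ s : P, dl r c - dl r s = dl r s - dl r c := by
    intro h s
    rw [← neg_sub (dl r s) (dl r c)]
    funext x
    have : -(dl r s - dl r c) x = (-1 : ZMod r) * (dl r s - dl r c) x := by ring
    rw [Pi.neg_apply, this, h, one_mul]
  have hall : (∀ i, i ≠ i₀ → f i = dl r (s i) - dl r c) ∨
      (∀ i, i ≠ i₀ → f i = dl r c - dl r (s i)) := by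
    by_contra hno
    push Not at hno
    obtain ⟨⟨i, hi, hi'⟩, ⟨j, hj, hj'⟩⟩ := hno
    have fi : f i = dl r c - dl r (s i) := (hs i hi).2.resolve_left hi'
    have fj : f j = dl r (s j) - dl r c := (hs j hj).2.resolve_right hj'
    have hno : (-1 : ZMod r) ≠ 1 := by
      intro h
      exact hi' (fi.trans (hswap h _))
    by_cases hsij : s i = s j
    · obtain ⟨k, hk⟩ : ∃ k : I, k ∉ ({i₀, i, j} : Finset I) := by
        by_contra hcon
        push Not at hcon
        have h1 : (univ : Finset I) ⊆ {i₀, i, j} := fun k _ => hcon k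
        have h2 := Finset.card_le_card h1
        have h3 : ({i₀, i, j} : Finset I).card ≤ 3 := Finset.card_le_three
        rw [Finset.card_univ] at h2
        omega
      simp only [Finset.mem_insert, Finset.mem_singleton, not_or] at hk
      obtain ⟨k0, ki, kj⟩ := hk
      have hski : s k ≠ s i := by
        intro h
        rcases (hs k k0).2 with fk | fk
        · rw [h, hsij] at fk
          exact kj (hinj (fk.trans fj.symm))
        · rw [h] at fk
          exact ki (hinj (fk.trans fi.symm))
      rcases (hs k k0).2 with fk | fk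
      · exact hno (hopp i k hi k0 hski.symm fi fk)
      · exact hno (hopp k j k0 hj (hsij ▸ hski) fk fj)
    · exact hno (hopp i j hi hj hsij fi fj)
  refine ⟨fun i => if i = i₀ then c else s i, ?_, ?_⟩
  · intro i j hij
    simp only at hij
    by_cases hi : i = i₀
    · by_cases hj : j = i₀
      · exact hi.trans hj.symm
      · rw [if_pos hi, if_neg hj] at hij
        exact absurd hij.symm (hs j hj).1
    · by_cases hj : j = i₀
      · rw [if_neg hi, if_pos hj] at hij
        exact absurd hij (hs i hi).1
      · rw [if_neg hi, if_neg hj] at hij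
        apply hinj
        rcases hall with h | h
        · rw [h i hi, h j hj, hij]
        · rw [h i hi, h j hj, hij]
  · rcases hall with h | h
    · left
      have key : ∀ i, f i = dl r (if i = i₀ then c else s i) - dl r c := by
        intro i
        by_cases hi : i = i₀
        · rw [if_pos hi, hi, h0, sub_self]
        · rw [if_neg hi, h i hi]
      intro i j
      rw [key i, key j]
      abel
    · right
      have key : ∀ i, f i = dl r c - dl r (if i = i₀ then c else s i) := by
        intro i
        by_cases hi : i = i₀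
        · rw [if_pos hi, hi, h0, sub_self]
        · rw [if_neg hi, h i hi]
      intro i j
      rw [key i, key j]
      abel

/-- Cliques of differences of generic vectors. -/
theorem clique [Fact r.Prime] [Fintype P] [Fintype I] [DecidableEq I] {A : Type} [AddCommGroup A]
    [Module (ZMod r) A] (x : P → A)
    (hx : ∀ c : P → ZMod r, (univ.filter (fun p => c p ≠ 0)).card ≤ 6 → ∑ p, c p • x p = 0 → c = 0)
    (y : I → A) (hy : ∀ i j, i ≠ j → ∃ p q, p ≠ q ∧ y j - y i = x q - x p)
    (hI : 8 ≤ Fintype.card I) :
    ∃ σ : I → P, Function.Injective σ ∧ ∀ i j, i ≠ j → ∀ p q, p ≠ q → y j - y i = x q - x p →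
      (p = σ i ∧ q = σ j) ∨ (p = σ j ∧ q = σ i) := by
  classical
  obtain ⟨i₀⟩ : Nonempty I := Fintype.card_pos_iff.1 (by omega)
  have hex : ∀ i, ∃ p q : P, (i ≠ i₀ → y i - y i₀ = x q - x p) := by
    intro i
    by_cases hi : i = i₀
    · obtain ⟨j, hj⟩ : ∃ j : I, j ≠ i₀ := by
        haveI : Nontrivial I := Fintype.one_lt_card_iff_nontrivial.1 (by omega)
        exact exists_ne i₀
      obtain ⟨p, q, _, _⟩ := hy i₀ j hj.symm
      exact ⟨p, q, fun h => absurd hi h⟩
    · obtain ⟨p, q, hpq, h⟩ := hy i₀ i (Ne.symm hi)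
      exact ⟨p, q, fun _ => h⟩
  choose p q hpq using hex
  have hsum : ∀ s : P, ∑ t, dl r s t • x t = x s := by
    intro s
    rw [Finset.sum_eq_single s]
    · rw [dl_self, one_smul]
    · intro t _ ht
      rw [dl_ne ht, zero_smul]
    · intro h; exact absurd (Finset.mem_univ _) h
  let f : I → P → ZMod r := fun i => if i = i₀ then 0 else dl r (q i) - dl r (p i)
  have hfs : ∀ i, ∑ t, f i t • x t = y i - y i₀ := by
    intro i
    by_cases hi : i = i₀
    · simp [f, hi]
    · simp only [f, if_neg hi, Pi.sub_apply, sub_smul, Finset.sum_sub_distrib, hsum]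
      exact (hpq i hi).symm
  have hsupp : ∀ i t, t ≠ p i → t ≠ q i → f i t = 0 := by
    intro i t h1 h2
    by_cases hi : i = i₀
    · simp [f, hi]
    · simp only [f, if_neg hi, Pi.sub_apply, dl_ne h1, dl_ne h2, sub_self]
  have hlift : ∀ i j u v, y j - y i = x v - x u → f j - f i = dl r v - dl r u := by
    intro i j u v h
    have h1 : f j - f i - (dl r v - dl r u) = 0 := by
      apply hx
      · have hsub : (univ.filter fun t => (f j - f i - (dl r v - dl r u)) t ≠ 0) ⊆
            {p i, q i, p j, q j, u, v} := by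
          intro t ht
          rw [Finset.mem_filter] at ht
          by_contra hcon
          simp only [Finset.mem_insert, Finset.mem_singleton, not_or] at hcon
          obtain ⟨c1, c2, c3, c4, c5, c6⟩ := hcon
          apply ht.2
          simp only [Pi.sub_apply, hsupp i t c1 c2, hsupp j t c3 c4, dl_ne c5, dl_ne c6, sub_self]
        exact (Finset.card_le_card hsub).trans Finset.card_le_six
      · simp only [Pi.sub_apply, sub_smul, Finset.sum_sub_distrib, hfs, hsum]
        rw [← h]
        abel
    exact sub_eq_zero.1 h1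
  obtain ⟨σ, hσ, hσ'⟩ := star i₀ f (by simp [f]) (by
    intro i j hij
    obtain ⟨u, v, huv, h⟩ := hy i j hij
    exact ⟨u, v, huv, hlift i j u v h⟩) hI
  refine ⟨σ, hσ, ?_⟩
  intro i j hij u v huv h
  have h1 := hlift i j u v h
  rcases hσ' with hs | hs
  · exact pair_of_eq huv (Or.inl (h1.symm.trans (hs i j)))
  · exact pair_of_eq huv (Or.inr (h1.symm.trans (hs i j)))

end Pool.Agent.NPC.R542.Cay
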