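import Pool.Agent.R542.CayGreedy

/-!
# The greedy choice runs in polynomial time
-/

set_option autoImplicit false
set_option maxHeartbeats 400000

namespace Pool.Agent.NPC.R542.Cay

/-! ### Computation in polynomial time -/

section
variable {α : Type} [TEnc α]

theorem poly_vadd (r : ℕ) {u v : α → List ℕ} (hu : Poly u) (hv : Poly v) :
    Poly (fun a => vadd r (u a) (v a)) := by
  refine Poly.map (F := fun _ p => (p.1 + p.2) % r) (Poly.zip hu hv) ?_
  exact Poly.mod (Poly.add (Poly.fst (Poly.snd Poly.id)) (Poly.snd (Poly.snd Poly.id)))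
    (Poly.const r)

theorem poly_vsmul (r : ℕ) {c : α → ℕ} {u : α → List ℕ} (hc : Poly c) (hu : Poly u) :
    Poly (fun a => vsmul r (c a) (u a)) := by
  refine Poly.map (F := fun a x => c a * x % r) hu ?_
  exact Poly.mod (Poly.mul (hc.comp (Poly.fst Poly.id)) (Poly.snd Poly.id)) (Poly.const r)

theorem poly_vzero {a : α → ℕ} (ha : UPoly a) : Poly (fun x => vzero (a x)) :=
  Poly.map (F := fun _ _ => 0) ha.range (Poly.const 0)

theorem poly_pow (c : ℕ) {m : α → ℕ} (hm : UPoly m) : Poly (fun a => c ^ (m a)) := by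
  obtain ⟨p, hp⟩ := Poly.sz_le hm
  have hlen : ∀ a, m a ≤ p.eval (sz a) := by
    intro a
    have h1 := length_lt_sz (List.replicate (m a) ())
    have h2 := hp a
    rw [List.length_replicate] at h1
    omega
  have hit : ∀ k : ℕ, (fun s : ℕ => c * s)^[k] 1 = c ^ k := by
    intro k
    induction k with
    | zero => rfl
    | succ k ih => rw [Function.iterate_succ_apply', ih, pow_succ, mul_comm]
  have h := Poly.iterLen (l := fun a => List.replicate (m a) ()) (s := fun _ => (1 : ℕ))
    (F := fun _ s => c * s) hm (Poly.const 1)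
    (Poly.mul (Poly.const c) (Poly.snd Poly.id))
    (Polynomial.C 4 * (p * Polynomial.C c + Polynomial.C 1) + Polynomial.C 1) (by
      intro a k hk
      rw [List.length_replicate] at hk
      simp only [hit, Polynomial.eval_add, Polynomial.eval_mul, Polynomial.eval_C]
      refine (sz_nat_le _).trans ?_
      have h1 : (c ^ k).size ≤ k * c + 1 := by
        rw [Nat.size_le]
        calc c ^ k ≤ (2 ^ c) ^ k := Nat.pow_le_pow_left Nat.lt_two_pow_self.le k
          _ = 2 ^ (k * c) := by rw [← pow_mul, mul_comm]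
          _ < 2 ^ (k * c + 1) := Nat.pow_lt_pow_right (by norm_num) (by omega)
      have h2 : k * c ≤ p.eval (sz a) * c := Nat.mul_le_mul_right _ (hk.trans (hlen a))
      omega)
  refine h.congr fun a => ?_
  rw [List.length_replicate, hit]

theorem upoly_min {m n : α → ℕ} (hm : Poly m) (hn : UPoly n) : UPoly (fun a => min (m a) (n a)) :=
  UPoly.of_le (Poly.min hm hn.toPoly) hn fun _ => Nat.min_le_right _ _

theorem poly_dig (q : ℕ) {n t : α → ℕ} (hn : UPoly n) (ht : Poly t) :
    Poly (fun a => dig q (n a) (t a)) := by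
  refine Poly.map (F := fun a i => t a / q ^ (min i (n a)) % q) hn.range ?_
  exact Poly.mod (Poly.div (ht.comp (Poly.fst Poly.id))
    (poly_pow q (upoly_min (Poly.snd Poly.id) (hn.comp (Poly.fst Poly.id))))) (Poly.const q)

theorem poly_ssum (r : ℕ) {s t : α → List (List ℕ)} (hs : Poly s) (ht : Poly t) :
    Poly (fun a => ssum r (s a) (t a)) := by
  refine Poly.flatMap (F := fun a u => (t a).map fun v => vadd r u v) hs ?_
  refine Poly.map (l := fun p : α × List ℕ => t p.1) (F := fun p v => vadd r p.2 v)
    (ht.comp (Poly.fst Poly.id)) ?_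
  exact poly_vadd r (Poly.snd (Poly.fst Poly.id)) (Poly.snd Poly.id)

theorem poly_scal (r : ℕ) {a : α → ℕ} {L : α → List (List ℕ)} (ha : UPoly a) (hL : Poly L) :
    Poly (fun x => scal r (a x) (L x)) := by
  refine Poly.cons (poly_vzero ha) ?_
  refine Poly.flatMap (F := fun _ l => (List.range r).map fun c => vsmul r c l) hL ?_
  refine Poly.map (l := fun _ : α × List ℕ => List.range r) (F := fun p c => vsmul r c p.2)
    (Poly.const _) ?_
  exact poly_vsmul r (Poly.snd Poly.id) (Poly.snd (Poly.fst Poly.id))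

theorem poly_badk (r : ℕ) {a : α → ℕ} {L : α → List (List ℕ)} (ha : UPoly a) (hL : Poly L)
    (k : ℕ) : Poly (fun x => badk r (a x) (L x) k) := by
  induction k with
  | zero => exact Poly.cons (poly_vzero ha) (Poly.const [])
  | succ k ih => exact poly_ssum r (poly_scal r ha hL) ih

theorem poly_allv (r : ℕ) {a : α → ℕ} (ha : UPoly a) (hra : UPoly (fun x => r ^ a x)) :
    Poly (fun x => allv r (a x)) := by
  refine Poly.map (F := fun x t => dig r (a x) t) hra.range ?_
  exact poly_dig r (ha.comp (Poly.fst Poly.id)) (Poly.snd Poly.id)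

theorem poly_optGetD {β : Type} [TEnc β] {o : α → Option β} {d : α → β} (ho : Poly o)
    (hd : Poly d) : Poly (fun x => (o x).getD (d x)) := by
  refine (Poly.optCases (g := d) (h := fun _ z => z) ho hd (Poly.snd Poly.id)).congr fun x => ?_
  cases o x <;> rfl

theorem poly_notIn {l : α → List (List ℕ)} {z : α → List ℕ} (hl : Poly l) (hz : Poly z) :
    Poly (fun x => notIn (l x) (z x)) := by
  refine Poly.all (p := fun x u => !decide (u = z x)) hl ?_
  exact Poly.not (Poly.decide_eq (Poly.snd Poly.id) (hz.comp (Poly.fst Poly.id)))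

theorem poly_pick (r : ℕ) {a : α → ℕ} {L : α → List (List ℕ)} (ha : UPoly a)
    (hra : UPoly (fun x => r ^ a x)) (hL : Poly L) : Poly (fun x => pick r (a x) (L x)) := by
  have e1 : UPoly (fun p : α × List ℕ => a p.1) := ha.comp (Poly.fst Poly.id)
  have e2 : Poly (fun p : α × List ℕ => L p.1) := hL.comp (Poly.fst Poly.id)
  have e3 : Poly (fun p : α × List ℕ => badk r (a p.1) (L p.1) 5) := poly_badk r e1 e2 5
  have e4 : Poly (fun p : α × List ℕ => p.2) := Poly.snd Poly.id
  have e5 : Poly (fun p : α × List ℕ => notIn (badk r (a p.1) (L p.1) 5) p.2) := poly_notIn e3 e4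
  have h0 : Poly (fun x => (allv r (a x)).filter fun z => notIn (badk r (a x) (L x) 5) z) :=
    Poly.filter (p := fun x z => notIn (badk r (a x) (L x) 5) z) (poly_allv r ha hra) e5
  have h1 : Poly (fun x => ((allv r (a x)).filter
      fun z => notIn (badk r (a x) (L x) 5) z).head?) := Poly.head? h0
  exact poly_optGetD h1 (poly_vzero ha)

theorem sz_wf {r a : ℕ} {l : List ℕ} (h : WF r a l) : sz l ≤ a * (4 * r + 2) + 1 := by
  have h1 := sz_le_length_mul l (4 * r + 1) (by
    intro x hx
    have h2 := h.2 x hx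
    have h3 := sz_nat_le x
    have h4 : x.size ≤ x := Nat.size_le.2 Nat.lt_two_pow_self
    omega)
  rw [h.1] at h1
  exact h1

theorem poly_greedy (r : ℕ) (hr : 0 < r) {a m : α → ℕ} (ha : UPoly a)
    (hra : UPoly (fun x => r ^ a x)) (hm : UPoly m) : Poly (fun x => greedy r (a x) (m x)) := by
  obtain ⟨p, hp⟩ := Poly.sz_le hm
  have hlen : ∀ x, m x ≤ p.eval (sz x) := by
    intro x
    have h1 := length_lt_sz (List.replicate (m x) ())
    have h2 := hp x
    rw [List.length_replicate] at h1
    omega
  obtain ⟨p', hp'⟩ := Poly.sz_le ha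
  have hlen' : ∀ x, a x ≤ p'.eval (sz x) := by
    intro x
    have h1 := length_lt_sz (List.replicate (a x) ())
    have h2 := hp' x
    rw [List.length_replicate] at h1
    omega
  have e1 : UPoly (fun p : α × List (List ℕ) => a p.1) := ha.comp (Poly.fst Poly.id)
  have e2 : UPoly (fun p : α × List (List ℕ) => r ^ a p.1) := hra.comp (Poly.fst Poly.id)
  have e3 : Poly (fun p : α × List (List ℕ) => p.2) := Poly.snd Poly.id
  have e4 : Poly (fun p : α × List (List ℕ) => pick r (a p.1) p.2) := poly_pick r e1 e2 e3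
  have hstep : Poly (fun p : α × List (List ℕ) => p.2 ++ [pick r (a p.1) p.2]) :=
    Poly.append e3 (Poly.cons e4 (Poly.const []))
  have h := Poly.iterLen (l := fun x => List.replicate (m x) ()) (s := fun _ => ([] : List (List ℕ)))
    (F := fun x L => L ++ [pick r (a x) L]) hm (Poly.const [])
    hstep
    (p * (p' * Polynomial.C (4 * r + 2) + Polynomial.C 2) + Polynomial.C 1) (by
      intro x k hk
      rw [List.length_replicate] at hk
      simp only [Polynomial.eval_add, Polynomial.eval_mul, Polynomial.eval_C]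
      have h1 := sz_le_length_mul (greedy r (a x) k) (a x * (4 * r + 2) + 1)
        (fun l hl => sz_wf (greedy_wf hr k l hl))
      rw [greedy_length] at h1
      refine h1.trans ?_
      have h2 : k ≤ p.eval (sz x) := hk.trans (hlen x)
      have h3 : a x * (4 * r + 2) + 1 + 1 ≤ p'.eval (sz x) * (4 * r + 2) + 2 := by
        have := Nat.mul_le_mul_right (4 * r + 2) (hlen' x)
        omega
      have h4 := Nat.mul_le_mul h2 h3
      omega)
  refine h.congr fun x => ?_
  rw [List.length_replicate]
  rfl

end

end Pool.Agent.NPC.R542.Cay
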