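import Pool.Agent.R542.Base

/-!
# Core and nucleus of a graph: definitions, and the reduction from independent set
-/

set_option autoImplicit false

namespace Pool.Agent.NPC.R542

open Pool.Agent.H692R2 Pool.Agent.H673R2

section Defs

variable {V : Type}

/-- `N(X)`: the set of the vertices adjacent to some vertex of `X`. -/
def nbhd (G : SimpleGraph V) (X : Set V) : Set V := {v | ∃ u ∈ X, G.Adj u v}

/-- `d(X) = |X| - |N(X)|`. -/
noncomputable def diff (G : SimpleGraph V) (X : Set V) : ℤ :=
  (X.ncard : ℤ) - ((nbhd G X).ncard : ℤ)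

/-- `S` is a maximum independent set. -/
def IsMaxIndep (G : SimpleGraph V) (S : Set V) : Prop :=
  G.IsIndepSet S ∧ ∀ T : Set V, G.IsIndepSet T → T.ncard ≤ S.ncard

/-- `core(G)`: the intersection of all maximum independent sets. -/
def core (G : SimpleGraph V) : Set V := {v | ∀ S : Set V, IsMaxIndep G S → v ∈ S}

/-- `I` is a critical independent set: `d(J) ≤ d(I)` for all independent sets `J`. -/
def IsCritical (G : SimpleGraph V) (I : Set V) : Prop :=
  G.IsIndepSet I ∧ ∀ J : Set V, G.IsIndepSet J → diff G J ≤ diff G I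

/-- `I` is a critical independent set of largest cardinality. -/
def IsMaxCritical (G : SimpleGraph V) (I : Set V) : Prop :=
  IsCritical G I ∧ ∀ J : Set V, IsCritical G J → J.ncard ≤ I.ncard

/-- `nucleus(G)`: the intersection of all maximum critical independent sets. -/
def nucleus (G : SimpleGraph V) : Set V := {v | ∀ I : Set V, IsMaxCritical G I → v ∈ I}

end Defs

/-- If more than half of the vertices are universal then the nucleus is empty. -/
theorem nucleus_eq_empty {V : Type} [Finite V] (G : SimpleGraph V) (K : Set V)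
    (hK : ∀ x ∈ K, ∀ y, y ≠ x → G.Adj x y) (hc : Kᶜ.ncard < K.ncard) (h3 : 3 ≤ Nat.card V) :
    nucleus G = ∅ := by
  have key : ∀ J : Set V, G.IsIndepSet J → J.Nonempty → J.ncard < (nbhd G J).ncard := by
    intro J hJ hne
    by_cases hx : ∃ x ∈ J, x ∈ K
    · obtain ⟨x, hxJ, hxK⟩ := hx
      have hJx : J = {x} := by
        apply Set.Subset.antisymm
        · intro y hy
          by_contra hyx
          exact hJ hxJ hy (fun h => hyx h.symm) (hK x hxK y hyx)
        · rintro y rfl
          exact hxJ
      have h1 : ({x}ᶜ : Set V) ⊆ nbhd G J := by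
        intro y hy
        exact ⟨x, hxJ, hK x hxK y hy⟩
      have h2 := Set.ncard_le_ncard h1 (Set.toFinite _)
      rw [Set.ncard_compl, Set.ncard_singleton] at h2
      rw [hJx, Set.ncard_singleton]
      rw [hJx] at h2
      omega
    · push Not at hx
      obtain ⟨u, hu⟩ := hne
      have h1 : K ⊆ nbhd G J := by
        intro y hy
        refine ⟨u, hu, (hK y hy u ?_).symm⟩
        rintro rfl
        exact hx u hu hy
      have h2 := Set.ncard_le_ncard h1 (Set.toFinite _)
      have h3 : J ⊆ Kᶜ := fun y hy => hx y hy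
      have h4 := Set.ncard_le_ncard h3 (Set.toFinite _)
      omega
  have hd0 : diff G ∅ = 0 := by
    have : nbhd G (∅ : Set V) = ∅ := by
      ext v
      simp [nbhd]
    simp [diff, this]
  have hcrit : IsCritical G ∅ := by
    refine ⟨by simp [SimpleGraph.IsIndepSet], ?_⟩
    intro J hJ
    rw [hd0]
    rcases J.eq_empty_or_nonempty with rfl | hne
    · rw [hd0]
    · have := key J hJ hne
      unfold diff
      omega
  have hmax : IsMaxCritical G ∅ := by
    refine ⟨hcrit, ?_⟩
    intro J hJ
    rcases J.eq_empty_or_nonempty with rfl | hne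
    · rfl
    · have h1 := key J hJ.1 hne
      have h2 := hJ.2 ∅ hcrit.1
      rw [hd0] at h2
      unfold diff at h2
      omega
  ext v
  simp only [Set.mem_empty_iff_false, iff_false]
  intro hv
  exact hv ∅ hmax

/-! ### The construction -/

/-- the group of a vertex -/
def grp (n k e x : ℕ) : ℕ :=
  if x < n + e then 0 else if x < n + e + e * (k + 1) then 1 + (x - (n + e)) / (k + 1) else x + 3

/-- the number of vertices outside the big clique -/
def base (n k e : ℕ) : ℕ := n + e + e * (k + 1)

/-- the number of vertices -/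
def size (n k e : ℕ) : ℕ := 2 * base n k e + 3

/-- The graph: `H` with `e` isolated vertices, `e` independent sets of size `k + 1`, and a clique,
completely joined to each other. -/
def jgraph (H : FinGraph) (k e : ℕ) : SimpleGraph (Fin (size H.n k e)) where
  Adj x y := x ≠ y ∧ (grp H.n k e x ≠ grp H.n k e y ∨
    (x : ℕ) < H.n ∧ (y : ℕ) < H.n ∧ adjB H x y = true)
  symm := ⟨fun x y h => ⟨h.1.symm, h.2.imp Ne.symm fun h' => ⟨h'.2.1, h'.1, by
    rw [adjB_symm H y x h'.2.1 h'.1]; exact h'.2.2⟩⟩⟩
  loopless := ⟨fun x h => h.1 rfl⟩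

theorem grp_inj_big {n k e x y : ℕ} (he : e ≤ 2) (hx : base n k e ≤ x) (h : grp n k e x = grp n k e y) :
    x = y := by
  unfold base at hx
  unfold grp at h
  rw [if_neg (by omega), if_neg (by omega)] at h
  split_ifs at h with h1 h2
  · have h3 : (y - (n + e)) / (k + 1) < e := by
      rw [Nat.div_lt_iff_lt_mul (by omega)]
      omega
    omega
  · omega

theorem grp_zero {n k e x : ℕ} (he : e ≤ 2) (h : grp n k e x = 0) : x < n + e := by
  unfold grp at h
  split_ifs at h with h1 h2
  · exact h1
  · rw [Nat.add_comm] at h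
    exact absurd h (Nat.succ_ne_zero _)

variable {H : FinGraph} {k e : ℕ}

theorem nucleus_jgraph (he : e ≤ 2) : nucleus (jgraph H k e) = ∅ := by
  refine nucleus_eq_empty _ {x | base H.n k e ≤ (x : ℕ)} ?_ ?_ ?_
  · intro x hx y hne
    refine ⟨hne.symm, Or.inl fun h => hne ?_⟩
    exact (Fin.ext (grp_inj_big he hx h)).symm
  · have h1 : ({x | base H.n k e ≤ (x : ℕ)} : Set (Fin (size H.n k e)))ᶜ.ncard ≤ base H.n k e := by
      have : ({x | base H.n k e ≤ (x : ℕ)} : Set (Fin (size H.n k e)))ᶜ ⊆
          Set.range (fun i : Fin (base H.n k e) => (⟨i, by unfold size; omega⟩ :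
            Fin (size H.n k e))) := by
        intro x hx
        simp only [Set.mem_compl_iff, Set.mem_setOf_eq, not_le] at hx
        exact ⟨⟨x, hx⟩, rfl⟩
      refine (Set.ncard_le_ncard this (Set.toFinite _)).trans ?_
      rw [← Set.image_univ]
      refine (Set.ncard_image_le (Set.toFinite _)).trans ?_
      rw [Set.ncard_univ, Nat.card_eq_fintype_card, Fintype.card_fin]
    have h2 := Set.ncard_add_ncard_compl ({x | base H.n k e ≤ (x : ℕ)} :
      Set (Fin (size H.n k e)))
    rw [Nat.card_eq_fintype_card, Fintype.card_fin] at h2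
    have h3 : size H.n k e = 2 * base H.n k e + 3 := rfl
    omega
  · rw [Nat.card_eq_fintype_card, Fintype.card_fin]
    unfold size
    omega

/-- Vertices of an independent set are in the same group. -/
theorem same_grp {S : Set (Fin (size H.n k e))} (hS : (jgraph H k e).IsIndepSet S)
    {x y : Fin (size H.n k e)} (hx : x ∈ S) (hy : y ∈ S) : grp H.n k e x = grp H.n k e y := by
  by_contra h
  have hne : x ≠ y := by
    rintro rfl
    exact h rfl
  exact hS hx hy hne ⟨hne, Or.inl h⟩

theorem base_le_size (n k e : ℕ) : base n k e ≤ size n k e := by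
  unfold size; omega

/-- the embedding of the vertices of `H` -/
def emb (H : FinGraph) (k e : ℕ) (i : Fin H.n) : Fin (size H.n k e) :=
  ⟨i, by have := base_le_size H.n k e; have := i.2; unfold base at *; omega⟩

theorem emb_injective : Function.Injective (emb H k e) := by
  intro i j h
  simpa [emb, Fin.ext_iff] using h

/-- An independent set in group `0` has a bounded number of elements outside `H`. -/
theorem card_zero (hb : Bounded (H, k)) {S : Set (Fin (size H.n k e))}
    (hS : (jgraph H k e).IsIndepSet S) (h0 : ∀ x ∈ S, (x : ℕ) < H.n + e) :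
    ∃ T : Finset (Fin H.n), H.graph.IsIndepSet T ∧ T.card ≤ k ∧
      S.ncard ≤ T.card + (S ∩ {x | H.n ≤ (x : ℕ) ∧ (x : ℕ) < H.n + e}).ncard := by
  classical
  have hT : H.graph.IsIndepSet (Finset.univ.filter (fun i : Fin H.n => emb H k e i ∈ S) :
      Finset (Fin H.n)) := by
    intro i hi j hj hne hadj
    simp only [Finset.coe_filter, Finset.mem_univ, true_and, Set.mem_setOf_eq] at hi hj
    refine hS hi hj (fun h => hne (emb_injective h)) ⟨fun h => hne (emb_injective h), Or.inr
      ⟨i.2, j.2, ?_⟩⟩
    exact (adjB_iff H i j).2 hadj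
  refine ⟨_, hT, hb _ hT, ?_⟩
  have hsub : S ⊆ (emb H k e '' ((Finset.univ.filter (fun i : Fin H.n => emb H k e i ∈ S) :
      Finset (Fin H.n)) : Set (Fin H.n))) ∪ (S ∩ {x | H.n ≤ (x : ℕ) ∧ (x : ℕ) < H.n + e}) := by
    intro x hx
    by_cases h : (x : ℕ) < H.n
    · left
      refine ⟨⟨x, h⟩, ?_, rfl⟩
      simp only [Finset.coe_filter, Finset.mem_univ, true_and, Set.mem_setOf_eq]
      exact hx
    · right
      exact ⟨hx, not_lt.1 h, h0 x hx⟩
  refine (Set.ncard_le_ncard hsub (Set.toFinite _)).trans ((Set.ncard_union_le _ _).trans ?_)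
  refine Nat.add_le_add_right ?_ _
  refine (Set.ncard_image_le (Set.toFinite _)).trans ?_
  rw [Set.ncard_coe_finset]

theorem ncard_block (N a l : ℕ) (h : a + l ≤ N) :
    ({x | a ≤ (x : ℕ) ∧ (x : ℕ) < a + l} : Set (Fin N)).ncard = l := by
  have : ({x | a ≤ (x : ℕ) ∧ (x : ℕ) < a + l} : Set (Fin N)) =
      Set.range (fun i : Fin l => (⟨a + i, by omega⟩ : Fin N)) := by
    ext x
    constructor
    · rintro ⟨h1, h2⟩
      exact ⟨⟨x - a, by omega⟩, Fin.ext (by simp; omega)⟩
    · rintro ⟨i, rfl⟩
      have := i.2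
      simp only [Set.mem_setOf_eq]
      omega
  rw [this, ← Set.image_univ, Set.ncard_image_of_injective, Set.ncard_univ,
    Nat.card_eq_fintype_card, Fintype.card_fin]
  intro i j hij
  simp only [Fin.mk.injEq] at hij
  exact Fin.ext (by omega)

/-- the block number `c < e` of `k + 1` vertices -/
def blk (H : FinGraph) (k e c : ℕ) : Set (Fin (size H.n k e)) :=
  {x | H.n + e + c * (k + 1) ≤ (x : ℕ) ∧ (x : ℕ) < H.n + e + c * (k + 1) + (k + 1)}

theorem blk_le {c : ℕ} (hc : c < e) : H.n + e + c * (k + 1) + (k + 1) ≤ base H.n k e := by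
  unfold base
  have : (c + 1) * (k + 1) ≤ e * (k + 1) := Nat.mul_le_mul_right _ hc
  have e1 : (c + 1) * (k + 1) = c * (k + 1) + (k + 1) := by ring
  omega

theorem ncard_blk {c : ℕ} (hc : c < e) : (blk H k e c).ncard = k + 1 :=
  ncard_block _ _ _ ((blk_le hc).trans (base_le_size _ _ _))

theorem grp_blk {c : ℕ} (hc : c < e) {x : Fin (size H.n k e)} :
    x ∈ blk H k e c ↔ grp H.n k e x = 1 + c := by
  have hb := blk_le (H := H) (k := k) hc
  unfold base at hb
  unfold blk grp
  simp only [Set.mem_setOf_eq]
  constructor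
  · rintro ⟨h1, h2⟩
    rw [if_neg (by omega), if_pos (by omega)]
    congr 1
    rw [Nat.div_eq_iff (by omega)]
    constructor
    · omega
    · omega
  · intro h
    split_ifs at h with h1 h2
    · omega
    · have h3 : ((x : ℕ) - (H.n + e)) / (k + 1) = c := by omega
      have h4 := Nat.div_add_mod ((x : ℕ) - (H.n + e)) (k + 1)
      have h5 := Nat.mod_lt ((x : ℕ) - (H.n + e)) (show 0 < k + 1 by omega)
      rw [h3] at h4
      have h6 : (k + 1) * c = c * (k + 1) := by ring
      omega
    · exfalso
      have h7 : e ≤ e * (k + 1) := by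
        calc e = e * 1 := (mul_one e).symm
          _ ≤ e * (k + 1) := Nat.mul_le_mul_left e (by omega)
      omega

theorem indep_blk {c : ℕ} (hc : c < e) : (jgraph H k e).IsIndepSet (blk H k e c) := by
  intro x hx y hy hne hadj
  rcases hadj.2 with h | ⟨h, _⟩
  · exact h (((grp_blk hc).1 hx).trans ((grp_blk hc).1 hy).symm)
  · have h1 := hx.1
    omega

/-- An independent set is contained in group `0`, or in a block, or it has at most one element. -/
theorem cases_indep (he : e ≤ 2) {S : Set (Fin (size H.n k e))}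
    (hS : (jgraph H k e).IsIndepSet S) :
    (∀ x ∈ S, (x : ℕ) < H.n + e) ∨ (∃ c < e, S ⊆ blk H k e c) ∨ S.ncard ≤ 1 := by
  rcases S.eq_empty_or_nonempty with rfl | ⟨x, hx⟩
  · left; simp
  by_cases h1 : (x : ℕ) < H.n + e
  · left
    intro y hy
    have h2 := same_grp hS hx hy
    have h3 : grp H.n k e x = 0 := by unfold grp; rw [if_pos h1]
    exact grp_zero he (h2.symm.trans h3)
  · by_cases h2 : (x : ℕ) < base H.n k e
    · right; left
      unfold base at h2
      have h3 : ((x : ℕ) - (H.n + e)) / (k + 1) < e := by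
        rw [Nat.div_lt_iff_lt_mul (by omega)]
        omega
      refine ⟨_, h3, fun y hy => ?_⟩
      rw [grp_blk h3, ← same_grp hS hx hy]
      unfold grp
      rw [if_neg h1, if_pos h2]
    · right; right
      have h3 : S ⊆ {x} := by
        intro y hy
        exact (Fin.ext (grp_inj_big he (not_lt.1 h2) (same_grp hS hx hy))).symm
      simpa using Set.ncard_le_ncard h3 (Set.toFinite _)

/-- The extra vertices. -/
theorem ncard_extra : ({x | H.n ≤ (x : ℕ) ∧ (x : ℕ) < H.n + e} : Set (Fin (size H.n k e))).ncard = e :=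
  ncard_block _ _ _ (by have := base_le_size H.n k e; unfold base at *; omega)

theorem indep_bound (he : e ≤ 2) (h1 : 1 ≤ e) (hb : Bounded (H, k)) {S : Set (Fin (size H.n k e))}
    (hS : (jgraph H k e).IsIndepSet S) : S.ncard ≤ k + e := by
  rcases cases_indep he hS with h | ⟨c, hc, h⟩ | h
  · obtain ⟨T, _, h2, h3⟩ := card_zero hb hS h
    have h4 := Set.ncard_le_ncard (Set.inter_subset_right (s := S)
      (t := {x | H.n ≤ (x : ℕ) ∧ (x : ℕ) < H.n + e})) (Set.toFinite _)
    rw [ncard_extra] at h4
    omega
  · have := Set.ncard_le_ncard h (Set.toFinite _)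
    rw [ncard_blk hc] at this
    omega
  · omega

/-- An independent set of `H` with the extra vertices. -/
def ext (H : FinGraph) (k e : ℕ) (T : Finset (Fin H.n)) : Set (Fin (size H.n k e)) :=
  (emb H k e '' (T : Set (Fin H.n))) ∪ {x | H.n ≤ (x : ℕ) ∧ (x : ℕ) < H.n + e}

theorem ncard_ext (T : Finset (Fin H.n)) : (ext H k e T).ncard = T.card + e := by
  unfold ext
  rw [Set.ncard_union_eq, ncard_extra, Set.ncard_image_of_injective _ emb_injective,
    Set.ncard_coe_finset]
  rw [Set.disjoint_left]
  rintro _ ⟨i, _, rfl⟩ ⟨h, _⟩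
  have := i.2
  simp only [emb] at h
  omega

theorem ext_lt {T : Finset (Fin H.n)} {x : Fin (size H.n k e)} (hx : x ∈ ext H k e T) :
    (x : ℕ) < H.n + e := by
  rcases hx with ⟨i, _, rfl⟩ | h
  · have := i.2
    simp only [emb]
    omega
  · exact h.2

theorem indep_ext {T : Finset (Fin H.n)} (hT : H.graph.IsIndepSet T) :
    (jgraph H k e).IsIndepSet (ext H k e T) := by
  intro x hx y hy hne hadj
  rcases hadj.2 with h | ⟨h1, h2, h3⟩
  · apply h
    unfold grp
    rw [if_pos (ext_lt hx), if_pos (ext_lt hy)]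
  · rcases hx with ⟨i, hi, rfl⟩ | hx
    · rcases hy with ⟨j, hj, rfl⟩ | hy
      · have hij : i ≠ j := fun h => hne (by rw [h])
        exact hT hi hj hij ((adjB_iff H i j).1 h3)
      · have := hy.1
        omega
    · have := hx.1
      omega

/-- First reduction: the core is empty iff there is an independent set of size `k`. -/
theorem core_one (hb : Bounded (H, k)) : core (jgraph H k 1) = ∅ ↔ HasIndep (H, k) := by
  constructor
  · intro hcore
    by_contra hno
    have hk : 1 ≤ k := by
      by_contra hk
      apply hno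
      refine ⟨∅, by simp [SimpleGraph.IsIndepSet], ?_⟩
      simp only [Finset.card_empty]
      omega
    have hx0 : (⟨H.n + 1, by unfold size base; omega⟩ : Fin (size H.n k 1)) ∈
        core (jgraph H k 1) := by
      intro S hS
      have h1 := hS.2 _ (indep_blk (H := H) (k := k) (show 0 < 1 by omega))
      rw [ncard_blk (by omega)] at h1
      rcases cases_indep (by omega) hS.1 with h | ⟨c, hc, h⟩ | h
      · exfalso
        obtain ⟨T, hT, h2, h3⟩ := card_zero hb hS.1 h
        have h4 := Set.ncard_le_ncard (Set.inter_subset_right (s := S)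
          (t := {x | H.n ≤ (x : ℕ) ∧ (x : ℕ) < H.n + 1})) (Set.toFinite _)
        rw [ncard_extra] at h4
        exact hno ⟨T, hT, le_antisymm h2 (by omega)⟩
      · have h5 := Set.eq_of_subset_of_ncard_le h (by rw [ncard_blk hc]; omega) (Set.toFinite _)
        rw [h5]
        unfold blk
        simp only [Set.mem_setOf_eq]
        have : c = 0 := by omega
        subst this
        omega
      · omega
    rw [hcore] at hx0
    exact hx0
  · rintro ⟨T, hT, hcard⟩
    have hm1 : IsMaxIndep (jgraph H k 1) (ext H k 1 T) := by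
      refine ⟨indep_ext hT, fun S hS => ?_⟩
      rw [ncard_ext]
      simp only at hcard
      rw [hcard]
      exact indep_bound (by omega) (by omega) hb hS
    have hm2 : IsMaxIndep (jgraph H k 1) (blk H k 1 0) := by
      refine ⟨indep_blk (by omega), fun S hS => ?_⟩
      rw [ncard_blk (by omega)]
      exact indep_bound (by omega) (by omega) hb hS
    ext v
    simp only [Set.mem_empty_iff_false, iff_false]
    intro hv
    have h1 := ext_lt (hv _ hm1)
    have h2 := (hv _ hm2).1
    omega

/-- Second reduction: the core is empty iff there is no independent set of size `k`. -/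
theorem core_two (hb : Bounded (H, k)) : core (jgraph H k 2) = ∅ ↔ ¬ HasIndep (H, k) := by
  constructor
  · rintro hcore ⟨T, hT, hcard⟩
    simp only at hcard
    have hx0 : (⟨H.n, by unfold size base; omega⟩ : Fin (size H.n k 2)) ∈
        core (jgraph H k 2) := by
      intro S hS
      have h1 := hS.2 _ (indep_ext (k := k) (e := 2) hT)
      rw [ncard_ext, hcard] at h1
      rcases cases_indep (by omega) hS.1 with h | ⟨c, hc, h⟩ | h
      · obtain ⟨T', _, h2, h3⟩ := card_zero hb hS.1 h
        have h4 : (S ∩ {x : Fin (size H.n k 2) | H.n ≤ (x : ℕ) ∧ (x : ℕ) < H.n + 2}) =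
            {x : Fin (size H.n k 2) | H.n ≤ (x : ℕ) ∧ (x : ℕ) < H.n + 2} :=
          Set.eq_of_subset_of_ncard_le Set.inter_subset_right
            (by rw [ncard_extra (H := H) (k := k) (e := 2)]; omega) (Set.toFinite _)
        have h5 : (⟨H.n, by unfold size base; omega⟩ : Fin (size H.n k 2)) ∈
            ({x | H.n ≤ (x : ℕ) ∧ (x : ℕ) < H.n + 2} : Set (Fin (size H.n k 2))) := by
          simp
        rw [← h4] at h5
        exact h5.1
      · exfalso
        have := Set.ncard_le_ncard h (Set.toFinite _)
        rw [ncard_blk hc] at this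
        omega
      · omega
    rw [hcore] at hx0
    exact hx0
  · intro hno
    have hk : 1 ≤ k := by
      by_contra hk
      apply hno
      refine ⟨∅, by simp [SimpleGraph.IsIndepSet], ?_⟩
      simp only [Finset.card_empty]
      omega
    have hbound : ∀ S : Set (Fin (size H.n k 2)), (jgraph H k 2).IsIndepSet S →
        S.ncard ≤ k + 1 := by
      intro S hS
      rcases cases_indep (by omega) hS with h | ⟨c, hc, h⟩ | h
      · obtain ⟨T, hT, h2, h3⟩ := card_zero hb hS h
        have h4 := Set.ncard_le_ncard (Set.inter_subset_right (s := S)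
          (t := {x | H.n ≤ (x : ℕ) ∧ (x : ℕ) < H.n + 2})) (Set.toFinite _)
        rw [ncard_extra] at h4
        have h5 : T.card ≠ k := fun h => hno ⟨T, hT, h⟩
        omega
      · have := Set.ncard_le_ncard h (Set.toFinite _)
        rw [ncard_blk hc] at this
        omega
      · omega
    have hm : ∀ c < 2, IsMaxIndep (jgraph H k 2) (blk H k 2 c) := by
      intro c hc
      refine ⟨indep_blk hc, fun S hS => ?_⟩
      rw [ncard_blk hc]
      exact hbound S hS
    ext v
    simp only [Set.mem_empty_iff_false, iff_false]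
    intro hv
    have h1 := (grp_blk (show 0 < 2 by omega)).1 (hv _ (hm 0 (by omega)))
    have h2 := (grp_blk (show 1 < 2 by omega)).1 (hv _ (hm 1 (by omega)))
    omega

theorem poly_grp {α : Type} [TEnc α] {n k x : α → ℕ} (e : ℕ) (hn : Poly n) (hk : Poly k)
    (hx : Poly x) : Poly (fun a => grp (n a) (k a) e (x a)) := by
  have h1 : Poly (fun a => n a + e) := Poly.add hn (Poly.const e)
  have h2 : Poly (fun a => k a + 1) := Poly.succ hk
  exact Poly.ite (Poly.decide_lt hx h1) (Poly.const 0)
    (Poly.ite (Poly.decide_lt hx (Poly.add h1 (Poly.mul (Poly.const e) h2)))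
      (Poly.add (Poly.const 1) (Poly.div (Poly.sub hx h1) h2)) (Poly.add hx (Poly.const 3)))

/-- The instances are computed in polynomial time, if `k ≤ n`. -/
theorem poly_jgraph (e : ℕ) : Poly (fun I : FinGraph × ℕ =>
    (⟨size I.1.n (min I.2 I.1.n) e, jgraph I.1 (min I.2 I.1.n) e⟩ : FinGraph)) := by
  have hk : UPoly (fun I : FinGraph × ℕ => min I.2 I.1.n) :=
    UPoly.of_le (Poly.min (Poly.snd Poly.id) (poly_n (Poly.fst Poly.id)))
      (upoly_n (Poly.fst Poly.id)) fun a => min_le_right _ _
  have hn : UPoly (fun I : FinGraph × ℕ => I.1.n) := upoly_n (Poly.fst Poly.id)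
  refine poly_finGraph (b := fun I x y => !(decide (x = y)) &&
    (!(decide (grp I.1.n (min I.2 I.1.n) e x = grp I.1.n (min I.2 I.1.n) e y)) ||
      (decide (x < I.1.n) && (decide (y < I.1.n) && adjB I.1 x y)))) ?_ ?_ ?_
  · have hb : UPoly (fun I : FinGraph × ℕ => base I.1.n (min I.2 I.1.n) e) :=
      UPoly.add (UPoly.add hn (UPoly.const e)) (UPoly.mul (UPoly.const e)
        (UPoly.add hk (UPoly.const 1)))
    exact UPoly.add (UPoly.mul (UPoly.const 2) hb) (UPoly.const 3)
  · have hx : Poly (fun p : ((FinGraph × ℕ) × ℕ) × ℕ => p.1.2) := Poly.snd (Poly.fst Poly.id)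
    have hy : Poly (fun p : ((FinGraph × ℕ) × ℕ) × ℕ => p.2) := Poly.snd Poly.id
    have hI : Poly (fun p : ((FinGraph × ℕ) × ℕ) × ℕ => p.1.1) := Poly.fst (Poly.fst Poly.id)
    have hn' : Poly (fun p : ((FinGraph × ℕ) × ℕ) × ℕ => p.1.1.1.n) :=
      Poly.comp (g := fun I : FinGraph × ℕ => I.1.n) hn.toPoly hI
    have hk' : Poly (fun p : ((FinGraph × ℕ) × ℕ) × ℕ => min p.1.1.2 p.1.1.1.n) :=
      Poly.comp (g := fun I : FinGraph × ℕ => min I.2 I.1.n) hk.toPoly hI
    exact Poly.and (Poly.not (Poly.decide_eq hx hy)) (Poly.or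
      (Poly.not (Poly.decide_eq (poly_grp e hn' hk' hx) (poly_grp e hn' hk' hy)))
      (Poly.and (Poly.decide_lt hx hn') (Poly.and (Poly.decide_lt hy hn')
        (poly_adjB (Poly.fst hI) hx hy))))
  · intro I x y
    simp only [jgraph, Bool.and_eq_true, Bool.not_eq_true', decide_eq_false_iff_not,
      Bool.or_eq_true, decide_eq_true_eq]
    rw [ne_eq, Fin.ext_iff]

/-- The decision problem: is the core equal to the nucleus? -/
def CoreEqNucleus (G : FinGraph) : Prop := core G.graph = nucleus G.graph

theorem hardI_core : HardI CoreEqNucleus := by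
  refine HardPr.toHardI (Pr := fun _ => True) (hardPr_indep.trans (poly_jgraph 1)
    (fun _ _ => trivial) ?_)
  rintro ⟨H, k⟩ ⟨hb, hn⟩
  simp only at hn
  unfold CoreEqNucleus
  simp only
  have hk : min k H.n = k := by omega
  rw [hk, nucleus_jgraph (by omega), core_one hb]

theorem hardI_not_core : HardI (fun G => ¬ CoreEqNucleus G) := by
  refine HardPr.toHardI (Pr := fun _ => True) (hardPr_indep.trans (poly_jgraph 2)
    (fun _ _ => trivial) ?_)
  rintro ⟨H, k⟩ ⟨hb, hn⟩
  simp only at hn
  unfold CoreEqNucleus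
  simp only
  have hk : min k H.n = k := by omega
  rw [hk, nucleus_jgraph (by omega), core_two hb, not_not]

end Pool.Agent.NPC.R542
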