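import Pool.Agent.R542.Base
import Pool.Agent.W982.HoleDefs

/-!
# Balanced skew partitions: definitions and the reduction from independent set
-/

set_option autoImplicit false

namespace Pool.Agent.NPC.R542.Skew

open Pool.Agent.H692R2 Pool.Agent.H673R2 Pool.Agent.W982.Hole Pool.Agent.NPC.R542

/-- The classes `A = 0`, `B = 1`, `C = 2`, `D = 3` of the labelling `p` form a skew partition of `G` of
balanced size with constant `c`: they are nonempty, no vertex of `A` is adjacent to a vertex of `B`,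
every vertex of `C` is adjacent to every vertex of `D`, and every class has at least `n / c`
vertices, where `n` is the number of vertices. -/
def IsBalancedSkew {V : Type} (c : ℝ) (G : SimpleGraph V) (p : V → Fin 4) : Prop :=
  (∀ i, ∃ v, p v = i) ∧
  (∀ u v, p u = 0 → p v = 1 → ¬ G.Adj u v) ∧
  (∀ u v, p u = 2 → p v = 3 → G.Adj u v) ∧
  ∀ i, (Nat.card V : ℝ) / c ≤ ({v | p v = i} : Set V).ncard

theorem ncard_block (N a l : ℕ) (h : a + l ≤ N) :
    ({x | a ≤ (x : ℕ) ∧ (x : ℕ) < a + l} : Set (Fin N)).ncard = l := by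
  have : ({x | a ≤ (x : ℕ) ∧ (x : ℕ) < a + l} : Set (Fin N)) =
      Set.range (fun i : Fin l => (⟨a + i, by omega⟩ : Fin N)) := by
    ext x
    constructor
    · rintro ⟨h1, h2⟩
      exact ⟨⟨x - a, by omega⟩, Fin.ext (by simp; omega)⟩
    · rintro ⟨i, rfl⟩
      have := i.2
      simp only [Set.mem_setOf_eq]
      omega
  rw [this, ← Set.image_univ, Set.ncard_image_of_injective, Set.ncard_univ,
    Nat.card_eq_fintype_card, Fintype.card_fin]
  intro i j hij
  simp only [Fin.mk.injEq] at hij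
  exact Fin.ext (by omega)

/-! ### The construction -/

/-- the common size of the parts `C` and `D` -/
def T (n : ℕ) : ℕ := n * n + n + 1

/-- end of the left side -/
def a1 (n k : ℕ) : ℕ := n + (n * n + k + 1)

/-- end of the pairs -/
def a2 (n k : ℕ) : ℕ := a1 n k + n * n

/-- end of the right side -/
def a3 (n k : ℕ) : ℕ := a2 n k + (T n - (k * k - k))

/-- `x` is a left vertex, `y` is a right vertex, and they are adjacent -/
noncomputable def lr (H : FinGraph) (k x y : ℕ) : Bool :=
  decide (x < a1 H.n k) && ((decide (a1 H.n k ≤ y) && (decide (y < a2 H.n k) &&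
    (!(decide ((y - a1 H.n k) / H.n = (y - a1 H.n k) % H.n)) &&
    (!(adjB H ((y - a1 H.n k) / H.n) ((y - a1 H.n k) % H.n)) &&
    (decide (H.n ≤ x) || (!(decide (x = (y - a1 H.n k) / H.n)) &&
      !(decide (x = (y - a1 H.n k) % H.n)))))))) ||
    (decide (a2 H.n k ≤ y) && decide (y < a3 H.n k)))

theorem lr_iff {H : FinGraph} {k x y : ℕ} : lr H k x y = true ↔
    x < a1 H.n k ∧ ((a1 H.n k ≤ y ∧ y < a2 H.n k ∧
      (y - a1 H.n k) / H.n ≠ (y - a1 H.n k) % H.n ∧
      adjB H ((y - a1 H.n k) / H.n) ((y - a1 H.n k) % H.n) = false ∧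
      (H.n ≤ x ∨ x ≠ (y - a1 H.n k) / H.n ∧ x ≠ (y - a1 H.n k) % H.n)) ∨
      a2 H.n k ≤ y ∧ y < a3 H.n k) := by
  simp [lr]

theorem lr_lt {H : FinGraph} {k x y : ℕ} (h : lr H k x y = true) :
    x < a1 H.n k ∧ a1 H.n k ≤ y ∧ y < a3 H.n k := by
  rw [lr_iff] at h
  have e2 : a2 H.n k = a1 H.n k + H.n * H.n := rfl
  have e3 : a3 H.n k = a2 H.n k + (T H.n - (k * k - k)) := rfl
  omega

/-- The bipartite graph. -/
def sgraph (H : FinGraph) (k N : ℕ) : SimpleGraph (Fin N) where
  Adj x y := lr H k x y = true ∨ lr H k y x = true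
  symm := ⟨fun x y h => h.symm⟩
  loopless := ⟨fun x h => by
    rcases h with h | h <;> · have := lr_lt h; omega⟩

theorem bipartite (H : FinGraph) (k N : ℕ) : (sgraph H k N).IsBipartite := by
  refine ⟨SimpleGraph.Coloring.mk (fun x => if (x : ℕ) < a1 H.n k then 0 else 1) ?_⟩
  rintro x y (h | h)
  · have := lr_lt h
    rw [if_pos this.1, if_neg (by omega)]
    decide
  · have := lr_lt h
    rw [if_neg (by omega), if_pos this.1]
    decide

variable {H : FinGraph} {k N : ℕ}

/-- the key step of the backward direction -/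
theorem back_core (hn : H.n = 3 * k) (hk : 2 ≤ k) {C D : Set (Fin N)} {x₀ : Fin N}
    (hx₀ : x₀ ∈ C) (hx₀' : (x₀ : ℕ) < a1 H.n k)
    (hCD : ∀ x ∈ C, ∀ y ∈ D, (sgraph H k N).Adj x y) (hC : T H.n ≤ C.ncard)
    (hD : T H.n ≤ D.ncard) : HasIndep (H, k) := by
  classical
  have hT : 0 < T H.n := by unfold T; omega
  obtain ⟨d₀, hd₀⟩ : D.Nonempty := by
    rw [Set.nonempty_iff_ne_empty]
    rintro rfl
    simp at hD
    omega
  have hD1 : ∀ y ∈ D, a1 H.n k ≤ (y : ℕ) := by
    intro y hy
    rcases hCD x₀ hx₀ y hy with h | h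
    · exact (lr_lt h).2.1
    · have := (lr_lt h).2.1
      omega
  have hlr : ∀ x ∈ C, ∀ y ∈ D, lr H k x y = true := by
    intro x hx y hy
    rcases hCD x hx y hy with h | h
    · exact h
    · have := (lr_lt h).1
      have := hD1 y hy
      omega
  -- the set `I`
  set I : Finset (Fin H.n) := Finset.univ.filter
    (fun i : Fin H.n => ∀ x ∈ C, (x : ℕ) ≠ i) with hI
  have hIk : I.card ≤ k := by
    have h1 : C ⊆ (C ∩ {x | (x : ℕ) < H.n}) ∪
        {x | H.n ≤ (x : ℕ) ∧ (x : ℕ) < H.n + (H.n * H.n + k + 1)} := by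
      intro x hx
      by_cases h : (x : ℕ) < H.n
      · exact Or.inl ⟨hx, h⟩
      · exact Or.inr ⟨not_lt.1 h, (lr_lt (hlr x hx d₀ hd₀)).1⟩
    have h2 : ({x | H.n ≤ (x : ℕ) ∧ (x : ℕ) < H.n + (H.n * H.n + k + 1)} :
        Set (Fin N)).ncard ≤ H.n * H.n + k + 1 := by
      have h3 : ({x | H.n ≤ (x : ℕ) ∧ (x : ℕ) < H.n + (H.n * H.n + k + 1)} : Set (Fin N)).ncard ≤
          (Finset.Ico H.n (H.n + (H.n * H.n + k + 1))).card := by
        rw [← Set.ncard_coe_finset]
        refine Set.ncard_le_ncard_of_injOn (fun x : Fin N => (x : ℕ)) ?_ ?_ (Set.toFinite _)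
        · intro x hx
          simpa using hx
        · intro x _ y _ h
          exact Fin.ext h
      rw [Nat.card_Ico] at h3
      omega
    have h4 := (Set.ncard_le_ncard h1 (Set.toFinite _)).trans (Set.ncard_union_le _ _)
    have h5 : (C ∩ {x | (x : ℕ) < H.n}).ncard + I.card ≤ H.n := by
      have h6 : (C ∩ {x | (x : ℕ) < H.n}).ncard ≤ (Iᶜ).card := by
        rw [← Set.ncard_coe_finset]
        refine Set.ncard_le_ncard_of_injOn
          (fun x : Fin N => if h : (x : ℕ) < H.n then (⟨x, h⟩ : Fin H.n) else ⟨0, by omega⟩)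
          ?_ ?_ (Set.toFinite _)
        · rintro x ⟨hx, hx'⟩
          simp only [Set.mem_setOf_eq] at hx'
          rw [dif_pos hx']
          simp only [hI, Finset.coe_compl, Finset.coe_filter, Finset.mem_univ, true_and,
            Set.mem_compl_iff, Set.mem_setOf_eq, not_forall]
          exact ⟨x, hx, by simp⟩
        · rintro x ⟨hx, hx'⟩ y ⟨hy, hy'⟩ h
          simp only [Set.mem_setOf_eq] at hx' hy'
          simp only [dif_pos hx', dif_pos hy', Fin.mk.injEq] at h
          exact Fin.ext h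
      rw [Finset.card_compl, Fintype.card_fin] at h6
      have h7 : I.card ≤ H.n := by
        have := Finset.card_le_univ I
        simpa using this
      omega
    have e1 : T H.n = H.n * H.n + H.n + 1 := rfl
    omega
  -- some original vertex is in `C`
  obtain ⟨x₁, hx₁, hx₁'⟩ : ∃ x ∈ C, (x : ℕ) < H.n := by
    by_contra hno
    push Not at hno
    have : I = Finset.univ := by
      rw [hI, Finset.filter_eq_self]
      intro i _ x hx h
      have h1 := hno x hx
      have := i.2
      omega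
    rw [this, Finset.card_univ, Fintype.card_fin] at hIk
    omega
  have hpair : ∀ y ∈ D, (y : ℕ) < a2 H.n k →
      ((y : ℕ) - a1 H.n k) / H.n < H.n ∧ ((y : ℕ) - a1 H.n k) % H.n < H.n := by
    intro y hy hy2
    have h1 := hD1 y hy
    have e2 : a2 H.n k = a1 H.n k + H.n * H.n := rfl
    refine ⟨?_, Nat.mod_lt _ (by omega)⟩
    rw [Nat.div_lt_iff_lt_mul (by omega)]
    omega
  let f : Fin N → Fin H.n × Fin H.n := fun y =>
    (⟨(((y : ℕ) - a1 H.n k) / H.n) % H.n, Nat.mod_lt _ (by omega)⟩,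
      ⟨((y : ℕ) - a1 H.n k) % H.n, Nat.mod_lt _ (by omega)⟩)
  have hf1 : ∀ y ∈ D, (y : ℕ) < a2 H.n k → ((f y).1 : ℕ) = ((y : ℕ) - a1 H.n k) / H.n := by
    intro y hy hy2
    exact Nat.mod_eq_of_lt (hpair y hy hy2).1
  set P : Finset (Fin H.n × Fin H.n) := I.offDiag.filter (fun p => ¬ H.graph.Adj p.1 p.2) with hP
  have hDP : (D ∩ {y | (y : ℕ) < a2 H.n k}).ncard ≤ P.card := by
    rw [← Set.ncard_coe_finset]
    refine Set.ncard_le_ncard_of_injOn f ?_ ?_ (Set.toFinite _)
    · rintro y ⟨hy, hy'⟩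
      simp only [Set.mem_setOf_eq] at hy'
      have hmem : ∀ i : Fin H.n, ((i : ℕ) = ((y : ℕ) - a1 H.n k) / H.n ∨
          (i : ℕ) = ((y : ℕ) - a1 H.n k) % H.n) → i ∈ I := by
        intro i hi
        rw [hI, Finset.mem_filter]
        refine ⟨Finset.mem_univ _, fun x hx hxi => ?_⟩
        have h1 := (lr_iff.1 (hlr x hx y hy)).2
        have := i.2
        rcases h1 with ⟨_, _, _, _, h2⟩ | ⟨h2, _⟩
        · omega
        · omega
      have h3 := (lr_iff.1 (hlr x₁ hx₁ y hy)).2
      simp only [hP, Finset.coe_filter, Finset.mem_offDiag, Set.mem_setOf_eq]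
      have h1' := hf1 y hy hy'
      have h2' : ((f y).2 : ℕ) = ((y : ℕ) - a1 H.n k) % H.n := rfl
      rcases h3 with ⟨_, _, h4, h5, _⟩ | ⟨h2, _⟩
      · refine ⟨⟨hmem _ (Or.inl h1'), hmem _ (Or.inr h2'), ?_⟩, ?_⟩
        · intro h
          rw [h, h2'] at h1'
          exact h4 h1'.symm
        · intro h
          rw [← adjB_iff, h1', h2', h5] at h
          simp at h
      · omega
    · rintro y ⟨hy, hy'⟩ z ⟨hz, hz'⟩ h
      simp only [Set.mem_setOf_eq] at hy' hz'
      have h1 := hf1 y hy hy'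
      have h2 := hf1 z hz hz'
      rw [h] at h1
      have h3 : ((y : ℕ) - a1 H.n k) % H.n = ((z : ℕ) - a1 H.n k) % H.n := by
        have := congrArg (fun p : Fin H.n × Fin H.n => (p.2 : ℕ)) h
        exact this
      have h4 := Nat.div_add_mod ((y : ℕ) - a1 H.n k) H.n
      have h5 := Nat.div_add_mod ((z : ℕ) - a1 H.n k) H.n
      rw [← h1, h2, h3] at h4
      have := hD1 y hy
      have := hD1 z hz
      exact Fin.ext (by omega)
  have hkk : k ≤ k * k := Nat.le_mul_self k
  have hDcard : k * k - k ≤ (D ∩ {y | (y : ℕ) < a2 H.n k}).ncard := by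
    have h1 : D ⊆ (D ∩ {y | (y : ℕ) < a2 H.n k}) ∪
        {y | a2 H.n k ≤ (y : ℕ) ∧ (y : ℕ) < a3 H.n k} := by
      intro y hy
      by_cases h : (y : ℕ) < a2 H.n k
      · exact Or.inl ⟨hy, h⟩
      · exact Or.inr ⟨not_lt.1 h, (lr_lt (hlr x₀ hx₀ y hy)).2.2⟩
    have h2 : ({y | a2 H.n k ≤ (y : ℕ) ∧ (y : ℕ) < a3 H.n k} :
        Set (Fin N)).ncard ≤ T H.n - (k * k - k) := by
      have h3 : ({y | a2 H.n k ≤ (y : ℕ) ∧ (y : ℕ) < a3 H.n k} : Set (Fin N)).ncard ≤
          (Finset.Ico (a2 H.n k) (a3 H.n k)).card := by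
        rw [← Set.ncard_coe_finset]
        refine Set.ncard_le_ncard_of_injOn (fun x : Fin N => (x : ℕ)) ?_ ?_ (Set.toFinite _)
        · intro x hx
          simpa using hx
        · intro x _ y _ h
          exact Fin.ext h
      rw [Nat.card_Ico] at h3
      have e3 : a3 H.n k = a2 H.n k + (T H.n - (k * k - k)) := rfl
      omega
    have h4 := (Set.ncard_le_ncard h1 (Set.toFinite _)).trans (Set.ncard_union_le _ _)
    have h5 : k * k - k ≤ T H.n := by
      unfold T
      rw [hn]
      have : k * k ≤ 3 * k * (3 * k) := Nat.mul_le_mul (by omega) (by omega)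
      omega
    omega
  have hPI : P ⊆ I.offDiag := Finset.filter_subset _ _
  have hoff : I.offDiag.card = I.card * I.card - I.card := Finset.offDiag_card I
  have hcardI : I.card = k := by
    by_contra hne
    have hlt : I.card + 1 ≤ k := by omega
    have h1 : k * k - k ≤ I.card * I.card - I.card := by
      rw [← hoff]
      exact hDcard.trans (hDP.trans (Finset.card_le_card hPI))
    have h2 : I.card * I.card - I.card < k * k - k := by
      obtain ⟨m, rfl⟩ : ∃ m, k = m + 1 := ⟨k - 1, by omega⟩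
      have h3 : I.card ≤ m := by omega
      have h4 : (m + 1) * (m + 1) - (m + 1) = m * m + m := by
        have : (m + 1) * (m + 1) = m * m + 2 * m + 1 := by ring
        omega
      have h5 : I.card * I.card ≤ m * m := Nat.mul_le_mul h3 h3
      rw [h4]
      omega
    omega
  have hPeq : P = I.offDiag := by
    apply Finset.eq_of_subset_of_card_le hPI
    rw [hoff, hcardI]
    exact hDcard.trans hDP
  refine ⟨I, ?_, hcardI⟩
  intro i hi j hj hij hadj
  have h1 : (i, j) ∈ I.offDiag := Finset.mem_offDiag.2 ⟨hi, hj, hij⟩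
  rw [← hPeq, hP, Finset.mem_filter] at h1
  exact h1.2 hadj

theorem back (hn : H.n = 3 * k) {p : Fin N → Fin 4} (h0 : ∀ i, ∃ v, p v = i)
    (hCD : ∀ u v, p u = 2 → p v = 3 → (sgraph H k N).Adj u v)
    (hT : ∀ i, T H.n ≤ ({v | p v = i} : Set (Fin N)).ncard) : HasIndep (H, k) := by
  classical
  rcases Nat.lt_or_ge k 2 with hk | hk
  · -- trivial cases
    interval_cases k
    · exact ⟨∅, by simp [SimpleGraph.IsIndepSet], rfl⟩
    · refine ⟨{⟨0, by simp only; omega⟩}, by simp [SimpleGraph.IsIndepSet], by simp⟩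
  · by_cases h : ∃ x, p x = 2 ∧ (x : ℕ) < a1 H.n k
    · obtain ⟨x, hx, hx'⟩ := h
      exact back_core hn hk (C := {v | p v = 2}) (D := {v | p v = 3}) (x₀ := x) hx hx'
        (fun u hu v hv => hCD u v hu hv) (hT 2) (hT 3)
    · push Not at h
      obtain ⟨c, hc⟩ := h0 2
      obtain ⟨d, hd⟩ := h0 3
      have hd' : (d : ℕ) < a1 H.n k := by
        rcases hCD c d hc hd with h1 | h1
        · have := (lr_lt h1).1
          have := h c hc
          omega
        · exact (lr_lt h1).1
      exact back_core hn hk (C := {v | p v = 3}) (D := {v | p v = 2}) (x₀ := d) hd hd'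
        (fun u hu v hv => (hCD v u hv hu).symm) (hT 3) (hT 2)

/-- the labelling of the forward direction -/
noncomputable def lab (H : FinGraph) (k N : ℕ) (I : Finset (Fin H.n)) (x : Fin N) : Fin 4 :=
  open Classical in
  if N - T H.n ≤ (x : ℕ) then 0
  else if ((∃ i : Fin H.n, i ∉ I ∧ (x : ℕ) = i) ∨ (H.n ≤ (x : ℕ) ∧ (x : ℕ) < a1 H.n k)) then 2
  else if ((∃ i ∈ I, ∃ j ∈ I, i ≠ j ∧ (x : ℕ) = a1 H.n k + (i * H.n + j)) ∨
    (a2 H.n k ≤ (x : ℕ) ∧ (x : ℕ) < a3 H.n k)) then 3
  else 1

theorem size_ineq (hn : H.n = 3 * k) : a3 H.n k ≤ 3 * T H.n ∧ k * k - k ≤ T H.n ∧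
    a1 H.n k ≤ a2 H.n k ∧ a2 H.n k ≤ a3 H.n k := by
  unfold a3 a2 a1 T
  have h1 : k * k ≤ H.n * H.n := by rw [hn]; exact Nat.mul_le_mul (by omega) (by omega)
  omega

theorem forward (hn : H.n = 3 * k) (hN : 4 * T H.n ≤ N) (hI : HasIndep (H, k)) :
    ∃ p : Fin N → Fin 4, (∀ u v, p u = 0 → p v = 1 → ¬ (sgraph H k N).Adj u v) ∧
      (∀ u v, p u = 2 → p v = 3 → (sgraph H k N).Adj u v) ∧
      ∀ i, T H.n ≤ ({v | p v = i} : Set (Fin N)).ncard := by
  classical
  obtain ⟨I, hI, hcard⟩ := hI
  simp only at I hI hcard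
  obtain ⟨s1, s2, s3, s4⟩ := size_ineq hn
  have hTpos : 0 < T H.n := by unfold T; omega
  have hpairlt : ∀ i j : Fin H.n, a1 H.n k + ((i : ℕ) * H.n + j) < a2 H.n k := by
    intro i j
    have h1 : (i : ℕ) * H.n + j < H.n * H.n := by
      have h2 : ((i : ℕ) + 1) * H.n ≤ H.n * H.n := Nat.mul_le_mul_right _ i.2
      have h3 : ((i : ℕ) + 1) * H.n = (i : ℕ) * H.n + H.n := by ring
      have := j.2
      omega
    have e2 : a2 H.n k = a1 H.n k + H.n * H.n := rfl
    omega
  have ha1 : a1 H.n k = H.n + (H.n * H.n + k + 1) := rfl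
  -- description of the classes
  have hclass0 : ({v | lab H k N I v = 0} : Set (Fin N)) =
      {x : Fin N | N - T H.n ≤ (x : ℕ) ∧ (x : ℕ) < (N - T H.n) + T H.n} := by
    ext x
    simp only [Set.mem_setOf_eq, lab]
    have := x.2
    constructor
    · intro h
      by_cases h1 : N - T H.n ≤ (x : ℕ)
      · omega
      · exfalso
        rw [if_neg h1] at h
        split_ifs at h <;> exact absurd h (by decide)
    · rintro ⟨h1, _⟩
      rw [if_pos h1]
  have hclass2 : ({v | lab H k N I v = 2} : Set (Fin N)) =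
      {x : Fin N | (∃ i : Fin H.n, i ∉ I ∧ (x : ℕ) = i)} ∪
        {x : Fin N | H.n ≤ (x : ℕ) ∧ (x : ℕ) < a1 H.n k} := by
    ext x
    simp only [Set.mem_setOf_eq, lab, Set.mem_union]
    constructor
    · intro h
      by_contra h2
      rw [if_neg h2] at h
      split_ifs at h <;> exact absurd h (by decide)
    · intro h
      have h1 : ¬ (N - T H.n ≤ (x : ℕ)) := by
        rcases h with ⟨i, _, hi⟩ | h
        · have := i.2
          omega
        · omega
      rw [if_neg h1, if_pos h]
  have hclass3 : ({v | lab H k N I v = 3} : Set (Fin N)) =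
      {x : Fin N | (∃ i ∈ I, ∃ j ∈ I, i ≠ j ∧ (x : ℕ) = a1 H.n k + (i * H.n + j))} ∪
        {x : Fin N | a2 H.n k ≤ (x : ℕ) ∧ (x : ℕ) < a3 H.n k} := by
    ext x
    simp only [Set.mem_setOf_eq, lab, Set.mem_union]
    constructor
    · intro h
      by_contra h3
      rw [if_neg h3] at h
      split_ifs at h <;> exact absurd h (by decide)
    · intro h
      have h1 : ¬ (N - T H.n ≤ (x : ℕ)) := by
        rcases h with ⟨i, _, j, _, _, hi⟩ | h
        · have := hpairlt i j
          omega
        · have e3 : a3 H.n k = a2 H.n k + (T H.n - (k * k - k)) := rfl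
          omega
      have h2 : ¬ ((∃ i : Fin H.n, i ∉ I ∧ (x : ℕ) = i) ∨
          (H.n ≤ (x : ℕ) ∧ (x : ℕ) < a1 H.n k)) := by
        rintro (⟨i, _, hi⟩ | h')
        · have := i.2
          rcases h with ⟨i', _, j, _, _, hi'⟩ | h
          · omega
          · omega
        · rcases h with ⟨i', _, j, _, _, hi'⟩ | h
          · omega
          · omega
      rw [if_neg h1, if_neg h2, if_pos h]
  have hc0 : ({v | lab H k N I v = 0} : Set (Fin N)).ncard = T H.n := by
    rw [hclass0]
    exact ncard_block _ _ _ (by omega)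
  have hc2 : ({v | lab H k N I v = 2} : Set (Fin N)).ncard = T H.n := by
    have hblk : ({x : Fin N | H.n ≤ (x : ℕ) ∧ (x : ℕ) < a1 H.n k}).ncard =
        H.n * H.n + k + 1 := ncard_block _ _ _ (by omega)
    rw [hclass2, Set.ncard_union_eq, hblk]
    · have h1 : ({x | (∃ i : Fin H.n, i ∉ I ∧ (x : ℕ) = i)} : Set (Fin N)) =
          (fun i : Fin H.n => (⟨i, by have := i.2; omega⟩ : Fin N)) '' ((Iᶜ : Finset (Fin H.n)) :
            Set (Fin H.n)) := by
        ext x
        simp only [Set.mem_setOf_eq, Set.mem_image, Finset.coe_compl, Set.mem_compl_iff,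
          Finset.mem_coe]
        constructor
        · rintro ⟨i, hi, hx⟩
          exact ⟨i, hi, Fin.ext hx.symm⟩
        · rintro ⟨i, hi, rfl⟩
          exact ⟨i, hi, rfl⟩
      rw [h1, Set.ncard_image_of_injective, Set.ncard_coe_finset, Finset.card_compl,
        Fintype.card_fin, hcard]
      · unfold T
        omega
      · intro i j hij
        simp only [Fin.mk.injEq] at hij
        exact Fin.ext hij
    · rw [Set.disjoint_left]
      rintro x ⟨i, _, hi⟩ ⟨h, _⟩
      have := i.2
      omega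
  have hc3 : ({v | lab H k N I v = 3} : Set (Fin N)).ncard = T H.n := by
    have hblk : ({x : Fin N | a2 H.n k ≤ (x : ℕ) ∧ (x : ℕ) < a3 H.n k}).ncard =
        T H.n - (k * k - k) := ncard_block _ _ _ (by
      have e3 : a3 H.n k = a2 H.n k + (T H.n - (k * k - k)) := rfl
      omega)
    rw [hclass3, Set.ncard_union_eq, hblk]
    · have h1 : ({x | (∃ i ∈ I, ∃ j ∈ I, i ≠ j ∧ (x : ℕ) = a1 H.n k + (i * H.n + j))} :
          Set (Fin N)) =
          (fun p : Fin H.n × Fin H.n => (⟨a1 H.n k + ((p.1 : ℕ) * H.n + p.2), by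
            have := hpairlt p.1 p.2; omega⟩ : Fin N)) '' ((I.offDiag : Finset _) :
            Set (Fin H.n × Fin H.n)) := by
        ext x
        simp only [Set.mem_setOf_eq, Set.mem_image, Finset.mem_coe, Finset.mem_offDiag,
          Prod.exists]
        constructor
        · rintro ⟨i, hi, j, hj, hij, hx⟩
          exact ⟨i, j, ⟨hi, hj, hij⟩, Fin.ext hx.symm⟩
        · rintro ⟨i, j, ⟨hi, hj, hij⟩, rfl⟩
          exact ⟨i, hi, j, hj, hij, rfl⟩
      rw [h1, Set.ncard_image_of_injective, Set.ncard_coe_finset, Finset.offDiag_card, hcard]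
      · omega
      · rintro ⟨i, j⟩ ⟨i', j'⟩ h
        simp only [Fin.mk.injEq] at h
        have h2 : (i : ℕ) * H.n + j = (i' : ℕ) * H.n + j' := by omega
        have hpos : 0 < H.n := by have := i.2; omega
        have e1 : ((i : ℕ) * H.n + j) / H.n = i := by
          rw [Nat.mul_comm, Nat.mul_add_div hpos, Nat.div_eq_of_lt j.2, Nat.add_zero]
        have e2 : ((i' : ℕ) * H.n + j') / H.n = i' := by
          rw [Nat.mul_comm, Nat.mul_add_div hpos, Nat.div_eq_of_lt j'.2, Nat.add_zero]
        have e3 : (i : ℕ) = i' := by rw [← e1, ← e2, h2]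
        have e4 : i = i' := Fin.ext e3
        subst e4
        have e5 : (j : ℕ) = j' := by omega
        have e6 : j = j' := Fin.ext e5
        rw [e6]
    · rw [Set.disjoint_left]
      rintro x ⟨i, _, j, _, _, hi⟩ ⟨h, _⟩
      have := hpairlt i j
      omega
  refine ⟨lab H k N I, ?_, ?_, ?_⟩
  · intro u v hu _ hadj
    have h1 : u ∈ ({v | lab H k N I v = 0} : Set (Fin N)) := hu
    rw [hclass0] at h1
    have h2 := h1.1
    rcases hadj with h | h
    · have := lr_lt h
      omega
    · have := lr_lt h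
      omega
  · intro u v hu hv
    have h1 : u ∈ ({v | lab H k N I v = 2} : Set (Fin N)) := hu
    have h2 : v ∈ ({v | lab H k N I v = 3} : Set (Fin N)) := hv
    rw [hclass2] at h1
    rw [hclass3] at h2
    left
    rw [lr_iff]
    refine ⟨?_, ?_⟩
    · rcases h1 with ⟨i, _, hi⟩ | h1
      · have := i.2
        omega
      · exact h1.2
    · rcases h2 with ⟨i, hi, j, hj, hij, hv'⟩ | h2
      · left
        have hpos : 0 < H.n := by have := i.2; omega
        have e0 : (v : ℕ) - a1 H.n k = (i : ℕ) * H.n + j := by omega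
        have e1 : ((v : ℕ) - a1 H.n k) / H.n = i := by
          rw [e0, Nat.mul_comm, Nat.mul_add_div hpos, Nat.div_eq_of_lt j.2, Nat.add_zero]
        have e2 : ((v : ℕ) - a1 H.n k) % H.n = j := by
          rw [e0, Nat.mul_comm, Nat.mul_add_mod, Nat.mod_eq_of_lt j.2]
        have h3 := hpairlt i j
        refine ⟨by omega, by omega, ?_, ?_, ?_⟩
        · rw [e1, e2]
          exact fun h => hij (Fin.ext h)
        · rw [e1, e2]
          by_contra hne
          rw [Bool.not_eq_false, adjB_iff] at hne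
          exact hI hi hj hij hne
        · rw [e1, e2]
          rcases h1 with ⟨i', hi', hu'⟩ | h1
          · right
            refine ⟨?_, ?_⟩
            · rintro h
              rw [h] at hu'
              exact hi' (by rwa [← Fin.ext hu'])
            · rintro h
              rw [h] at hu'
              exact hi' (by rwa [← Fin.ext hu'])
          · left
            exact h1.1
      · right
        exact h2
  · have huniv : (({v | lab H k N I v = 1} : Set (Fin N)) ∪ {v | lab H k N I v = 0}) ∪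
        ({v | lab H k N I v = 2} ∪ {v | lab H k N I v = 3}) = Set.univ := by
      ext x
      simp only [Set.mem_union, Set.mem_setOf_eq, Set.mem_univ, iff_true]
      generalize lab H k N I x = a
      fin_cases a <;> simp
    have h1 := Set.ncard_union_le (({v | lab H k N I v = 1} : Set (Fin N)) ∪
      {v | lab H k N I v = 0}) ({v | lab H k N I v = 2} ∪ {v | lab H k N I v = 3})
    rw [huniv, Set.ncard_univ, Nat.card_eq_fintype_card, Fintype.card_fin] at h1
    have h2 := Set.ncard_union_le ({v | lab H k N I v = 1} : Set (Fin N))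
      {v | lab H k N I v = 0}
    have h3 := Set.ncard_union_le ({v | lab H k N I v = 2} : Set (Fin N))
      {v | lab H k N I v = 3}
    intro i
    fin_cases i
    · exact hc0.ge
    · change T H.n ≤ ({v | lab H k N I v = 1} : Set (Fin N)).ncard
      omega
    · exact hc2.ge
    · exact hc3.ge

/-- Correctness, for `N = ⌊c T⌋`. -/
theorem correct {c : ℝ} (hc : 4 ≤ c) (hn : H.n = 3 * k) (hN : N = ⌊c * T H.n⌋₊) :
    HasIndep (H, k) ↔ ∃ p, IsBalancedSkew c (sgraph H k N) p := by
  have hcpos : 0 < c := by linarith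
  have hT : (1 : ℝ) ≤ T H.n := by
    have : 1 ≤ T H.n := by unfold T; omega
    exact_mod_cast this
  have hN1 : (N : ℝ) ≤ c * T H.n := by
    rw [hN]
    exact Nat.floor_le (by positivity)
  have hN2 : c * T H.n < N + 1 := by
    rw [hN]
    exact Nat.lt_floor_add_one _
  constructor
  · intro h
    have hN4 : 4 * T H.n ≤ N := by
      rw [hN]
      apply Nat.le_floor
      push_cast
      nlinarith
    obtain ⟨p, h1, h2, h3⟩ := forward hn hN4 h
    refine ⟨p, ?_, h1, h2, ?_⟩
    · intro i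
      have h4 := h3 i
      have h5 : 0 < ({v | p v = i} : Set (Fin N)).ncard := by
        have : 0 < T H.n := by unfold T; omega
        omega
      obtain ⟨v, hv⟩ := (Set.ncard_pos (Set.toFinite _)).1 h5
      exact ⟨v, hv⟩
    · intro i
      rw [Nat.card_eq_fintype_card, Fintype.card_fin, div_le_iff₀ hcpos]
      have h4 : (T H.n : ℝ) ≤ (({v | p v = i} : Set (Fin N)).ncard : ℝ) := by
        exact_mod_cast h3 i
      nlinarith
  · rintro ⟨p, h0, h1, h2, h3⟩
    refine back hn h0 h2 fun i => ?_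
    have h4 := h3 i
    rw [Nat.card_eq_fintype_card, Fintype.card_fin, div_le_iff₀ hcpos] at h4
    by_contra hlt
    push Not at hlt
    have h5 : (({v | p v = i} : Set (Fin N)).ncard : ℝ) + 1 ≤ T H.n := by exact_mod_cast hlt
    nlinarith

end Pool.Agent.NPC.R542.Skew
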