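import Pool.Agent.R542.Skew

/-!
# Balanced skew partitions: polynomial time
-/

set_option autoImplicit false

namespace Pool.Agent.NPC.R542.Skew

open Pool.Agent.H692R2 Pool.Agent.H673R2 Pool.Agent.W982.Hole Pool.Agent.NPC.R542

theorem poly_lr {α : Type} [TEnc α] {H : α → FinGraph} {k x y : α → ℕ} (hH : Poly H)
    (hk : Poly k) (hx : Poly x) (hy : Poly y) : Poly (fun a => lr (H a) (k a) (x a) (y a)) := by
  have hn : Poly (fun a => (H a).n) := poly_n hH
  have h1 : Poly (fun a => a1 (H a).n (k a)) :=
    Poly.add hn (Poly.add (Poly.add (Poly.mul hn hn) hk) (Poly.const 1))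
  have h2 : Poly (fun a => a2 (H a).n (k a)) := Poly.add h1 (Poly.mul hn hn)
  have hT : Poly (fun a => T (H a).n) := Poly.add (Poly.add (Poly.mul hn hn) hn) (Poly.const 1)
  have h3 : Poly (fun a => a3 (H a).n (k a)) :=
    Poly.add h2 (Poly.sub hT (Poly.sub (Poly.mul hk hk) hk))
  have hq : Poly (fun a => (y a - a1 (H a).n (k a)) / (H a).n) := Poly.div (Poly.sub hy h1) hn
  have hr : Poly (fun a => (y a - a1 (H a).n (k a)) % (H a).n) := Poly.mod (Poly.sub hy h1) hn
  exact Poly.and (Poly.decide_lt hx h1) (Poly.or (Poly.and (Poly.decide_le h1 hy)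
    (Poly.and (Poly.decide_lt hy h2) (Poly.and (Poly.not (Poly.decide_eq hq hr))
      (Poly.and (Poly.not (poly_adjB hH hq hr)) (Poly.or (Poly.decide_le hn hx)
        (Poly.and (Poly.not (Poly.decide_eq hx hq)) (Poly.not (Poly.decide_eq hx hr))))))))
    (Poly.and (Poly.decide_le h2 hy) (Poly.decide_lt hy h3)))

/-- the floor of `c` times a unary number is computable in polynomial time -/
def FloorPoly (c : ℝ) : Prop := Poly (fun l : List Unit => ⌊c * l.length⌋₊)

theorem hard_of_floor {c : ℝ} (hc : 4 ≤ c) (hF : FloorPoly c) :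
    HardPr (fun G : FinGraph => G.graph.IsBipartite)
      (fun G => ∃ p, IsBalancedSkew c G.graph p) := by
  have hk : UPoly (fun I : FinGraph × ℕ => min I.2 I.1.n) :=
    UPoly.of_le (Poly.min (Poly.snd Poly.id) (poly_n (Poly.fst Poly.id)))
      (upoly_n (Poly.fst Poly.id)) fun a => min_le_right _ _
  have hn : UPoly (fun I : FinGraph × ℕ => I.1.n) := upoly_n (Poly.fst Poly.id)
  have hT : UPoly (fun I : FinGraph × ℕ => T I.1.n) :=
    UPoly.add (UPoly.add (UPoly.mul hn hn) hn) (UPoly.const 1)
  have hN0 : Poly (fun I : FinGraph × ℕ => ⌊c * T I.1.n⌋₊) := by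
    refine (Poly.comp hF hT).congr fun I => ?_
    simp
  have hN : UPoly (fun I : FinGraph × ℕ => ⌊c * T I.1.n⌋₊) := by
    refine UPoly.of_le hN0 (UPoly.mul (UPoly.const ⌈c⌉₊) hT) fun I => ?_
    apply Nat.floor_le_of_le
    push_cast
    exact mul_le_mul_of_nonneg_right (Nat.le_ceil c) (Nat.cast_nonneg _)
  refine hardPr_indep.trans (f := fun I : FinGraph × ℕ =>
    (⟨⌊c * T I.1.n⌋₊, sgraph I.1 (min I.2 I.1.n) ⌊c * T I.1.n⌋₊⟩ : FinGraph)) ?_ ?_ ?_
  · refine poly_finGraph (b := fun I x y => lr I.1 (min I.2 I.1.n) x y ||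
      lr I.1 (min I.2 I.1.n) y x) hN ?_ ?_
    · have hx : Poly (fun p : ((FinGraph × ℕ) × ℕ) × ℕ => p.1.2) := Poly.snd (Poly.fst Poly.id)
      have hy : Poly (fun p : ((FinGraph × ℕ) × ℕ) × ℕ => p.2) := Poly.snd Poly.id
      have hI : Poly (fun p : ((FinGraph × ℕ) × ℕ) × ℕ => p.1.1) := Poly.fst (Poly.fst Poly.id)
      have hk' : Poly (fun p : ((FinGraph × ℕ) × ℕ) × ℕ => min p.1.1.2 p.1.1.1.n) :=
        Poly.comp (g := fun I : FinGraph × ℕ => min I.2 I.1.n) hk.toPoly hI
      exact Poly.or (poly_lr (Poly.fst hI) hk' hx hy) (poly_lr (Poly.fst hI) hk' hy hx)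
    · intro I x y
      simp [sgraph]
  · rintro I _
    exact bipartite _ _ _
  · rintro ⟨H, k⟩ ⟨_, hn3⟩
    simp only at hn3
    have hk3 : min k H.n = k := by omega
    simp only [hk3]
    exact correct hc hn3 rfl

theorem floorPoly_rat {c : ℚ} (hc : 4 ≤ c) : FloorPoly (c : ℝ) := by
  have h : Poly (fun l : List Unit => (c.num.toNat * l.length) / c.den) :=
    Poly.div (Poly.mul (Poly.const _) (Poly.length Poly.id)) (Poly.const _)
  refine h.congr fun l => ?_
  have hnum : (c.num.toNat : ℤ) = c.num := by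
    apply Int.toNat_of_nonneg
    rw [Rat.num_nonneg]
    linarith
  have h1 : (c : ℝ) * l.length = ((c.num.toNat * l.length : ℕ) : ℝ) / (c.den : ℝ) := by
    have h2 : (c : ℝ) = (c.num.toNat : ℝ) / (c.den : ℝ) := by
      conv_lhs => rw [← Rat.num_div_den c]
      push_cast
      rw [← hnum]
      push_cast
      rfl
    rw [h2]
    push_cast
    ring
  rw [h1, Nat.floor_div_eq_div]

/-! ### Computing the floor with an algorithm for the problem -/

/-- a complete bipartite graph and isolated vertices -/
def tgraph (K N : ℕ) : SimpleGraph (Fin N) where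
  Adj x y := ((x : ℕ) < K ∧ K ≤ (y : ℕ) ∧ (y : ℕ) < 2 * K) ∨
    ((y : ℕ) < K ∧ K ≤ (x : ℕ) ∧ (x : ℕ) < 2 * K)
  symm := ⟨fun x y h => h.symm⟩
  loopless := ⟨fun x h => by rcases h with h | h <;> omega⟩

theorem tgraph_bipartite (K N : ℕ) : (tgraph K N).IsBipartite := by
  refine ⟨SimpleGraph.Coloring.mk (fun x => if (x : ℕ) < K then 0 else 1) ?_⟩
  rintro x y (h | h)
  · rw [if_pos h.1, if_neg (by omega)]
    decide
  · rw [if_neg (by omega), if_pos h.1]
    decide

theorem tgraph_iff {c : ℝ} (hc : 4 ≤ c) {K N : ℕ} (hK : 1 ≤ K) (hN : 4 * K ≤ N) :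
    (∃ p, IsBalancedSkew c (tgraph K N) p) ↔ (N : ℝ) ≤ c * K := by
  classical
  have hcpos : 0 < c := by linarith
  constructor
  · rintro ⟨p, h0, h1, h2, h3⟩
    obtain ⟨x, hx⟩ := h0 2
    have h4 := h3 3
    rw [Nat.card_eq_fintype_card, Fintype.card_fin, div_le_iff₀ hcpos] at h4
    have h5 : ({v | p v = 3} : Set (Fin N)).ncard ≤ K := by
      by_cases hxK : (x : ℕ) < K
      · have h6 : ({v | p v = 3} : Set (Fin N)) ⊆ {v : Fin N | K ≤ (v : ℕ) ∧ (v : ℕ) < K + K} := by
          intro v hv
          rcases h2 x v hx hv with h | h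
          · simp only [Set.mem_setOf_eq]; omega
          · omega
        have h7 := Set.ncard_le_ncard h6 (Set.toFinite _)
        rwa [ncard_block _ _ _ (by omega)] at h7
      · have h6 : ({v | p v = 3} : Set (Fin N)) ⊆ {v : Fin N | 0 ≤ (v : ℕ) ∧ (v : ℕ) < 0 + K} := by
          intro v hv
          rcases h2 x v hx hv with h | h
          · omega
          · simp only [Set.mem_setOf_eq]; omega
        have h7 := Set.ncard_le_ncard h6 (Set.toFinite _)
        rwa [ncard_block _ _ _ (by omega)] at h7
    have h6 : ((({v | p v = 3} : Set (Fin N)).ncard : ℕ) : ℝ) ≤ K := by exact_mod_cast h5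
    nlinarith
  · intro h
    refine ⟨fun x => if (x : ℕ) < K then 2 else if (x : ℕ) < 2 * K then 3 else
      if (x : ℕ) < 3 * K then 0 else 1, ?_, ?_, ?_, ?_⟩
    · intro i
      fin_cases i
      · refine ⟨⟨2 * K, by omega⟩, ?_⟩
        simp only
        rw [if_neg (by omega), if_neg (by omega), if_pos (by omega)]
        rfl
      · refine ⟨⟨3 * K, by omega⟩, ?_⟩
        simp only
        rw [if_neg (by omega), if_neg (by omega), if_neg (by omega)]
        rfl
      · refine ⟨⟨0, by omega⟩, ?_⟩
        simp only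
        rw [if_pos (by omega)]
        rfl
      · refine ⟨⟨K, by omega⟩, ?_⟩
        simp only
        rw [if_neg (by omega), if_pos (by omega)]
        rfl
    · intro u v hu hv hadj
      simp only at hu hv
      have hu' : 2 * K ≤ (u : ℕ) := by
        by_contra hh
        split_ifs at hu <;> first | omega | exact absurd hu (by decide)
      rcases hadj with h | h <;> omega
    · intro u v hu hv
      simp only at hu hv
      have hu' : (u : ℕ) < K := by
        by_contra hh
        rw [if_neg hh] at hu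
        split_ifs at hu <;> exact absurd hu (by decide)
      have hv' : K ≤ (v : ℕ) ∧ (v : ℕ) < 2 * K := by
        by_cases h1 : (v : ℕ) < K
        · rw [if_pos h1] at hv
          exact absurd hv (by decide)
        · rw [if_neg h1] at hv
          by_cases h2 : (v : ℕ) < 2 * K
          · omega
          · rw [if_neg h2] at hv
            split_ifs at hv <;> exact absurd hv (by decide)
      exact Or.inl ⟨hu', hv'⟩
    · intro i
      rw [Nat.card_eq_fintype_card, Fintype.card_fin, div_le_iff₀ hcpos]
      have key : ∀ (a l : ℕ), K ≤ l → a + l ≤ N →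
          (∀ x : Fin N, a ≤ (x : ℕ) → (x : ℕ) < a + l →
            (if (x : ℕ) < K then (2 : Fin 4) else if (x : ℕ) < 2 * K then 3 else
              if (x : ℕ) < 3 * K then 0 else 1) = i) →
          (N : ℝ) ≤ (({v | (fun x : Fin N => if (x : ℕ) < K then (2 : Fin 4) else
            if (x : ℕ) < 2 * K then 3 else if (x : ℕ) < 3 * K then 0 else 1) v = i} :
              Set (Fin N)).ncard : ℝ) * c := by
        intro a l hl haN hx
        have h6 : ({x : Fin N | a ≤ (x : ℕ) ∧ (x : ℕ) < a + l}) ⊆
            ({v | (fun x : Fin N => if (x : ℕ) < K then (2 : Fin 4) else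
            if (x : ℕ) < 2 * K then 3 else if (x : ℕ) < 3 * K then 0 else 1) v = i} :
              Set (Fin N)) := fun x hx' => hx x hx'.1 hx'.2
        have h7 := Set.ncard_le_ncard h6 (Set.toFinite _)
        rw [ncard_block _ _ _ haN] at h7
        have h8 : (K : ℝ) ≤ (({v | (fun x : Fin N => if (x : ℕ) < K then (2 : Fin 4) else
            if (x : ℕ) < 2 * K then 3 else if (x : ℕ) < 3 * K then 0 else 1) v = i} :
              Set (Fin N)).ncard : ℝ) := by exact_mod_cast hl.trans h7
        nlinarith
      fin_cases i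
      · refine key (2 * K) K le_rfl (by omega) fun x hx1 hx2 => ?_
        rw [if_neg (by omega), if_neg (by omega), if_pos (by omega)]
        rfl
      · refine key (3 * K) (N - 3 * K) (by omega) (by omega) fun x hx1 hx2 => ?_
        rw [if_neg (by omega), if_neg (by omega), if_neg (by omega)]
        rfl
      · refine key 0 K le_rfl (by omega) fun x hx1 hx2 => ?_
        rw [if_pos (by omega)]
        rfl
      · refine key K K le_rfl (by omega) fun x hx1 hx2 => ?_
        rw [if_neg (by omega), if_pos (by omega)]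
        rfl

theorem filter_lt_length {m n : ℕ} (hmn : m ≤ n) :
    ((List.range n).filter (fun k => decide (k < m))).length = m := by
  have : (List.range n).filter (fun k => decide (k < m)) = List.range m := by
    obtain ⟨d, rfl⟩ := Nat.exists_eq_add_of_le hmn
    rw [List.range_add, List.filter_append]
    have h1 : (List.range m).filter (fun k => decide (k < m)) = List.range m := by
      rw [List.filter_eq_self]
      intro k hk
      simpa using hk
    have h2 : ((List.range d).map (fun x => m + x)).filter (fun k => decide (k < m)) = [] := by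
      rw [List.filter_eq_nil_iff]
      intro k hk
      simp at hk ⊢
      omega
    rw [h1, h2, List.append_nil]
  rw [this, List.length_range]

/-- A polynomial-time test for balanced skew partitions of bipartite graphs gives a
polynomial-time algorithm for `⌊c K⌋`. -/
theorem floorPoly_of_test {c : ℝ} (hc : 4 ≤ c) {t : FinGraph → Bool} (ht : Poly t)
    (h : ∀ G : FinGraph, G.graph.IsBipartite →
      (t G = true ↔ ∃ p, IsBalancedSkew c G.graph p)) : FloorPoly c := by
  have hlen : UPoly (fun p : List Unit × ℕ => p.1.length) := UPoly.length (Poly.fst Poly.id)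
  have hN : UPoly (fun p : List Unit × ℕ => min (4 * p.1.length + 1 + p.2)
      (⌈c⌉₊ * p.1.length + 1)) := by
    refine UPoly.of_le (Poly.min (Poly.add (Poly.add (Poly.mul (Poly.const 4) hlen.toPoly)
      (Poly.const 1)) (Poly.snd Poly.id)) (Poly.add (Poly.mul (Poly.const _) hlen.toPoly)
      (Poly.const 1))) (UPoly.add (UPoly.mul (UPoly.const ⌈c⌉₊) hlen) (UPoly.const 1))
      fun a => min_le_right _ _
  have hG : Poly (fun p : List Unit × ℕ => (⟨min (4 * p.1.length + 1 + p.2)
      (⌈c⌉₊ * p.1.length + 1), tgraph p.1.length _⟩ : FinGraph)) := by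
    refine poly_finGraph (b := fun p x y =>
      (decide (x < p.1.length) && (decide (p.1.length ≤ y) && decide (y < 2 * p.1.length))) ||
      (decide (y < p.1.length) && (decide (p.1.length ≤ x) && decide (x < 2 * p.1.length))))
      hN ?_ ?_
    · have hx : Poly (fun p : ((List Unit × ℕ) × ℕ) × ℕ => p.1.2) := Poly.snd (Poly.fst Poly.id)
      have hy : Poly (fun p : ((List Unit × ℕ) × ℕ) × ℕ => p.2) := Poly.snd Poly.id
      have hK : Poly (fun p : ((List Unit × ℕ) × ℕ) × ℕ => p.1.1.1.length) :=
        Poly.length (Poly.fst (Poly.fst (Poly.fst Poly.id)))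
      have hK2 : Poly (fun p : ((List Unit × ℕ) × ℕ) × ℕ => 2 * p.1.1.1.length) :=
        Poly.mul (Poly.const 2) hK
      exact Poly.or (Poly.and (Poly.decide_lt hx hK) (Poly.and (Poly.decide_le hK hy)
        (Poly.decide_lt hy hK2))) (Poly.and (Poly.decide_lt hy hK) (Poly.and
          (Poly.decide_le hK hx) (Poly.decide_lt hx hK2)))
    · intro p x y
      simp [tgraph]
  have htG := Poly.comp ht hG
  have hlist : Poly (fun l : List Unit => (List.range ((⌈c⌉₊ - 4) * l.length)).filter
      (fun j => t (⟨min (4 * l.length + 1 + j) (⌈c⌉₊ * l.length + 1), tgraph l.length _⟩ :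
        FinGraph))) :=
    Poly.filter (p := fun (l : List Unit) (j : ℕ) =>
      t (⟨min (4 * l.length + 1 + j) (⌈c⌉₊ * l.length + 1), tgraph l.length _⟩ : FinGraph))
      (UPoly.range (UPoly.mul (UPoly.const _) (UPoly.length Poly.id))) htG
  refine (Poly.add (Poly.mul (Poly.const 4) (Poly.length (Poly.id (α := List Unit))))
    (Poly.length hlist)).congr fun l => ?_
  rcases Nat.eq_zero_or_pos l.length with h0 | hpos
  · rw [h0]
    simp
  · set K := l.length with hK
    have hc4 : 4 ≤ ⌈c⌉₊ := by
      have : ((4 : ℕ) : ℝ) ≤ c := by exact_mod_cast hc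
      exact_mod_cast this.trans (Nat.le_ceil c)
    have hf1 : 4 * K ≤ ⌊c * K⌋₊ := by
      apply Nat.le_floor
      push_cast
      exact mul_le_mul_of_nonneg_right hc (Nat.cast_nonneg _)
    have hf2 : ⌊c * K⌋₊ ≤ ⌈c⌉₊ * K := by
      apply Nat.floor_le_of_le
      push_cast
      exact mul_le_mul_of_nonneg_right (Nat.le_ceil c) (Nat.cast_nonneg _)
    have hM : (⌈c⌉₊ - 4) * K = ⌈c⌉₊ * K - 4 * K := Nat.sub_mul _ _ _
    have hcongr : (List.range ((⌈c⌉₊ - 4) * K)).filter
        (fun j => t (⟨min (4 * K + 1 + j) (⌈c⌉₊ * K + 1), tgraph K _⟩ : FinGraph)) =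
        (List.range ((⌈c⌉₊ - 4) * K)).filter (fun j => decide (j < ⌊c * K⌋₊ - 4 * K)) := by
      apply List.filter_congr
      intro j hj
      rw [List.mem_range] at hj
      have e1 : min (4 * K + 1 + j) (⌈c⌉₊ * K + 1) = 4 * K + 1 + j := by omega
      have e2 : (t (⟨min (4 * K + 1 + j) (⌈c⌉₊ * K + 1), tgraph K _⟩ : FinGraph) = true) ↔
          j < ⌊c * K⌋₊ - 4 * K := by
        rw [h _ (tgraph_bipartite _ _)]
        simp only [e1]
        rw [tgraph_iff hc hpos (by omega), ← Nat.le_floor_iff (by positivity)]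
        omega
      by_cases h5 : j < ⌊c * K⌋₊ - 4 * K
      · rw [e2.2 h5, decide_eq_true h5]
      · rw [decide_eq_false h5]
        by_contra hne
        rw [Bool.not_eq_false] at hne
        exact h5 (e2.1 hne)
    rw [hcongr, filter_lt_length (by omega)]
    omega

/-- A solution of the search problem: the list of the classes of the vertices. -/
def Sol (c : ℝ) (G : FinGraph) (l : List ℕ) : Prop :=
  ∃ p : Fin G.n → Fin 4, IsBalancedSkew c G.graph p ∧ l = List.ofFn fun v => (p v : ℕ)

/-- Post-processing of a polynomial-time function. -/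
theorem poly_after {A : List Bool → List Bool} (hA : PolyTime A) {g : List Bool → Bool}
    (hg : Poly g) : Poly (fun G : FinGraph => g (A (bits G))) := by
  have h1 : PC (fun x : List Bool => x) (fun x : List Bool => x) A :=
    H642R2.TMSim.polyTime_toPC hA
  have h2 : PC (fun x : List Bool => x) (bits : List Bool → List Bool) A :=
    PC.comp (g := fun x => x) (f := A) PC.rawIn h1
  have h3 : PC (fun x : List Bool => x) (bits : Bool → List Bool) (fun x => g (A x)) :=
    PC.comp (g := g) (f := A) hg h2
  have h4 : PC (bits : FinGraph → List Bool) (fun x : List Bool => x) (fun G => bits G) := PC.id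
  exact PC.comp (g := fun x => g (A x)) (f := fun G : FinGraph => bits G) h3 h4

theorem collapse_of_test {c : ℝ} (hc : 4 ≤ c) {t : FinGraph → Bool} (ht : Poly t)
    (h : ∀ G : FinGraph, G.graph.IsBipartite →
      (t G = true ↔ ∃ p, IsBalancedSkew c G.graph p)) : ∀ L : Set (List Bool), InNP L → InP L := by
  intro L hL
  obtain ⟨f, hf, hfp, hfL⟩ := hard_of_floor hc (floorPoly_of_test hc ht h) L hL
  have h1 : PC (fun x : List Bool => x) (bits : Bool → List Bool) (fun x => t (f x)) :=
    PC.comp (g := t) (f := f) ht hf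
  refine ⟨fun x => [t (f x)], PC.toPolyTime (PC.comp (g := fun b => [b])
    (f := fun x => t (f x)) PC.rawBool h1), fun x => ?_⟩
  exact (hfL x).trans ((h _ (hfp x)).symm.trans (by simp))

end Pool.Agent.NPC.R542.Skew
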